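import Pool.Agent.MQK.Kdf

/-!
# MQK KGN : the gain is real and not identically zero

`‖ph p η‖ = ‖1+iη‖^(2-2p)/‖2+iη‖⁴`, integrable (decay `|η|^(-2-2p)`), continuous, `ph p (-η) = conj (ph p η)`.
* `gn_real`: `conj (gn p t) = gn p t` by the substitution `η → -η`.
* `gn_ne`: otherwise `∫ ph p η e^{itη} dη = 0` for all real `t`, i.e. the Fourier transform of the integrable
  continuous function `ph p` vanishes identically, so `ph p = 0` by Fourier inversion
  (`MeasureTheory.Integrable.fourierInv_fourier_eq` or `Continuous.fourierInv_fourier_eq`; the Fourier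
  transform `0` is integrable), but `ph p 0 = 1/16`.
-/

set_option autoImplicit false

open MeasureTheory Metric Set Filter Topology

namespace MQK

private theorem kgn_slit (η : ℝ) : 1 + (η : ℂ) * Complex.I ∈ Complex.slitPlane := by
  left
  simp

private theorem kgn_ne (η : ℝ) : (2 + (η : ℂ) * Complex.I) ≠ 0 := by
  intro h
  have := congrArg Complex.re h
  simp at this

private theorem ph_cont (p : ℝ) : Continuous (ph p) := by
  unfold ph
  have h1 : Continuous fun η : ℝ => Complex.log (1 + (η : ℂ) * Complex.I) :=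
    Continuous.clog (by fun_prop) kgn_slit
  refine Continuous.div ?_ (by fun_prop) fun η => pow_ne_zero 4 (kgn_ne η)
  exact Complex.continuous_exp.comp (continuous_const.mul h1)

private theorem kgn_norm_sq (a η : ℝ) : ‖(a : ℂ) + (η : ℂ) * Complex.I‖ ^ 2 = a ^ 2 + η ^ 2 := by
  rw [← Complex.normSq_eq_norm_sq, Complex.normSq_add_mul_I]

private theorem ph_norm_le {p : ℝ} (hp : 0 < p) (η : ℝ) : ‖ph p η‖ ≤ (1 + η ^ 2)⁻¹ := by
  have e1 := kgn_norm_sq 1 η
  have e2 := kgn_norm_sq 2 η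
  rw [Complex.ofReal_one] at e1
  have e2' : ‖(2 : ℂ) + (η : ℂ) * Complex.I‖ ^ 2 = 2 ^ 2 + η ^ 2 := by
    rw [← e2]
    norm_num
  have hpos : 0 < ‖1 + (η : ℂ) * Complex.I‖ := norm_pos_iff.mpr (Complex.slitPlane_ne_zero (kgn_slit η))
  have hge : 1 ≤ ‖1 + (η : ℂ) * Complex.I‖ := by
    by_contra h
    push Not at h
    nlinarith [sq_nonneg η]
  have hlog : 0 ≤ Real.log ‖1 + (η : ℂ) * Complex.I‖ := Real.log_nonneg hge
  have h1 : ‖Complex.exp ((2 - 2 * p) * Complex.log (1 + (η : ℂ) * Complex.I))‖ ≤ 1 + η ^ 2 := by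
    rw [Complex.norm_exp]
    have h2 : ((2 - 2 * (p : ℂ)) * Complex.log (1 + (η : ℂ) * Complex.I)).re =
        (2 - 2 * p) * Real.log ‖1 + (η : ℂ) * Complex.I‖ := by
      have : (2 - 2 * (p : ℂ)) = ((2 - 2 * p : ℝ) : ℂ) := by push_cast; ring
      rw [this, Complex.re_ofReal_mul, Complex.log_re]
    rw [h2]
    have h3 : (2 - 2 * p) * Real.log ‖1 + (η : ℂ) * Complex.I‖ ≤
        2 * Real.log ‖1 + (η : ℂ) * Complex.I‖ := by nlinarith
    refine (Real.exp_le_exp.mpr h3).trans (le_of_eq ?_)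
    rw [two_mul, Real.exp_add, Real.exp_log hpos, ← sq, e1]
    ring
  unfold ph
  rw [norm_div, norm_pow]
  have h4 : (1 + η ^ 2) ^ 2 ≤ ‖(2 : ℂ) + (η : ℂ) * Complex.I‖ ^ 4 := by
    have : ‖(2 : ℂ) + (η : ℂ) * Complex.I‖ ^ 4 = (‖(2 : ℂ) + (η : ℂ) * Complex.I‖ ^ 2) ^ 2 := by ring
    rw [this, e2']
    apply pow_le_pow_left₀ (by positivity)
    linarith
  have h5 : 0 < 1 + η ^ 2 := by positivity
  have h6 : 0 < ‖(2 : ℂ) + (η : ℂ) * Complex.I‖ ^ 4 := lt_of_lt_of_le (by positivity) h4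
  rw [div_le_iff₀ h6, inv_mul_eq_div, le_div_iff₀ h5]
  calc ‖Complex.exp ((2 - 2 * p) * Complex.log (1 + (η : ℂ) * Complex.I))‖ * (1 + η ^ 2)
      ≤ (1 + η ^ 2) * (1 + η ^ 2) := mul_le_mul_of_nonneg_right h1 h5.le
    _ = (1 + η ^ 2) ^ 2 := by ring
    _ ≤ _ := h4

theorem ph_integrable {p : ℝ} (hp : 0 < p) : Integrable (ph p) := by
  refine Integrable.mono' integrable_inv_one_add_sq (ph_cont p).aestronglyMeasurable ?_
  exact Eventually.of_forall fun η => ph_norm_le hp η

private theorem ph_conj (p η : ℝ) : (starRingEnd ℂ) (ph p η) = ph p (-η) := by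
  unfold ph
  have h1 : (starRingEnd ℂ) (1 + (η : ℂ) * Complex.I) = 1 + ((-η : ℝ) : ℂ) * Complex.I := by
    rw [map_add, map_one, map_mul, Complex.conj_ofReal, Complex.conj_I]
    push_cast
    ring
  have h2 : (starRingEnd ℂ) (2 + (η : ℂ) * Complex.I) = 2 + ((-η : ℝ) : ℂ) * Complex.I := by
    rw [map_add, map_mul, Complex.conj_ofReal, Complex.conj_I, Complex.conj_ofNat]
    push_cast
    ring
  have harg : (1 + (η : ℂ) * Complex.I).arg ≠ Real.pi :=
    Complex.slitPlane_arg_ne_pi (kgn_slit η)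
  rw [map_div₀, map_pow, h2, ← Complex.exp_conj, map_mul, ← Complex.log_conj _ harg, h1, map_sub,
    map_mul, Complex.conj_ofReal, Complex.conj_ofNat]

theorem gn_real (p t : ℝ) : ∃ r : ℝ, gn p t = r := by
  rw [← Complex.conj_eq_iff_real]
  unfold gn
  rw [map_mul, ← integral_conj]
  have h1 : (starRingEnd ℂ) (1 / (2 * (Real.pi : ℂ))) = 1 / (2 * (Real.pi : ℂ)) := by
    rw [map_div₀, map_one, map_mul, Complex.conj_ofReal, Complex.conj_ofNat]
  rw [h1]
  congr 1
  rw [← integral_neg_eq_self (μ := volume)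
    (fun η : ℝ => ph p η * Complex.exp (t * (1 + (η : ℂ) * Complex.I)))]
  refine integral_congr_ae (Eventually.of_forall fun η => ?_)
  show (starRingEnd ℂ) (ph p η * Complex.exp (t * (1 + (η : ℂ) * Complex.I))) =
    ph p (-η) * Complex.exp (t * (1 + ((-η : ℝ) : ℂ) * Complex.I))
  rw [map_mul, ph_conj, ← Complex.exp_conj, map_mul, Complex.conj_ofReal, map_add, map_one,
    map_mul, Complex.conj_ofReal, Complex.conj_I]
  congr 3
  push_cast
  ring

theorem gn_ne {p : ℝ} (hp : 0 < p) : ∃ t : ℝ, gn p t ≠ 0 := by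
  by_contra hcon
  push Not at hcon
  have hpi : (1 / (2 * (Real.pi : ℂ))) ≠ 0 := by
    have : (Real.pi : ℂ) ≠ 0 := by exact_mod_cast Real.pi_ne_zero
    exact one_div_ne_zero (mul_ne_zero two_ne_zero this)
  have h1 : ∀ t : ℝ, ∫ η : ℝ, ph p η * Complex.exp ((t * η : ℝ) * Complex.I) = 0 := by
    intro t
    have h2 := hcon t
    unfold gn at h2
    have h3 := (mul_eq_zero.mp h2).resolve_left hpi
    have h4 : ∀ η : ℝ, ph p η * Complex.exp (t * (1 + (η : ℂ) * Complex.I)) =
        Complex.exp t * (ph p η * Complex.exp ((t * η : ℝ) * Complex.I)) := by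
      intro η
      have : (t : ℂ) * (1 + (η : ℂ) * Complex.I) = t + (t * η : ℝ) * Complex.I := by
        push_cast
        ring
      rw [this, Complex.exp_add]
      ring
    rw [integral_congr_ae (Eventually.of_forall h4), integral_const_mul] at h3
    exact (mul_eq_zero.mp h3).resolve_left (Complex.exp_ne_zero _)
  have h2 : FourierTransform.fourier (ph p) = (0 : ℝ → ℂ) := by
    ext ξ
    rw [Real.fourier_real_eq_integral_exp_smul]
    have h3 := h1 (-2 * Real.pi * ξ)
    rw [Pi.zero_apply, ← h3]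
    refine integral_congr_ae (Eventually.of_forall fun v => ?_)
    show Complex.exp (((-2 * Real.pi * v * ξ : ℝ) : ℂ) * Complex.I) • ph p v =
      ph p v * Complex.exp (((-2 * Real.pi * ξ * v : ℝ) : ℂ) * Complex.I)
    rw [smul_eq_mul, mul_comm]
    congr 4
    ring
  have h3 : Integrable (FourierTransform.fourier (ph p)) := by
    rw [h2]
    exact integrable_zero _ _ _
  have h4 := (ph_cont p).fourierInv_fourier_eq (ph_integrable hp) h3
  have h5 : ph p = 0 := by
    rw [← h4, h2]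
    ext v
    rw [Real.fourierInv_eq]
    simp
  have h6 : ph p 0 = 1 / 16 := by
    unfold ph
    rw [Complex.ofReal_zero, zero_mul, add_zero, add_zero, Complex.log_one, mul_zero,
      Complex.exp_zero]
    norm_num
  rw [h5] at h6
  norm_num at h6

end MQK
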