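import Pool.Agent.MQK.Kli

set_option autoImplicit false

/-!
# MQK KT1 : the coefficients of `((1+z)/(1-z))^(2p)`

* `exa_lim`: as `MQV.exm_lower` (GammaSeq): `∏_{j<n} (s+j)/(j+1) = n^s/((s+n) GammaSeq s n)`, times `n^(1-s)`
  is `n/(s+n) · 1/GammaSeq s n → 1/Γ(s)` (`Real.GammaSeq_tendsto_Gamma`).
* `dd p z = bs p z - 4^p (1-z)^(-2p)`.  `bs p z = exp (2p log (1+z)) exp (-2p log (1-z))` on the disc
  (`log ((1+z)/(1-z)) = log (1+z) - log (1-z)`, both arguments less than `π/2` in modulus), so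
  `dd' z = 2p (1-z)^(-2p-1) (2 (1+z)^(2p-1) - 4^p)`, `(1±z)^s = exp (s log (1±z))`.
  `‖2(1+z)^(2p-1) - 4^p‖ ≤ C ‖1-z‖` for `‖1-z‖ ≤ 1` (mean value inequality on the segment from `1` to `z`,
  where `Re (1+z) ≥ 1`), and `≤ C (1 + ‖1+z‖^(2p-1))` always.
* `dd_coef`: the `n`-th coefficient of `z dd' z` is `n a_n`.  Apply `coef_le` (`x = 1`) to `f z = z dd' z`,
  `q = 1 + p`, i.e. bound `∫_{|y| ≤ πn} ‖dd'(e^{-w/n})‖ dy ≤ C n^(1+p)`; it is easier to redo `coef_le` with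
  the integral: for `|y| ≤ πn/2`: `‖1-z‖ ≥ c ‖w‖/n` and `‖dd'‖ ≤ C ‖1-z‖^(-2p) ≤ C' ‖1-z‖^(-(1+p))
  ≤ C'' n^(1+p) ‖w‖^(-(1+p))`, integrable; for `πn/2 ≤ |y| ≤ πn`: `‖1-z‖ ≥ c` and
  `‖dd'‖ ≤ C (1 + ‖1+z‖^(2p-1)) ≤ C (1 + (π - |y|/n)^(2p-1))` (up to constants; `‖1+z‖ ≥ ‖z‖ |sin (y/n)|`
  `≥ c (π - |y|/n)`), whose integral is `≤ C n ≤ C n^(1+p)` (`2p - 1 > -1`).
  Result `n² |a_n| ≤ C n^(1+p)`.
* `bs_coef`: `coef (bs p) n = 4^p ∏_{j<n} (2p+j)/(j+1) + coef (dd p) n` (`MQV.exm_coef`), `exa_lim`,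
  `dd_coef` and `n^(1-2p) n^(p-1) = n^(-p) → 0`.
-/

open MeasureTheory Metric Set Filter Topology

namespace MQK

theorem exa_lim {s : ℝ} (hs : 0 < s) :
    Tendsto (fun n : ℕ => (n : ℝ) ^ (1 - s) * ∏ j ∈ Finset.range n, (s + j) / ((j : ℝ) + 1)) atTop
      (𝓝 (1 / Real.Gamma s)) := by
  have hG := Real.GammaSeq_tendsto_Gamma s
  have hG0 : Real.Gamma s ≠ 0 := (Real.Gamma_pos_of_pos hs).ne'
  have h1 : Tendsto (fun n : ℕ => (n : ℝ) / (s + n)) atTop (𝓝 1) := by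
    have h2 : Tendsto (fun n : ℕ => s / ((n : ℝ) + s)) atTop (𝓝 0) :=
      Tendsto.div_atTop tendsto_const_nhds
        (tendsto_atTop_add_const_right _ _ tendsto_natCast_atTop_atTop)
    have h3 : Tendsto (fun n : ℕ => 1 - s / ((n : ℝ) + s)) atTop (𝓝 (1 - 0)) :=
      tendsto_const_nhds.sub h2
    rw [sub_zero] at h3
    refine h3.congr fun n => ?_
    have hn : (0 : ℝ) ≤ n := Nat.cast_nonneg n
    have hne : (n : ℝ) + s ≠ 0 := by positivity
    have hne' : s + (n : ℝ) ≠ 0 := by positivity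
    field_simp
    ring
  have h2 : Tendsto (fun n : ℕ => (n : ℝ) / (s + n) * (1 / Real.GammaSeq s n)) atTop
      (𝓝 (1 * (1 / Real.Gamma s))) := h1.mul (tendsto_const_nhds.div hG hG0)
  rw [one_mul] at h2
  refine h2.congr' ?_
  filter_upwards [eventually_ge_atTop 1] with n hn
  have hn0 : (0 : ℝ) < n := by exact_mod_cast hn
  have hfac : (0 : ℝ) < (n.factorial : ℝ) := by exact_mod_cast n.factorial_pos
  have hP : (∏ j ∈ Finset.range n, (s + j) / ((j : ℝ) + 1)) =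
      (∏ j ∈ Finset.range n, (s + j)) / n.factorial := by
    rw [Finset.prod_div_distrib, ← Finset.prod_range_add_one_eq_factorial]
    push_cast
    rfl
  have hQpos : 0 < ∏ j ∈ Finset.range n, (s + j) := Finset.prod_pos fun j _ => by positivity
  rw [hP]
  unfold Real.GammaSeq
  rw [Finset.prod_range_succ, Real.rpow_sub hn0, Real.rpow_one]
  have hpow : (0 : ℝ) < (n : ℝ) ^ s := Real.rpow_pos_of_pos hn0 s
  have hsn : (0 : ℝ) < s + n := by positivity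
  set Q : ℝ := ∏ j ∈ Finset.range n, (s + j) with hQ
  field_simp

/-- the difference `((1+z)/(1-z))^(2p) - 4^p (1-z)^(-2p)` -/
noncomputable def dd (p : ℝ) (z : ℂ) : ℂ :=
  bs p z - ((4 : ℝ) ^ p : ℝ) * Complex.exp (-(2 * p) * Complex.log (1 - z))

private theorem dk_re {z : ℂ} (hz : z ∈ ball (0 : ℂ) 1) : 0 < (1 + z).re ∧ 0 < (1 - z).re := by
  have hn : ‖z‖ < 1 := by rwa [mem_ball_zero_iff] at hz
  have hre := abs_lt.1 (lt_of_le_of_lt (Complex.abs_re_le_norm z) hn)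
  rw [Complex.add_re, Complex.sub_re, Complex.one_re]
  constructor <;> linarith [hre.1, hre.2]

private theorem dk_log {z : ℂ} (hz : z ∈ ball (0 : ℂ) 1) :
    MQV.lg z = Complex.log (1 + z) - Complex.log (1 - z) := by
  obtain ⟨h1, h2⟩ := dk_re hz
  have a1 : |(1 + z).arg| < Real.pi / 2 := Complex.abs_arg_lt_pi_div_two_iff.2 (Or.inl h1)
  have a2 : |(1 - z).arg| < Real.pi / 2 := Complex.abs_arg_lt_pi_div_two_iff.2 (Or.inl h2)
  have n1 : 1 + z ≠ 0 := Complex.slitPlane_ne_zero (Or.inl h1)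
  have n2 : 1 - z ≠ 0 := Complex.slitPlane_ne_zero (Or.inl h2)
  have hpi : (1 - z).arg ≠ Real.pi := by
    intro h
    rw [h, abs_of_pos Real.pi_pos] at a2
    linarith [Real.pi_pos]
  rw [abs_lt] at a1 a2
  unfold MQV.lg
  rw [div_eq_mul_inv, Complex.log_mul n1 (inv_ne_zero n2), Complex.log_inv _ hpi]
  · ring
  · rw [Complex.arg_inv, if_neg hpi]
    constructor <;> linarith [a1.1, a1.2, a2.1, a2.2]

private theorem dk_norm (c : ℝ) {u : ℂ} (hu : u ≠ 0) :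
    ‖Complex.exp (c * Complex.log u)‖ = ‖u‖ ^ c := by
  rw [Complex.norm_exp, Real.rpow_def_of_pos (norm_pos_iff.2 hu), Complex.re_ofReal_mul,
    Complex.log_re, mul_comm]

private theorem dk_deriv (p : ℝ) {z : ℂ} (hz : z ∈ ball (0 : ℂ) 1) :
    HasDerivAt (dd p) (2 * p / (1 - z) * Complex.exp (((-(2 * p) : ℝ) : ℂ) * Complex.log (1 - z)) *
      (2 * Complex.exp (((2 * p - 1 : ℝ) : ℂ) * Complex.log (1 + z)) - ((4 : ℝ) ^ p : ℝ))) z := by
  obtain ⟨h1, h2⟩ := dk_re hz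
  have n1 : 1 + z ≠ 0 := Complex.slitPlane_ne_zero (Or.inl h1)
  have n2 : 1 - z ≠ 0 := Complex.slitPlane_ne_zero (Or.inl h2)
  have e1 : HasDerivAt (bs p) (Complex.exp (2 * p * MQV.lg z) * (2 * p * (2 / (1 - z ^ 2)))) z :=
    ((MQV.hasDerivAt_lg hz).const_mul (2 * (p : ℂ))).cexp
  have e2 : HasDerivAt (fun z : ℂ => 1 - z) (-1) z := by
    simpa using (hasDerivAt_id z).const_sub 1
  have e3 := (((e2.clog (Or.inl h2)).const_mul (-(2 * p : ℂ))).cexp).const_mul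
    (((4 : ℝ) ^ p : ℝ) : ℂ)
  refine (e1.sub e3).congr_deriv ?_
  have f1 : Complex.exp (2 * p * MQV.lg z) = (1 + z) *
      Complex.exp (((2 * p - 1 : ℝ) : ℂ) * Complex.log (1 + z)) *
      Complex.exp (((-(2 * p) : ℝ) : ℂ) * Complex.log (1 - z)) := by
    have f2 : 2 * (p : ℂ) * (Complex.log (1 + z) - Complex.log (1 - z)) =
        Complex.log (1 + z) + ((2 * p - 1 : ℝ) : ℂ) * Complex.log (1 + z) +
        ((-(2 * p) : ℝ) : ℂ) * Complex.log (1 - z) := by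
      push_cast
      ring
    rw [dk_log hz, f2, Complex.exp_add, Complex.exp_add, Complex.exp_log n1]
  have f3 : -(2 * (p : ℂ)) * Complex.log (1 - z) =
      ((-(2 * p) : ℝ) : ℂ) * Complex.log (1 - z) := by
    push_cast
    ring
  have f4 : 1 - z ^ 2 = (1 - z) * (1 + z) := by ring
  rw [f1, f3, f4]
  generalize Complex.exp (((2 * p - 1 : ℝ) : ℂ) * Complex.log (1 + z)) = A
  generalize Complex.exp (((-(2 * p) : ℝ) : ℂ) * Complex.log (1 - z)) = B
  field_simp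

private theorem dk_mvt {p : ℝ} (hp : 0 < p) (hp1 : p < 1) {z : ℂ} (hz : 0 ≤ z.re) :
    ‖2 * Complex.exp (((2 * p - 1 : ℝ) : ℂ) * Complex.log (1 + z)) - ((4 : ℝ) ^ p : ℝ)‖ ≤
      2 * ‖1 - z‖ := by
  set g : ℂ → ℂ := fun u => Complex.exp (((2 * p - 1 : ℝ) : ℂ) * Complex.log u) with hg
  have hconv : Convex ℝ {u : ℂ | (1 : ℝ) ≤ u.re} := convex_halfSpace_re_ge 1
  have hd : ∀ u ∈ {u : ℂ | (1 : ℝ) ≤ u.re}, HasDerivWithinAt g
      (g u * (((2 * p - 1 : ℝ) : ℂ) * (1 / u))) {u : ℂ | (1 : ℝ) ≤ u.re} u := by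
    intro u hu
    have hu' : (1 : ℝ) ≤ u.re := hu
    have h1 : u ∈ Complex.slitPlane := Or.inl (by linarith)
    exact ((((hasDerivAt_id u).clog h1).const_mul _).cexp).hasDerivWithinAt
  have hb : ∀ u ∈ {u : ℂ | (1 : ℝ) ≤ u.re}, ‖g u * (((2 * p - 1 : ℝ) : ℂ) * (1 / u))‖ ≤ 1 := by
    intro u hu
    have hu' : (1 : ℝ) ≤ u.re := hu
    have h1 : 1 ≤ ‖u‖ := hu'.trans ((le_abs_self _).trans (Complex.abs_re_le_norm u))
    have h0 : u ≠ 0 := norm_pos_iff.1 (by linarith)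
    have h2 : |2 * p - 1| ≤ 1 := by
      rw [abs_le]
      constructor <;> linarith
    rw [norm_mul, norm_mul, Complex.norm_real, Real.norm_eq_abs, norm_div, norm_one, hg, dk_norm _ h0]
    have h3 : ‖u‖ ^ (2 * p - 1) ≤ ‖u‖ := by
      calc ‖u‖ ^ (2 * p - 1) ≤ ‖u‖ ^ (1 : ℝ) := Real.rpow_le_rpow_of_exponent_le h1 (by linarith)
        _ = ‖u‖ := Real.rpow_one _
    have h4 : 0 < ‖u‖ := by linarith
    calc ‖u‖ ^ (2 * p - 1) * (|2 * p - 1| * (1 / ‖u‖))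
        ≤ ‖u‖ * (1 * (1 / ‖u‖)) := by gcongr
      _ = 1 := by field_simp
  have hm := hconv.norm_image_sub_le_of_norm_hasDerivWithin_le hd hb
    (x := 2) (y := 1 + z) (by simp) (by simpa using hz)
  have h4 : g 2 = (((4 : ℝ) ^ p / 2 : ℝ) : ℂ) := by
    simp only [hg]
    have h5 : (2 : ℂ) = ((2 : ℝ) : ℂ) := by norm_num
    rw [h5, ← Complex.ofReal_log (by norm_num), ← Complex.ofReal_mul, ← Complex.ofReal_exp]
    congr 1
    have h6 : (4 : ℝ) ^ p = 2 ^ (2 * p) := by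
      rw [Real.rpow_mul (by norm_num)]
      norm_num
    rw [h6, mul_comm (2 * p - 1), ← Real.rpow_def_of_pos (by norm_num), Real.rpow_sub_one (by norm_num)]
  have h7 : 2 * Complex.exp (((2 * p - 1 : ℝ) : ℂ) * Complex.log (1 + z)) - ((4 : ℝ) ^ p : ℝ) =
      2 * (g (1 + z) - g 2) := by
    rw [h4]
    simp only [hg]
    push_cast
    ring
  rw [h7, norm_mul]
  have h8 : ‖(1 + z - 2 : ℂ)‖ = ‖1 - z‖ := by
    rw [← norm_neg]
    congr 1
    ring
  rw [h8, one_mul] at hm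
  have h9 : ‖(2 : ℂ)‖ = 2 := by norm_num
  rw [h9]
  linarith

private theorem dk_near {p : ℝ} (hp : 0 < p) (hp1 : p < 1) {z : ℂ} (hz : z ∈ ball (0 : ℂ) 1)
    (hr : 0 ≤ z.re) : ‖deriv (dd p) z‖ ≤ 8 * ‖1 - z‖ ^ (-(1 + p)) := by
  obtain ⟨h1, h2⟩ := dk_re hz
  have n2 : 1 - z ≠ 0 := Complex.slitPlane_ne_zero (Or.inl h2)
  have hpos : 0 < ‖1 - z‖ := norm_pos_iff.2 n2
  have hle : ‖1 - z‖ ≤ 2 := by
    have h3 : ‖z‖ < 1 := by rwa [mem_ball_zero_iff] at hz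
    have h4 := norm_sub_le (1 : ℂ) z
    rw [norm_one] at h4
    linarith
  rw [(dk_deriv p hz).deriv, norm_mul, norm_mul, dk_norm _ n2, norm_div]
  have h5 := dk_mvt hp hp1 hr
  have h6 : ‖(2 * p : ℂ)‖ = 2 * p := by
    have : (2 * p : ℂ) = ((2 * p : ℝ) : ℂ) := by push_cast; ring
    rw [this, Complex.norm_real, Real.norm_of_nonneg (by positivity)]
  rw [h6]
  have h7 : ‖1 - z‖ ^ (-(2 * p)) = ‖1 - z‖ ^ (1 - p) * ‖1 - z‖ ^ (-(1 + p)) := by
    rw [← Real.rpow_add hpos]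
    congr 1
    ring
  have h8 : ‖1 - z‖ ^ (1 - p) ≤ 2 := by
    calc ‖1 - z‖ ^ (1 - p) ≤ 2 ^ (1 - p) :=
          Real.rpow_le_rpow hpos.le hle (by linarith)
      _ ≤ 2 ^ (1 : ℝ) := Real.rpow_le_rpow_of_exponent_le (by norm_num) (by linarith)
      _ = 2 := Real.rpow_one _
  have h9 : 0 ≤ ‖1 - z‖ ^ (-(1 + p)) := Real.rpow_nonneg hpos.le _
  have h10 : 0 ≤ ‖1 - z‖ ^ (-(2 * p)) := Real.rpow_nonneg hpos.le _
  calc 2 * p / ‖1 - z‖ * ‖1 - z‖ ^ (-(2 * p)) *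
        ‖2 * Complex.exp (((2 * p - 1 : ℝ) : ℂ) * Complex.log (1 + z)) - ((4 : ℝ) ^ p : ℝ)‖
      ≤ 2 * p / ‖1 - z‖ * ‖1 - z‖ ^ (-(2 * p)) * (2 * ‖1 - z‖) :=
        mul_le_mul_of_nonneg_left h5 (by positivity)
    _ = 4 * p * ‖1 - z‖ ^ (-(2 * p)) := by
        field_simp
        ring
    _ ≤ 4 * 1 * ‖1 - z‖ ^ (-(2 * p)) := by gcongr
    _ = 4 * (‖1 - z‖ ^ (1 - p) * ‖1 - z‖ ^ (-(1 + p))) := by rw [h7]; ring
    _ ≤ 4 * (2 * ‖1 - z‖ ^ (-(1 + p))) := by gcongr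
    _ = 8 * ‖1 - z‖ ^ (-(1 + p)) := by ring

private theorem dk_far {p : ℝ} (hp : 0 < p) (hp1 : p < 1) {z : ℂ} (hz : z ∈ ball (0 : ℂ) 1)
    (hr : z.re < 0) {s : ℝ} (hs : 0 < s) (hs1 : s ≤ ‖1 + z‖) :
    ‖deriv (dd p) z‖ ≤ 16 + 4 * s ^ (2 * p - 1) := by
  obtain ⟨h1, h2⟩ := dk_re hz
  have n1 : 1 + z ≠ 0 := Complex.slitPlane_ne_zero (Or.inl h1)
  have n2 : 1 - z ≠ 0 := Complex.slitPlane_ne_zero (Or.inl h2)
  have hge : 1 ≤ ‖1 - z‖ := by
    have h3 : (1 : ℝ) ≤ (1 - z).re := by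
      rw [Complex.sub_re, Complex.one_re]
      linarith
    exact h3.trans ((le_abs_self _).trans (Complex.abs_re_le_norm _))
  have hpos : 0 < ‖1 - z‖ := by linarith
  have hle : ‖1 + z‖ ≤ 2 := by
    have h3 : ‖z‖ < 1 := by rwa [mem_ball_zero_iff] at hz
    have h4 := norm_add_le (1 : ℂ) z
    rw [norm_one] at h4
    linarith
  rw [(dk_deriv p hz).deriv, norm_mul, norm_mul, dk_norm _ n2, norm_div]
  have h6 : ‖(2 * p : ℂ)‖ = 2 * p := by
    have : (2 * p : ℂ) = ((2 * p : ℝ) : ℂ) := by push_cast; ring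
    rw [this, Complex.norm_real, Real.norm_of_nonneg (by positivity)]
  rw [h6]
  have h7 : ‖2 * Complex.exp (((2 * p - 1 : ℝ) : ℂ) * Complex.log (1 + z)) - ((4 : ℝ) ^ p : ℝ)‖ ≤
      2 * ‖1 + z‖ ^ (2 * p - 1) + 4 := by
    refine (norm_sub_le _ _).trans ?_
    rw [norm_mul, dk_norm _ n1, Complex.norm_real, Real.norm_of_nonneg (by positivity)]
    have h9 : ‖(2 : ℂ)‖ = 2 := by norm_num
    rw [h9]
    have h10 : (4 : ℝ) ^ p ≤ 4 := by
      calc (4 : ℝ) ^ p ≤ 4 ^ (1 : ℝ) :=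
            Real.rpow_le_rpow_of_exponent_le (by norm_num) (by linarith)
        _ = 4 := Real.rpow_one _
    linarith
  have h8 : ‖1 - z‖ ^ (-(2 * p)) ≤ 1 :=
    Real.rpow_le_one_of_one_le_of_nonpos hge (by linarith)
  have h9 : 2 * p / ‖1 - z‖ ≤ 2 := by
    rw [div_le_iff₀ hpos]
    nlinarith
  have h10 : ‖1 + z‖ ^ (2 * p - 1) ≤ 2 + s ^ (2 * p - 1) := by
    have h11 : 0 ≤ s ^ (2 * p - 1) := Real.rpow_nonneg hs.le _
    rcases le_total 0 (2 * p - 1) with hc | hc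
    · have h12 : ‖1 + z‖ ^ (2 * p - 1) ≤ 2 := by
        calc ‖1 + z‖ ^ (2 * p - 1) ≤ 2 ^ (2 * p - 1) :=
              Real.rpow_le_rpow (norm_nonneg _) hle hc
          _ ≤ 2 ^ (1 : ℝ) := Real.rpow_le_rpow_of_exponent_le (by norm_num) (by linarith)
          _ = 2 := Real.rpow_one _
      linarith
    · have h12 : ‖1 + z‖ ^ (2 * p - 1) ≤ s ^ (2 * p - 1) :=
        Real.rpow_le_rpow_of_nonpos hs hs1 hc
      linarith
  have h13 : 0 ≤ ‖1 - z‖ ^ (-(2 * p)) := Real.rpow_nonneg hpos.le _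
  have h14 : 0 ≤ ‖1 + z‖ ^ (2 * p - 1) := Real.rpow_nonneg (norm_nonneg _) _
  calc 2 * p / ‖1 - z‖ * ‖1 - z‖ ^ (-(2 * p)) *
        ‖2 * Complex.exp (((2 * p - 1 : ℝ) : ℂ) * Complex.log (1 + z)) - ((4 : ℝ) ^ p : ℝ)‖
      ≤ 2 * 1 * (2 * ‖1 + z‖ ^ (2 * p - 1) + 4) := by
        refine mul_le_mul ?_ h7 (norm_nonneg _) (by norm_num)
        exact mul_le_mul h9 h8 h13 (by norm_num)
    _ ≤ 2 * 1 * (2 * (2 + s ^ (2 * p - 1)) + 4) := by gcongr
    _ = 16 + 4 * s ^ (2 * p - 1) := by ring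

private theorem dk_one_add {n : ℕ} (hn : 1 ≤ n) {y : ℝ} (hy : |y| ≤ Real.pi * n) :
    1 - |y| / (Real.pi * n) ≤ ‖1 + Complex.exp (-(1 + y * Complex.I) / n)‖ := by
  have hn0 : (0 : ℝ) < n := by exact_mod_cast hn
  have hn1 : (1 : ℝ) ≤ n := by exact_mod_cast hn
  set t : ℝ := |y| / n with ht
  have ht0 : 0 ≤ t := by positivity
  have ht1 : t ≤ Real.pi := by
    rw [ht, div_le_iff₀ hn0]
    exact hy
  set E : ℂ := Complex.exp (-(1 + y * Complex.I) / n) with hE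
  set ρ : ℝ := Real.exp (-(1 / n)) with hρ
  have hρ0 : 0 < ρ := Real.exp_pos _
  have hρ1 : 1 / 4 ≤ ρ := by
    have h1 : -1 ≤ -(1 / (n : ℝ)) := by
      have : 1 / (n : ℝ) ≤ 1 := by
        rw [div_le_one hn0]
        exact hn1
      linarith
    have h2 : Real.exp (-1) ≤ ρ := Real.exp_le_exp.2 h1
    have h3 := Real.exp_neg_one_gt_d9
    linarith
  have e0 : -(1 + y * Complex.I) / (n : ℂ) = ((1 / (n : ℝ) : ℝ) : ℂ) * (-(1 + y * Complex.I)) := by
    push_cast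
    ring
  have e1 : (-(1 + y * Complex.I) / (n : ℂ)).re = -(1 / n) := by
    rw [e0, Complex.re_ofReal_mul]
    simp
  have e2 : (-(1 + y * Complex.I) / (n : ℂ)).im = -(y / n) := by
    rw [e0, Complex.im_ofReal_mul]
    simp
    ring
  have e3 : E.re = ρ * Real.cos (y / n) := by
    rw [hE, Complex.exp_re, e1, e2, Real.cos_neg]
  have e4 : E.im = -(ρ * Real.sin (y / n)) := by
    rw [hE, Complex.exp_im, e1, e2, Real.sin_neg]
    ring
  have e5 := Real.sin_sq_add_cos_sq (y / n)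
  have e6 : Real.cos (y / n) = 2 * Real.cos (t / 2) ^ 2 - 1 := by
    have h1 : Real.cos (y / n) = Real.cos t := by
      rw [← Real.cos_abs (y / n), abs_div, abs_of_pos hn0]
    rw [h1, ← Real.cos_two_mul]
    congr 1
    ring
  have n1 : ‖1 + E‖ ^ 2 = (1 - ρ) ^ 2 + 4 * ρ * Real.cos (t / 2) ^ 2 := by
    rw [Complex.sq_norm, Complex.normSq_apply, Complex.add_re, Complex.add_im, Complex.one_re,
      Complex.one_im, e3, e4]
    have : (1 + ρ * Real.cos (y / n)) * (1 + ρ * Real.cos (y / n)) +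
        (0 + -(ρ * Real.sin (y / n))) * (0 + -(ρ * Real.sin (y / n))) =
        1 + 2 * ρ * Real.cos (y / n) +
          ρ ^ 2 * (Real.sin (y / n) ^ 2 + Real.cos (y / n) ^ 2) := by
      ring
    rw [this, e5, e6]
    ring
  have h1 : 1 - 2 / Real.pi * (t / 2) ≤ Real.cos (t / 2) :=
    Real.one_sub_mul_le_cos (by positivity) (by linarith)
  have h2 : 1 - |y| / (Real.pi * n) = 1 - 2 / Real.pi * (t / 2) := by
    rw [ht]
    have := Real.pi_pos
    field_simp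
  have h3 : 0 ≤ 1 - 2 / Real.pi * (t / 2) := by
    have h4 : 2 / Real.pi * (t / 2) = t / Real.pi := by ring
    rw [h4, sub_nonneg, div_le_one Real.pi_pos]
    exact ht1
  rw [h2]
  refine abs_le_of_sq_le_sq' ?_ (norm_nonneg _) |>.2
  rw [n1]
  have h5 : (1 - 2 / Real.pi * (t / 2)) ^ 2 ≤ Real.cos (t / 2) ^ 2 := pow_le_pow_left₀ h3 h1 2
  nlinarith [sq_nonneg (1 - ρ), sq_nonneg (Real.cos (t / 2))]

/-- the bound on the line `Re w = 1` -/
private theorem dk_line {p : ℝ} (hp : 0 < p) (hp1 : p < 1) {n : ℕ} (hn : 1 ≤ n) {y : ℝ}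
    (hy : |y| < Real.pi * n) :
    ‖MQV.gs (deriv (dd p)) n ((1 : ℝ) + y * Complex.I)‖ ≤
      800 * (n : ℝ) ^ (1 + p) * (1 + ‖y‖) ^ (-(1 + p)) + 16 +
        4 * (((Real.pi * n - y) ^ (2 * p - 1) + (Real.pi * n + y) ^ (2 * p - 1)) /
          (Real.pi * n) ^ (2 * p - 1)) := by
  have hn0 : (0 : ℝ) < n := by exact_mod_cast hn
  have hn1 : (1 : ℝ) ≤ n := by exact_mod_cast hn
  have hy' := abs_lt.1 hy
  have hN : 0 < Real.pi * n := mul_pos Real.pi_pos hn0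
  have hA : 0 < Real.pi * n - y := by linarith [hy'.2]
  have hB : 0 < Real.pi * n + y := by linarith [hy'.1]
  have hA' : 0 ≤ (Real.pi * n - y) ^ (2 * p - 1) := Real.rpow_nonneg hA.le _
  have hB' : 0 ≤ (Real.pi * n + y) ^ (2 * p - 1) := Real.rpow_nonneg hB.le _
  have hN' : 0 < (Real.pi * n) ^ (2 * p - 1) := Real.rpow_pos_of_pos hN _
  have hre : ((1 : ℂ) + y * Complex.I).re = 1 := by simp
  have him : ((1 : ℂ) + y * Complex.I).im = y := by simp
  have hm : Complex.exp (-(1 + y * Complex.I) / n) ∈ ball (0 : ℂ) 1 :=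
    MQV.exp_mem hn (by rw [hre]; exact one_pos)
  have hgs : MQV.gs (deriv (dd p)) n ((1 : ℝ) + y * Complex.I) =
      deriv (dd p) (Complex.exp (-(1 + y * Complex.I) / n)) := by
    unfold MQV.gs
    norm_num
  rw [hgs]
  rcases le_or_gt 0 (Complex.exp (-(1 + y * Complex.I) / n)).re with hr | hr
  · have h1 := dk_near hp hp1 hm hr
    have hwl := wd_line (w := 1 + y * Complex.I) hn (by rw [hre]; exact one_pos)
      (by rw [hre]; linarith) (by rw [him]; exact hy.le)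
    set E : ℂ := Complex.exp (-(1 + y * Complex.I) / n) with hE
    have h2 : 1 ≤ ‖1 + E‖ := by
      have h3 : (1 : ℝ) ≤ (1 + E).re := by
        rw [Complex.add_re, Complex.one_re]
        linarith
      exact h3.trans ((le_abs_self _).trans (Complex.abs_re_le_norm _))
    have h3 : ‖Wd E‖ ≤ ‖1 - E‖ := by
      unfold Wd
      rw [norm_div]
      exact div_le_self (norm_nonneg _) h2
    have h4 : (1 + ‖y‖) / 2 ≤ ‖(1 : ℂ) + y * Complex.I‖ := by
      have h5 := Complex.abs_re_le_norm ((1 : ℂ) + y * Complex.I)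
      have h6 := Complex.abs_im_le_norm ((1 : ℂ) + y * Complex.I)
      rw [hre, abs_one] at h5
      rw [him] at h6
      rw [Real.norm_eq_abs]
      linarith
    have h5 : (1 + ‖y‖) / (10 * n) ≤ ‖1 - E‖ := by
      rw [div_le_iff₀ (by positivity)]
      nlinarith [norm_nonneg (Wd E)]
    have h6 : 0 < (1 + ‖y‖) / (10 * n) := by positivity
    have h7 : ‖1 - E‖ ^ (-(1 + p)) ≤ ((1 + ‖y‖) / (10 * n)) ^ (-(1 + p)) :=
      Real.rpow_le_rpow_of_nonpos h6 h5 (by linarith)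
    have h8 : ((1 + ‖y‖) / (10 * n)) ^ (-(1 + p)) =
        (10 : ℝ) ^ (1 + p) * (n : ℝ) ^ (1 + p) * (1 + ‖y‖) ^ (-(1 + p)) := by
      rw [Real.div_rpow (by positivity) (by positivity), Real.rpow_neg (by positivity : (0 : ℝ) ≤ 10 * n),
        div_inv_eq_mul, Real.mul_rpow (by norm_num) hn0.le]
      ring
    have h9 : (10 : ℝ) ^ (1 + p) ≤ 100 := by
      calc (10 : ℝ) ^ (1 + p) ≤ 10 ^ (2 : ℝ) :=
            Real.rpow_le_rpow_of_exponent_le (by norm_num) (by linarith)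
        _ = 100 := by norm_num
    have h10 : 0 ≤ (n : ℝ) ^ (1 + p) * (1 + ‖y‖) ^ (-(1 + p)) := by positivity
    have h11 : 0 ≤ 4 * (((Real.pi * n - y) ^ (2 * p - 1) + (Real.pi * n + y) ^ (2 * p - 1)) /
          (Real.pi * n) ^ (2 * p - 1)) := by positivity
    calc ‖deriv (dd p) E‖ ≤ 8 * ‖1 - E‖ ^ (-(1 + p)) := h1
      _ ≤ 8 * ((10 : ℝ) ^ (1 + p) * (n : ℝ) ^ (1 + p) * (1 + ‖y‖) ^ (-(1 + p))) := by
          rw [← h8]
          linarith
      _ = 8 * (10 : ℝ) ^ (1 + p) * ((n : ℝ) ^ (1 + p) * (1 + ‖y‖) ^ (-(1 + p))) := by ring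
      _ ≤ 8 * 100 * ((n : ℝ) ^ (1 + p) * (1 + ‖y‖) ^ (-(1 + p))) := by gcongr
      _ ≤ _ := by linarith
  · have hs : 0 < 1 - |y| / (Real.pi * n) := by
      rw [sub_pos, div_lt_one hN]
      exact hy
    have h1 := dk_far hp hp1 hm hr hs (dk_one_add hn hy.le)
    have h2 : (1 - |y| / (Real.pi * n)) ^ (2 * p - 1) ≤
        ((Real.pi * n - y) ^ (2 * p - 1) + (Real.pi * n + y) ^ (2 * p - 1)) /
          (Real.pi * n) ^ (2 * p - 1) := by
      have h3 : 1 - |y| / (Real.pi * n) = (Real.pi * n - |y|) / (Real.pi * n) := by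
        field_simp
      rw [h3, Real.div_rpow (by linarith) hN.le]
      refine div_le_div_of_nonneg_right ?_ hN'.le
      rcases abs_cases y with ⟨h4, _⟩ | ⟨h4, _⟩
      · rw [h4]
        linarith
      · rw [h4, sub_neg_eq_add]
        linarith
    have h3 : 0 ≤ 800 * (n : ℝ) ^ (1 + p) * (1 + ‖y‖) ^ (-(1 + p)) := by positivity
    linarith

private theorem dk_int {r N : ℝ} (hr : -1 < r) (hN : 0 < N) :
    IntervalIntegrable (fun y : ℝ => ((N - y) ^ r + (N + y) ^ r) / N ^ r) volume (-N) N ∧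
      ∫ y in (-N)..N, ((N - y) ^ r + (N + y) ^ r) / N ^ r = 2 * (2 ^ (r + 1) / (r + 1)) * N := by
  have i1 : IntervalIntegrable (fun y : ℝ => (N - y) ^ r) volume (-N) N := by
    have h := (intervalIntegral.intervalIntegrable_rpow' (a := 2 * N) (b := 0) hr).comp_sub_left N
    have e1 : N - 2 * N = -N := by ring
    rw [e1, sub_zero] at h
    exact h
  have i2 : IntervalIntegrable (fun y : ℝ => (N + y) ^ r) volume (-N) N := by
    have h := (intervalIntegral.intervalIntegrable_rpow' (a := 0) (b := 2 * N) hr).comp_add_left N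
    have e1 : 2 * N - N = N := by ring
    rw [e1, zero_sub] at h
    exact h
  have j1 : ∫ y in (-N)..N, (N - y) ^ r = (2 * N) ^ (r + 1) / (r + 1) := by
    rw [intervalIntegral.integral_comp_sub_left (fun u : ℝ => u ^ r) N]
    have e1 : N - N = 0 := by ring
    have e2 : N - -N = 2 * N := by ring
    rw [e1, e2, integral_rpow (Or.inl hr), Real.zero_rpow (by linarith), sub_zero]
  have j2 : ∫ y in (-N)..N, (N + y) ^ r = (2 * N) ^ (r + 1) / (r + 1) := by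
    rw [intervalIntegral.integral_comp_add_left (fun u : ℝ => u ^ r) N]
    have e1 : N + -N = 0 := by ring
    have e2 : N + N = 2 * N := by ring
    rw [e1, e2, integral_rpow (Or.inl hr), Real.zero_rpow (by linarith), sub_zero]
  refine ⟨(i1.add i2).div_const _, ?_⟩
  rw [intervalIntegral.integral_div, intervalIntegral.integral_add i1 i2, j1, j2,
    Real.mul_rpow (by norm_num) hN.le, Real.rpow_add_one hN.ne']
  have h1 : 0 < N ^ r := Real.rpow_pos_of_pos hN _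
  have h2 : r + 1 ≠ 0 := by linarith
  field_simp
  ring

private theorem dk_dcoef (p : ℝ) (m : ℕ) :
    MPV.coef (deriv (dd p)) m = ((m : ℂ) + 1) * MPV.coef (dd p) (m + 1) := by
  unfold MPV.coef
  rw [iteratedDeriv_succ', Nat.factorial_succ]
  have h1 : ((m : ℂ) + 1) ≠ 0 := by exact_mod_cast Nat.succ_ne_zero m
  have h2 : (m.factorial : ℂ) ≠ 0 := by exact_mod_cast m.factorial_ne_zero
  push_cast
  field_simp

private theorem dk_diff (p : ℝ) : DifferentiableOn ℂ (deriv (dd p)) (ball 0 1) := by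
  have h1 : DifferentiableOn ℂ (dd p) (ball 0 1) := fun z hz =>
    (dk_deriv p hz).differentiableAt.differentiableWithinAt
  exact h1.deriv isOpen_ball

theorem dd_coef {p : ℝ} (hp : 0 < p) (hp1 : p < 1) : ∃ C : ℝ, 0 < C ∧ ∀ n : ℕ, 1 ≤ n →
    ‖MPV.coef (dd p) n‖ ≤ C * (n : ℝ) ^ (p - 1) := by
  have hpi := Real.pi_pos
  set J : ℝ → ℝ := fun y => (1 + ‖y‖) ^ (-(1 + p)) with hJ
  have hJi : Integrable J := integrable_one_add_norm (by rw [Module.finrank_self]; push_cast; linarith)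
  have hJ0 : ∀ y, 0 ≤ J y := fun y => by positivity
  have hI0 : 0 ≤ ∫ y, J y := integral_nonneg hJ0
  set Q : ℝ := 2 * (2 ^ (2 * p) / (2 * p)) with hQ
  have hQ0 : 0 ≤ Q := by positivity
  set K : ℝ := Real.exp 1 * (800 * (∫ y, J y) + 32 * Real.pi + 4 * (Q * Real.pi)) with hK
  have hK0 : 0 ≤ K := by positivity
  have key : ∀ n : ℕ, 1 ≤ n → ‖MPV.coef (deriv (dd p)) n‖ ≤ K * (n : ℝ) ^ p := by
    intro n hn
    have hn0 : (0 : ℝ) < n := by exact_mod_cast hn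
    have hn1 : (1 : ℝ) ≤ n := by exact_mod_cast hn
    have hN : 0 < Real.pi * n := mul_pos hpi hn0
    have hr : -1 < 2 * p - 1 := by linarith
    obtain ⟨q1, q2⟩ := dk_int hr hN
    have hcl := MQV.cof_line (dk_diff p) hn (x := 1) one_pos
    have g1 : IntervalIntegrable (fun y : ℝ => 800 * (n : ℝ) ^ (1 + p) * J y) volume
        (-(Real.pi * n)) (Real.pi * n) := (hJi.const_mul _).intervalIntegrable
    have g2 : IntervalIntegrable (fun _ : ℝ => (16 : ℝ)) volume (-(Real.pi * n)) (Real.pi * n) :=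
      intervalIntegrable_const
    have g3 := q1.const_mul 4
    have g4 := ((g1.add g2).add g3).const_mul (Real.exp 1)
    have hle : ‖∫ y in (-(Real.pi * n))..(Real.pi * n),
        MQV.gs (deriv (dd p)) n ((1 : ℝ) + y * Complex.I) * Complex.exp ((1 : ℝ) + y * Complex.I)‖ ≤
        ∫ y in (-(Real.pi * n))..(Real.pi * n), Real.exp 1 *
          (800 * (n : ℝ) ^ (1 + p) * J y + 16 +
          4 * (((Real.pi * n - y) ^ (2 * p - 1) + (Real.pi * n + y) ^ (2 * p - 1)) /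
            (Real.pi * n) ^ (2 * p - 1))) := by
      refine intervalIntegral.norm_integral_le_of_norm_le (by linarith) ?_ g4
      have hae : ∀ᵐ y : ℝ, y ≠ Real.pi * n := by
        rw [ae_iff]
        simp
      filter_upwards [hae] with y hy hy2
      have hyl : |y| < Real.pi * n := by
        rw [abs_lt]
        exact ⟨hy2.1, lt_of_le_of_ne hy2.2 hy⟩
      have h1 := dk_line hp hp1 hn hyl
      rw [norm_mul, mul_comm, Complex.norm_exp]
      have h2 : (((1 : ℝ) : ℂ) + y * Complex.I).re = 1 := by simp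
      rw [h2]
      exact mul_le_mul_of_nonneg_left h1 (Real.exp_pos _).le
    rw [hcl, intervalIntegral.integral_const_mul, intervalIntegral.integral_add (g1.add g2) g3,
      intervalIntegral.integral_add g1 g2, intervalIntegral.integral_const_mul,
      intervalIntegral.integral_const_mul, q2, intervalIntegral.integral_const] at hle
    have h3 : ∫ y in (-(Real.pi * n))..(Real.pi * n), J y ≤ ∫ y, J y := by
      rw [intervalIntegral.integral_of_le (by linarith)]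
      exact setIntegral_le_integral hJi (Eventually.of_forall hJ0)
    have h4 : ‖(2 * Real.pi * n * MPV.coef (deriv (dd p)) n : ℂ)‖ =
        2 * Real.pi * n * ‖MPV.coef (deriv (dd p)) n‖ := by
      have : (2 * Real.pi * n * MPV.coef (deriv (dd p)) n : ℂ) =
          ((2 * Real.pi * n : ℝ) : ℂ) * MPV.coef (deriv (dd p)) n := by push_cast; ring
      rw [this, norm_mul, Complex.norm_real, Real.norm_of_nonneg (by positivity)]
    rw [h4] at hle
    have e1 : 2 * p - 1 + 1 = 2 * p := by ring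
    rw [e1, ← hQ, smul_eq_mul] at hle
    have h5 : (n : ℝ) ≤ (n : ℝ) ^ (1 + p) := by
      calc (n : ℝ) = (n : ℝ) ^ (1 : ℝ) := (Real.rpow_one _).symm
        _ ≤ (n : ℝ) ^ (1 + p) := Real.rpow_le_rpow_of_exponent_le hn1 (by linarith)
    have h6 : (n : ℝ) ^ (1 + p) = (n : ℝ) * (n : ℝ) ^ p := by
      rw [Real.rpow_add hn0, Real.rpow_one]
    have hnp : 0 ≤ (n : ℝ) ^ (1 + p) := by positivity
    have h7 : 2 * Real.pi * n * ‖MPV.coef (deriv (dd p)) n‖ ≤ K * (n : ℝ) ^ (1 + p) := by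
      refine hle.trans ?_
      rw [hK, mul_assoc (Real.exp 1)]
      refine mul_le_mul_of_nonneg_left ?_ (Real.exp_pos _).le
      have h8 : 800 * (n : ℝ) ^ (1 + p) * (∫ y in (-(Real.pi * n))..(Real.pi * n), J y) ≤
          800 * (n : ℝ) ^ (1 + p) * ∫ y, J y := mul_le_mul_of_nonneg_left h3 (by positivity)
      have h9 : (32 * Real.pi + 4 * (Q * Real.pi)) * (n : ℝ) ≤
          (32 * Real.pi + 4 * (Q * Real.pi)) * (n : ℝ) ^ (1 + p) :=
        mul_le_mul_of_nonneg_left h5 (by positivity)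
      nlinarith
    have h8 : ‖MPV.coef (deriv (dd p)) n‖ * n ≤ K * (n : ℝ) ^ p * n := by
      have h9 : ‖MPV.coef (deriv (dd p)) n‖ * n ≤
          2 * Real.pi * n * ‖MPV.coef (deriv (dd p)) n‖ := by
        have h10 : 0 ≤ (n : ℝ) * ‖MPV.coef (deriv (dd p)) n‖ := by positivity
        have h11 := Real.pi_gt_three
        nlinarith
      rw [h6] at h7
      linarith
    exact le_of_mul_le_mul_right h8 hn0
  refine ⟨K + ‖MPV.coef (dd p) 1‖ + 1, by positivity, fun n hn => ?_⟩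
  rcases Nat.eq_or_lt_of_le hn with h1 | h1
  · rw [← h1]
    simp only [Nat.cast_one, Real.one_rpow, mul_one]
    linarith [norm_nonneg (MPV.coef (dd p) 1)]
  · obtain ⟨m, rfl⟩ : ∃ m, n = m + 1 := ⟨n - 1, by omega⟩
    have hm : 1 ≤ m := by omega
    have hm0 : (0 : ℝ) < m := by exact_mod_cast hm
    have hk := key m hm
    rw [dk_dcoef p m, norm_mul] at hk
    have h2 : ‖((m : ℂ) + 1)‖ = (m : ℝ) + 1 := by
      have : ((m : ℂ) + 1) = (((m : ℝ) + 1 : ℝ) : ℂ) := by push_cast; ring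
      rw [this, Complex.norm_real, Real.norm_of_nonneg (by positivity)]
    rw [h2] at hk
    push_cast
    have h3 : ((m : ℝ) + 1) ^ (p - 1) = ((m : ℝ) + 1) ^ p / ((m : ℝ) + 1) :=
      Real.rpow_sub_one (by positivity) _
    have h4 : (m : ℝ) ^ p ≤ ((m : ℝ) + 1) ^ p :=
      Real.rpow_le_rpow hm0.le (by linarith) hp.le
    have h5 : ‖MPV.coef (dd p) (m + 1)‖ ≤ K * ((m : ℝ) + 1) ^ (p - 1) := by
      rw [h3, ← mul_div_assoc, le_div_iff₀ (by positivity)]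
      calc ‖MPV.coef (dd p) (m + 1)‖ * ((m : ℝ) + 1) = ((m : ℝ) + 1) * ‖MPV.coef (dd p) (m + 1)‖ := by
            ring
        _ ≤ K * (m : ℝ) ^ p := hk
        _ ≤ K * ((m : ℝ) + 1) ^ p := mul_le_mul_of_nonneg_left h4 hK0
    refine h5.trans (mul_le_mul_of_nonneg_right ?_ (by positivity))
    linarith [norm_nonneg (MPV.coef (dd p) 1)]

theorem bs_coef {p : ℝ} (hp : 0 < p) (hp1 : p < 1) :
    Tendsto (fun n : ℕ => (((n : ℝ) ^ (1 - 2 * p) : ℝ) : ℂ) * MPV.coef (bs p) n) atTop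
      (𝓝 (((4 : ℝ) ^ p / Real.Gamma (2 * p) : ℝ) : ℂ)) := by
  obtain ⟨C, hC, hdd⟩ := dd_coef hp hp1
  set E : ℂ → ℂ := fun z => Complex.exp (-(2 * p) * Complex.log (1 - z)) with hE
  have hEd : DifferentiableOn ℂ E (ball 0 1) := (MQV.exm_mv hp).diff
  have hba : AnalyticAt ℂ (bs p) 0 :=
    (bs_diff p).analyticAt (isOpen_ball.mem_nhds (mem_ball_self one_pos))
  have hEa : AnalyticAt ℂ E 0 :=
    hEd.analyticAt (isOpen_ball.mem_nhds (mem_ball_self one_pos))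
  have hcoef : ∀ n : ℕ, MPV.coef (bs p) n =
      (((4 : ℝ) ^ p : ℝ) : ℂ) * MPV.coef E n + MPV.coef (dd p) n := by
    intro n
    have h1 : dd p = bs p - fun z => (((4 : ℝ) ^ p : ℝ) : ℂ) * E z := by
      funext z
      rfl
    have h2 : iteratedDeriv n (dd p) 0 = iteratedDeriv n (bs p) 0 -
        (((4 : ℝ) ^ p : ℝ) : ℂ) * iteratedDeriv n E 0 := by
      have h3 : ContDiffAt ℂ n (fun z => (((4 : ℝ) ^ p : ℝ) : ℂ) * E z) 0 :=
        contDiffAt_const.mul hEa.contDiffAt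
      rw [h1, iteratedDeriv_sub hba.contDiffAt h3, iteratedDeriv_const_mul _ hEa.contDiffAt]
    unfold MPV.coef
    rw [h2]
    ring
  have h1 := exa_lim (s := 2 * p) (by positivity)
  have h2 : Tendsto (fun n : ℕ => ((((4 : ℝ) ^ p * ((n : ℝ) ^ (1 - 2 * p) *
      ∏ j ∈ Finset.range n, (2 * p + j) / ((j : ℝ) + 1)) : ℝ)) : ℂ)) atTop
      (𝓝 (((4 : ℝ) ^ p / Real.Gamma (2 * p) : ℝ) : ℂ)) := by
    have h3 := (h1.const_mul ((4 : ℝ) ^ p))
    rw [mul_one_div] at h3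
    exact (Complex.continuous_ofReal.tendsto _).comp h3
  have h3 : Tendsto (fun n : ℕ => (((n : ℝ) ^ (1 - 2 * p) : ℝ) : ℂ) * MPV.coef (dd p) n) atTop
      (𝓝 0) := by
    rw [tendsto_zero_iff_norm_tendsto_zero]
    have h4 : Tendsto (fun n : ℕ => C * (n : ℝ) ^ (-p)) atTop (𝓝 (C * 0)) :=
      ((tendsto_rpow_neg_atTop hp).comp tendsto_natCast_atTop_atTop).const_mul C
    rw [mul_zero] at h4
    refine squeeze_zero' (Eventually.of_forall fun n => norm_nonneg _) ?_ h4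
    filter_upwards [eventually_ge_atTop 1] with n hn
    have hn0 : (0 : ℝ) < n := by exact_mod_cast hn
    rw [norm_mul, Complex.norm_real, Real.norm_of_nonneg (Real.rpow_nonneg hn0.le _)]
    calc (n : ℝ) ^ (1 - 2 * p) * ‖MPV.coef (dd p) n‖
        ≤ (n : ℝ) ^ (1 - 2 * p) * (C * (n : ℝ) ^ (p - 1)) :=
          mul_le_mul_of_nonneg_left (hdd n hn) (Real.rpow_nonneg hn0.le _)
      _ = C * ((n : ℝ) ^ (1 - 2 * p) * (n : ℝ) ^ (p - 1)) := by ring
      _ = C * (n : ℝ) ^ (-p) := by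
          rw [← Real.rpow_add hn0]
          congr 2
          ring
  have h4 := h2.add h3
  rw [add_zero] at h4
  refine h4.congr fun n => ?_
  rw [hcoef n, hE, MQV.exm_coef hp n]
  push_cast
  ring

end MQK
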