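import Pool.Agent.MQK.Kdf

set_option autoImplicit false

/-!
# MQK KFO, part 2: `mm_int`, `mm_eq`, `first_order` (see the header of `Kfo.lean`)
-/

open MeasureTheory Metric Set Filter Topology

namespace MQK

namespace FoB

theorem mm_eq (p ξ : ℝ) : min (Real.exp ξ) (Real.exp (-ξ)) * Real.exp (4 * p * ξ) = mm p ξ := by
  unfold mm
  rw [min_mul_of_nonneg _ _ (Real.exp_pos _).le, ← Real.exp_add, ← Real.exp_add]
  congr 2 <;> ring

theorem mm_pos (p ξ : ℝ) : 0 < mm p ξ := lt_min (Real.exp_pos _) (Real.exp_pos _)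

theorem mm_cont (p : ℝ) : Continuous (mm p) := by
  unfold mm
  fun_prop

/-- comparison with the value at the right end -/
theorem mm_le {p : ℝ} {ξ₀ ξ : ℝ} (h : ξ ≤ ξ₀) :
    mm p ξ ≤ mm p ξ₀ * Real.exp (-((4 * p - 1) * ξ₀)) * Real.exp ((4 * p - 1) * ξ) := by
  have e : mm p ξ₀ * Real.exp (-((4 * p - 1) * ξ₀)) * Real.exp ((4 * p - 1) * ξ) =
      min (Real.exp ((4 * p + 1) * ξ₀ + -((4 * p - 1) * ξ₀) + (4 * p - 1) * ξ))
        (Real.exp ((4 * p - 1) * ξ₀ + -((4 * p - 1) * ξ₀) + (4 * p - 1) * ξ)) := by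
    unfold mm
    rw [min_mul_of_nonneg _ _ (Real.exp_pos _).le, min_mul_of_nonneg _ _ (Real.exp_pos _).le,
      ← Real.exp_add, ← Real.exp_add, ← Real.exp_add, ← Real.exp_add]
  rw [e]
  unfold mm
  apply min_le_min
  · apply Real.exp_le_exp.2
    linarith
  · apply Real.exp_le_exp.2
    linarith

theorem le_mm {p : ℝ} {ξ₀ ξ : ℝ} (h : ξ ≤ ξ₀) :
    mm p ξ₀ * Real.exp (-((4 * p + 1) * ξ₀)) * Real.exp ((4 * p + 1) * ξ) ≤ mm p ξ := by
  have e : mm p ξ₀ * Real.exp (-((4 * p + 1) * ξ₀)) * Real.exp ((4 * p + 1) * ξ) =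
      min (Real.exp ((4 * p + 1) * ξ₀ + -((4 * p + 1) * ξ₀) + (4 * p + 1) * ξ))
        (Real.exp ((4 * p - 1) * ξ₀ + -((4 * p + 1) * ξ₀) + (4 * p + 1) * ξ)) := by
    unfold mm
    rw [min_mul_of_nonneg _ _ (Real.exp_pos _).le, min_mul_of_nonneg _ _ (Real.exp_pos _).le,
      ← Real.exp_add, ← Real.exp_add, ← Real.exp_add, ← Real.exp_add]
  rw [e]
  unfold mm
  apply min_le_min
  · apply Real.exp_le_exp.2
    linarith
  · apply Real.exp_le_exp.2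
    linarith

theorem mm_intg {p : ℝ} (hp : 1 / 4 < p) (ξ₀ : ℝ) : IntegrableOn (mm p) (Iic ξ₀) := by
  have h1 : IntegrableOn (fun ξ => mm p ξ₀ * Real.exp (-((4 * p - 1) * ξ₀)) *
      Real.exp ((4 * p - 1) * ξ)) (Iic ξ₀) :=
    (integrableOn_exp_mul_Iic (by linarith : 0 < 4 * p - 1) ξ₀).const_mul _
  refine Integrable.mono' h1 (mm_cont p).aestronglyMeasurable ?_
  refine (ae_restrict_iff' measurableSet_Iic).2 (Eventually.of_forall fun ξ hξ => ?_)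
  rw [Real.norm_eq_abs, abs_of_pos (mm_pos p ξ)]
  exact mm_le hξ

theorem mm_int_le {p : ℝ} (hp : 1 / 4 < p) (ξ₀ : ℝ) :
    ∫ ξ in Iic ξ₀, mm p ξ ≤ 1 / (4 * p - 1) * mm p ξ₀ := by
  have ha : 0 < 4 * p - 1 := by linarith
  have h1 : IntegrableOn (fun ξ => mm p ξ₀ * Real.exp (-((4 * p - 1) * ξ₀)) *
      Real.exp ((4 * p - 1) * ξ)) (Iic ξ₀) := (integrableOn_exp_mul_Iic ha ξ₀).const_mul _
  refine (setIntegral_mono_on (mm_intg hp ξ₀) h1 measurableSet_Iic fun ξ hξ => mm_le hξ).trans ?_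
  rw [integral_const_mul, integral_exp_mul_Iic ha, mul_assoc, ← mul_div_assoc, ← Real.exp_add,
    neg_add_cancel, Real.exp_zero, mul_comm]

theorem le_mm_int {p : ℝ} (hp : 1 / 4 < p) (ξ₀ : ℝ) :
    1 / (4 * p + 1) * mm p ξ₀ ≤ ∫ ξ in Iic ξ₀, mm p ξ := by
  have ha : 0 < 4 * p + 1 := by linarith
  have h1 : IntegrableOn (fun ξ => mm p ξ₀ * Real.exp (-((4 * p + 1) * ξ₀)) *
      Real.exp ((4 * p + 1) * ξ)) (Iic ξ₀) := (integrableOn_exp_mul_Iic ha ξ₀).const_mul _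
  refine le_trans ?_ (setIntegral_mono_on h1 (mm_intg hp ξ₀) measurableSet_Iic fun ξ hξ => le_mm hξ)
  rw [integral_const_mul, integral_exp_mul_Iic ha, mul_assoc, ← mul_div_assoc, ← Real.exp_add,
    neg_add_cancel, Real.exp_zero, mul_comm]

/-- `1 - i e^{-ξ}` -/
noncomputable def Dd (ξ : ℝ) : ℂ := 1 - Complex.I * (Real.exp (-ξ) : ℂ)

/-- `e^{(4p-1)ξ} / (1 - i e^{-ξ})^4` -/
noncomputable def Qf (p ξ : ℝ) : ℂ := (Real.exp ((4 * p - 1) * ξ) : ℂ) / Dd ξ ^ 4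

/-- the derivative of `Qf` -/
noncomputable def Qd (p ξ : ℝ) : ℂ :=
  ((4 * p - 1 : ℝ) : ℂ) * Qf p ξ - 4 * Complex.I * (Real.exp (-ξ) : ℂ) * Qf p ξ / Dd ξ

/-- `e^{i N e^{-ξ}}` -/
noncomputable def Ef (N ξ : ℝ) : ℂ := Complex.exp (Complex.I * N * (Real.exp (-ξ) : ℂ))

theorem Dd_normSq (ξ : ℝ) : ‖Dd ξ‖ ^ 2 = 1 + Real.exp (-ξ) ^ 2 := by
  rw [Complex.sq_norm, Complex.normSq_apply]
  unfold Dd
  have h1 : (1 - Complex.I * (Real.exp (-ξ) : ℂ)).re = 1 := by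
    rw [Complex.sub_re, Complex.mul_re, Complex.ofReal_re, Complex.ofReal_im, Complex.I_re]
    simp
  have h2 : (1 - Complex.I * (Real.exp (-ξ) : ℂ)).im = -Real.exp (-ξ) := by
    rw [Complex.sub_im, Complex.mul_im, Complex.ofReal_re, Complex.ofReal_im, Complex.I_im]
    simp
  rw [h1, h2]
  ring

theorem Dd_ne (ξ : ℝ) : Dd ξ ≠ 0 := by
  intro h
  have h1 := Dd_normSq ξ
  rw [h, norm_zero] at h1
  have := sq_nonneg (Real.exp (-ξ))
  norm_num at h1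
  linarith

theorem Dd_ge (ξ : ℝ) : 1 ≤ ‖Dd ξ‖ ∧ Real.exp (-ξ) ≤ ‖Dd ξ‖ := by
  have h1 := Dd_normSq ξ
  have h2 := norm_nonneg (Dd ξ)
  have h3 := Real.exp_pos (-ξ)
  constructor
  · by_contra h
    rw [not_le] at h
    nlinarith
  · by_contra h
    rw [not_le] at h
    nlinarith

theorem Ef_norm (N ξ : ℝ) : ‖Ef N ξ‖ = 1 := by
  unfold Ef
  rw [Complex.norm_exp]
  have h1 : (Complex.I * (N : ℂ) * (Real.exp (-ξ) : ℂ)).re = 0 := by
    rw [mul_assoc, ← Complex.ofReal_mul, Complex.mul_re, Complex.I_re, Complex.ofReal_im]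
    ring
  rw [h1, Real.exp_zero]

theorem Qf_norm (p ξ : ℝ) : ‖Qf p ξ‖ ≤ mm p ξ ∧ Real.exp (-ξ) * ‖Qf p ξ‖ ≤ mm p ξ := by
  have h1 := Dd_normSq ξ
  obtain ⟨h2, h3⟩ := Dd_ge ξ
  set d := ‖Dd ξ‖ with hd
  set η := Real.exp (-ξ) with hη
  have hη0 : 0 < η := Real.exp_pos _
  have hd0 : 0 < d := by linarith
  have e1 : ‖Qf p ξ‖ = Real.exp ((4 * p - 1) * ξ) / d ^ 4 := by
    unfold Qf
    rw [norm_div, norm_pow, Complex.norm_real, Real.norm_eq_abs, abs_of_pos (Real.exp_pos _), ← hd]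
  have e2 : Real.exp ((4 * p - 1) * ξ) = Real.exp ((4 * p + 1) * ξ) * η ^ 2 := by
    rw [hη, ← Real.exp_nat_mul, ← Real.exp_add]
    congr 1
    push_cast
    ring
  have hE := Real.exp_pos ((4 * p - 1) * ξ)
  have hE' := Real.exp_pos ((4 * p + 1) * ξ)
  have h4 : η ^ 2 ≤ d ^ 2 := by nlinarith
  have h5 : η ≤ d ^ 2 := by nlinarith
  have h6 : 1 ≤ d ^ 2 := by nlinarith
  have h7 : d ^ 4 = d ^ 2 * d ^ 2 := by ring
  have k1 : Real.exp ((4 * p - 1) * ξ) / d ^ 2 ≤ mm p ξ := by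
    unfold mm
    apply le_min
    · rw [e2, div_le_iff₀ (by positivity)]
      exact mul_le_mul_of_nonneg_left h4 hE'.le
    · rw [div_le_iff₀ (by positivity)]
      nlinarith
  constructor
  · refine le_trans ?_ k1
    rw [e1, h7]
    apply div_le_div_of_nonneg_left hE.le (by positivity)
    nlinarith
  · refine le_trans ?_ k1
    rw [e1, h7, ← mul_div_assoc, div_le_div_iff₀ (by positivity) (by positivity)]
    have : η * d ^ 2 ≤ d ^ 2 * d ^ 2 := mul_le_mul_of_nonneg_right h5 (by positivity)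
    nlinarith

theorem Qd_norm {p : ℝ} (hp : 1 / 4 < p) (ξ : ℝ) : ‖Qd p ξ‖ ≤ (4 * p + 3) * mm p ξ := by
  obtain ⟨h2, h3⟩ := Dd_ge ξ
  have hd0 : 0 < ‖Dd ξ‖ := by linarith
  have h4 : ‖4 * Complex.I * (Real.exp (-ξ) : ℂ) * Qf p ξ / Dd ξ‖ ≤ 4 * ‖Qf p ξ‖ := by
    rw [norm_div, norm_mul, norm_mul, norm_mul, Complex.norm_I, Complex.norm_real,
      Real.norm_eq_abs, abs_of_pos (Real.exp_pos _), div_le_iff₀ hd0]
    have h5 : ‖(4 : ℂ)‖ = 4 := by norm_num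
    rw [h5]
    have := mul_le_mul_of_nonneg_left h3 (norm_nonneg (Qf p ξ))
    nlinarith
  have h5 : ‖((4 * p - 1 : ℝ) : ℂ) * Qf p ξ‖ = (4 * p - 1) * ‖Qf p ξ‖ := by
    rw [norm_mul, Complex.norm_real, Real.norm_eq_abs, abs_of_pos (by linarith)]
  unfold Qd
  refine (norm_sub_le _ _).trans ?_
  rw [h5]
  have h6 := (Qf_norm p ξ).1
  have h7 : (4 * p + 3) * ‖Qf p ξ‖ ≤ (4 * p + 3) * mm p ξ :=
    mul_le_mul_of_nonneg_left h6 (by linarith)
  linarith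

theorem hasDerivAt_Dd (ξ : ℝ) : HasDerivAt Dd (Complex.I * (Real.exp (-ξ) : ℂ)) ξ := by
  have h1 : HasDerivAt (fun x : ℝ => Real.exp (-x)) (Real.exp (-ξ) * -1) ξ :=
    (hasDerivAt_neg ξ).exp
  have h2 := (h1.ofReal_comp.const_mul Complex.I).const_sub 1
  refine h2.congr_deriv ?_
  push_cast
  ring

theorem hasDerivAt_Qf (p ξ : ℝ) : HasDerivAt (Qf p) (Qd p ξ) ξ := by
  have h1 : HasDerivAt (fun x : ℝ => Real.exp ((4 * p - 1) * x))
      (Real.exp ((4 * p - 1) * ξ) * ((4 * p - 1) * 1)) ξ :=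
    ((hasDerivAt_id ξ).const_mul (4 * p - 1)).exp
  have h2 := h1.ofReal_comp.div ((hasDerivAt_Dd ξ).pow 4) (pow_ne_zero 4 (Dd_ne ξ))
  refine h2.congr_deriv ?_
  unfold Qd Qf
  simp only [Pi.pow_apply]
  have hD := Dd_ne ξ
  push_cast
  field_simp

theorem hasDerivAt_Ef (N ξ : ℝ) :
    HasDerivAt (Ef N) (Ef N ξ * -(Complex.I * N * (Real.exp (-ξ) : ℂ))) ξ := by
  have h1 : HasDerivAt (fun x : ℝ => Real.exp (-x)) (Real.exp (-ξ) * -1) ξ :=
    (hasDerivAt_neg ξ).exp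
  have h2 := (h1.ofReal_comp.const_mul (Complex.I * (N : ℂ))).cexp
  refine h2.congr_deriv ?_
  unfold Ef
  push_cast
  ring

/-- the primitive -/
theorem hasDerivAt_G {N : ℝ} (hN : 0 < N) (p ξ : ℝ) :
    HasDerivAt (fun x => Complex.I / N * Ef N x * Qf p x)
      (Ef N ξ * ((Real.exp (-ξ) : ℂ) * Qf p ξ) + Complex.I / N * Ef N ξ * Qd p ξ) ξ := by
  have h1 := (((hasDerivAt_Ef N ξ).const_mul (Complex.I / N)).mul (hasDerivAt_Qf p ξ))
  refine h1.congr_deriv ?_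
  have hN0 : (N : ℂ) ≠ 0 := by exact_mod_cast hN.ne'
  have hI := Complex.I_mul_I
  field_simp
  linear_combination (-(Ef N ξ * (Real.exp (-ξ) : ℂ) * Qf p ξ) * N) * hI

theorem Dd_cont : Continuous Dd :=
  continuous_iff_continuousAt.2 fun ξ => (hasDerivAt_Dd ξ).continuousAt

theorem Qf_cont (p : ℝ) : Continuous (Qf p) :=
  continuous_iff_continuousAt.2 fun ξ => (hasDerivAt_Qf p ξ).continuousAt

theorem Ef_cont (N : ℝ) : Continuous (Ef N) :=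
  continuous_iff_continuousAt.2 fun ξ => (hasDerivAt_Ef N ξ).continuousAt

theorem eta_cont : Continuous fun ξ : ℝ => (Real.exp (-ξ) : ℂ) :=
  Complex.continuous_ofReal.comp (Real.continuous_exp.comp continuous_neg)

theorem Qd_cont (p : ℝ) : Continuous (Qd p) := by
  unfold Qd
  exact (continuous_const.mul (Qf_cont p)).sub
    (((continuous_const.mul eta_cont).mul (Qf_cont p)).div Dd_cont Dd_ne)

theorem mm_tendsto {p : ℝ} (hp : 1 / 4 < p) : Tendsto (mm p) atBot (𝓝 0) := by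
  have h1 : Tendsto (fun ξ : ℝ => Real.exp ((4 * p - 1) * ξ)) atBot (𝓝 0) :=
    Real.tendsto_exp_atBot.comp (tendsto_id.const_mul_atBot (by linarith))
  exact squeeze_zero (fun ξ => (mm_pos p ξ).le) (fun ξ => min_le_right _ _) h1

theorem int1 {p : ℝ} (hp : 1 / 4 < p) (N ξ₀ : ℝ) :
    IntegrableOn (fun ξ => Ef N ξ * ((Real.exp (-ξ) : ℂ) * Qf p ξ)) (Iic ξ₀) := by
  refine Integrable.mono' (mm_intg hp ξ₀)
    ((Ef_cont N).mul (eta_cont.mul (Qf_cont p))).aestronglyMeasurable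
    (Eventually.of_forall fun ξ => ?_)
  rw [norm_mul, Ef_norm, one_mul, norm_mul, Complex.norm_real, Real.norm_eq_abs,
    abs_of_pos (Real.exp_pos _)]
  exact (Qf_norm p ξ).2

theorem int2 {p : ℝ} (hp : 1 / 4 < p) {N : ℝ} (hN : 0 < N) (ξ₀ : ℝ) :
    IntegrableOn (fun ξ => Complex.I / N * Ef N ξ * Qd p ξ) (Iic ξ₀) ∧
      ‖∫ ξ in Iic ξ₀, Complex.I / N * Ef N ξ * Qd p ξ‖ ≤
        1 / N * ((4 * p + 3) * (1 / (4 * p - 1) * mm p ξ₀)) := by
  have hb : ∀ ξ, ‖Complex.I / N * Ef N ξ * Qd p ξ‖ ≤ 1 / N * ((4 * p + 3) * mm p ξ) := by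
    intro ξ
    rw [norm_mul, norm_mul, Ef_norm, mul_one, norm_div, Complex.norm_I, Complex.norm_real,
      Real.norm_eq_abs, abs_of_pos hN]
    exact mul_le_mul_of_nonneg_left (Qd_norm hp ξ) (by positivity)
  have hi : IntegrableOn (fun ξ => 1 / N * ((4 * p + 3) * mm p ξ)) (Iic ξ₀) :=
    ((mm_intg hp ξ₀).const_mul _).const_mul _
  constructor
  · exact Integrable.mono' hi
      ((continuous_const.mul (Ef_cont N)).mul (Qd_cont p)).aestronglyMeasurable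
      (Eventually.of_forall hb)
  · refine (norm_integral_le_of_norm_le hi (Eventually.of_forall hb)).trans ?_
    rw [integral_const_mul, integral_const_mul]
    have h1 := mm_int_le hp ξ₀
    have h2 : (0 : ℝ) ≤ 4 * p + 3 := by linarith
    gcongr

/-- the oscillating integral -/
theorem osc {p : ℝ} (hp : 1 / 4 < p) {N : ℝ} (hN : 0 < N) (ξ₀ : ℝ) :
    ‖∫ ξ in Iic ξ₀, Ef N ξ * ((Real.exp (-ξ) : ℂ) * Qf p ξ)‖ ≤
      (1 + (4 * p + 3) / (4 * p - 1)) / N * mm p ξ₀ := by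
  have h0 : Tendsto (fun x => Complex.I / N * Ef N x * Qf p x) atBot (𝓝 0) := by
    refine squeeze_zero_norm (a := fun x => 1 / N * mm p x) (fun ξ => ?_) ?_
    · rw [norm_mul, norm_mul, Ef_norm, mul_one, norm_div, Complex.norm_I, Complex.norm_real,
        Real.norm_eq_abs, abs_of_pos hN]
      exact mul_le_mul_of_nonneg_left (Qf_norm p ξ).1 (by positivity)
    · have := (mm_tendsto hp).const_mul (1 / N)
      rwa [mul_zero] at this
  have h1 := integral_Iic_of_hasDerivAt_of_tendsto (a := ξ₀)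
    (hasDerivAt_G hN p ξ₀).continuousAt.continuousWithinAt
    (fun ξ _ => hasDerivAt_G hN p ξ) ((int1 hp N ξ₀).add (int2 hp hN ξ₀).1) h0
  rw [integral_add (int1 hp N ξ₀) (int2 hp hN ξ₀).1, sub_zero] at h1
  have h2 : ∫ ξ in Iic ξ₀, Ef N ξ * ((Real.exp (-ξ) : ℂ) * Qf p ξ) =
      Complex.I / N * Ef N ξ₀ * Qf p ξ₀ - ∫ ξ in Iic ξ₀, Complex.I / N * Ef N ξ * Qd p ξ := by
    rw [← h1]
    ring
  rw [h2]
  refine (norm_sub_le _ _).trans ?_
  have h3 : ‖Complex.I / N * Ef N ξ₀ * Qf p ξ₀‖ ≤ 1 / N * mm p ξ₀ := by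
    rw [norm_mul, norm_mul, Ef_norm, mul_one, norm_div, Complex.norm_I, Complex.norm_real,
      Real.norm_eq_abs, abs_of_pos hN]
    exact mul_le_mul_of_nonneg_left (Qf_norm p ξ₀).1 (by positivity)
  have h4 := (int2 hp hN ξ₀).2
  have h5 : 1 / N * mm p ξ₀ + 1 / N * ((4 * p + 3) * (1 / (4 * p - 1) * mm p ξ₀)) =
      (1 + (4 * p + 3) / (4 * p - 1)) / N * mm p ξ₀ := by
    have : 4 * p - 1 ≠ 0 := by linarith
    field_simp
  linarith

/-- the imaginary part of `KS` on the upper boundary line -/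
theorem ks_top (B N ξ : ℝ) : (KS B N (ξ + (Real.pi / 2 : ℝ) * Complex.I)).im =
    -(Real.exp (-ξ) / (1 + Real.exp (-ξ) ^ 2)) -
      B * (Ef N ξ * ((Real.exp (-ξ) : ℂ) ^ 2 / Dd ξ ^ 4)).im := by
  have hu : Complex.exp (-(ξ + (Real.pi / 2 : ℝ) * Complex.I)) =
      -(Complex.I * (Real.exp (-ξ) : ℂ)) := by
    have h1 : -((ξ : ℂ) + (Real.pi / 2 : ℝ) * Complex.I) = ((-ξ : ℝ) : ℂ) +
        -((Real.pi / 2 : ℝ) * Complex.I) := by
      push_cast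
      ring
    rw [h1, Complex.exp_add, Complex.exp_neg, ← Complex.ofReal_exp]
    have h2 : Complex.exp ((Real.pi / 2 : ℝ) * Complex.I) = Complex.I := by
      rw [Complex.exp_mul_I, ← Complex.ofReal_cos, ← Complex.ofReal_sin, Real.cos_pi_div_two,
        Real.sin_pi_div_two]
      simp
    rw [h2, Complex.inv_I]
    ring
  have hD : 1 + -(Complex.I * (Real.exp (-ξ) : ℂ)) = Dd ξ := by
    unfold Dd
    ring
  unfold KS kk ka kb
  rw [hu, hD]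
  have h1 : -1 / Dd ξ = ((-(1 / (1 + Real.exp (-ξ) ^ 2)) : ℝ) : ℂ) +
      ((-(Real.exp (-ξ) / (1 + Real.exp (-ξ) ^ 2)) : ℝ) : ℂ) * Complex.I := by
    rw [div_eq_iff (Dd_ne ξ)]
    unfold Dd
    have h2 : ((1 : ℂ) + (Real.exp (-ξ) : ℂ) ^ 2) ≠ 0 := by
      have : (1 + Real.exp (-ξ) ^ 2 : ℝ) ≠ 0 := by positivity
      exact_mod_cast this
    push_cast
    have hI := Complex.I_sq
    set η := Complex.exp (-(ξ : ℂ)) with hη
    have h2' : ((1 : ℂ) + η ^ 2) ≠ 0 := by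
      rw [hη]
      have h3 : Complex.exp (-(ξ : ℂ)) = ((Real.exp (-ξ) : ℝ) : ℂ) := by push_cast; rfl
      rw [h3]
      exact h2
    field_simp
    linear_combination (-(η ^ 2)) * hI
  have h2 : Complex.exp (-((N : ℂ) * -(Complex.I * (Real.exp (-ξ) : ℂ)))) = Ef N ξ := by
    unfold Ef
    congr 1
    ring
  have h3 : (-(Complex.I * (Real.exp (-ξ) : ℂ))) ^ 2 = -((Real.exp (-ξ) : ℂ) ^ 2) := by
    rw [neg_sq, mul_pow, Complex.I_sq]
    ring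
  rw [h1, h2, h3]
  have h4 : Ef N ξ * (-((Real.exp (-ξ) : ℂ) ^ 2) / Dd ξ ^ 4) =
      -(Ef N ξ * ((Real.exp (-ξ) : ℂ) ^ 2 / Dd ξ ^ 4)) := by ring
  rw [h4]
  rw [Complex.add_im, Complex.add_im, Complex.ofReal_im, Complex.mul_I_im, Complex.ofReal_re,
    Complex.im_ofReal_mul, Complex.neg_im]
  ring

/-- with the weight -/
theorem ks_top_mul (p B N ξ : ℝ) : (KS B N (ξ + (Real.pi / 2 : ℝ) * Complex.I)).im *
    Real.exp (4 * p * ξ) = -(Real.exp (-ξ) / (1 + Real.exp (-ξ) ^ 2) * Real.exp (4 * p * ξ)) -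
      B * (Ef N ξ * ((Real.exp (-ξ) : ℂ) * Qf p ξ)).im := by
  rw [ks_top, sub_mul, neg_mul]
  congr 1
  have h1 : Ef N ξ * ((Real.exp (-ξ) : ℂ) * Qf p ξ) =
      Ef N ξ * ((Real.exp (-ξ) : ℂ) ^ 2 / Dd ξ ^ 4) * ((Real.exp (4 * p * ξ) : ℝ) : ℂ) := by
    have h2 : (Real.exp ((4 * p - 1) * ξ) : ℂ) =
        (Real.exp (-ξ) : ℂ) * ((Real.exp (4 * p * ξ) : ℝ) : ℂ) := by
      rw [← Complex.ofReal_mul, ← Real.exp_add]
      congr 2
      ring
    unfold Qf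
    rw [h2]
    ring
  rw [h1, Complex.im_mul_ofReal]
  ring

theorem first_order {p : ℝ} (hp : 1 / 4 < p) : ∃ c₀ c : ℝ, 0 < c₀ ∧ 0 < c ∧
    ∀ B N : ℝ, 0 < N → |B| ≤ c₀ * N → ∀ ξ₀ : ℝ,
      ∫ ξ in Iic ξ₀, (KS B N (ξ + (Real.pi / 2 : ℝ) * Complex.I)).im * Real.exp (4 * p * ξ) ≤
        -(c * mm p ξ₀) := by
  have hp1 : 0 < 4 * p - 1 := by linarith
  have hp2 : 0 < 4 * p + 1 := by linarith
  set C₂ := 1 + (4 * p + 3) / (4 * p - 1) with hC₂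
  have hC₂0 : 0 < C₂ := by positivity
  refine ⟨1 / (4 * (4 * p + 1) * C₂), 1 / (4 * (4 * p + 1)), by positivity, by positivity, ?_⟩
  intro B N hN hB ξ₀
  -- the damping part
  have hf : ∀ ξ : ℝ, 1 / 2 * mm p ξ ≤
      Real.exp (-ξ) / (1 + Real.exp (-ξ) ^ 2) * Real.exp (4 * p * ξ) ∧
      Real.exp (-ξ) / (1 + Real.exp (-ξ) ^ 2) * Real.exp (4 * p * ξ) ≤ mm p ξ := by
    intro ξ
    rw [← mm_eq]
    have hE := Real.exp_pos (4 * p * ξ)
    have hη := Real.exp_pos (-ξ)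
    have h1 : Real.exp ξ = 1 / Real.exp (-ξ) := by rw [Real.exp_neg]; field_simp
    rw [h1]
    set η := Real.exp (-ξ)
    constructor
    · rw [← mul_assoc]
      apply mul_le_mul_of_nonneg_right _ hE.le
      rw [le_div_iff₀ (by positivity)]
      rcases le_total η 1 with h | h
      · have h2 : min (1 / η) η ≤ η := min_le_right _ _
        have h3 : 1 / 2 * min (1 / η) η * (1 + η ^ 2) ≤ 1 / 2 * η * (1 + η ^ 2) := by gcongr
        nlinarith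
      · have h2 : min (1 / η) η ≤ 1 / η := min_le_left _ _
        have h3 : 1 / 2 * min (1 / η) η * (1 + η ^ 2) ≤ 1 / 2 * (1 / η) * (1 + η ^ 2) := by gcongr
        refine h3.trans ?_
        have h4 : 1 / 2 * (1 / η) * (1 + η ^ 2) = (1 + η ^ 2) / (2 * η) := by field_simp
        rw [h4, div_le_iff₀ (by positivity)]
        nlinarith
    · apply mul_le_mul_of_nonneg_right _ hE.le
      apply le_min
      · rw [div_le_div_iff₀ (by positivity) hη]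
        nlinarith
      · rw [div_le_iff₀ (by positivity)]
        nlinarith [sq_nonneg η]
  have hfc : Continuous fun ξ : ℝ => Real.exp (-ξ) / (1 + Real.exp (-ξ) ^ 2) *
      Real.exp (4 * p * ξ) := by
    refine Continuous.mul (Continuous.div (by fun_prop) (by fun_prop) fun ξ => ?_) (by fun_prop)
    positivity
  have hfi : IntegrableOn (fun ξ : ℝ => Real.exp (-ξ) / (1 + Real.exp (-ξ) ^ 2) *
      Real.exp (4 * p * ξ)) (Iic ξ₀) := by
    refine Integrable.mono' (mm_intg hp ξ₀) hfc.aestronglyMeasurable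
      (Eventually.of_forall fun ξ => ?_)
    rw [Real.norm_eq_abs, abs_of_nonneg (by positivity)]
    exact (hf ξ).2
  have hI1 : 1 / 2 * (1 / (4 * p + 1) * mm p ξ₀) ≤ ∫ ξ in Iic ξ₀,
      Real.exp (-ξ) / (1 + Real.exp (-ξ) ^ 2) * Real.exp (4 * p * ξ) := by
    have h1 := setIntegral_mono_on ((mm_intg hp ξ₀).const_mul (1 / 2)) hfi measurableSet_Iic
      fun ξ _ => (hf ξ).1
    rw [integral_const_mul] at h1
    refine le_trans ?_ h1
    have := le_mm_int hp ξ₀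
    linarith
  -- the oscillating part
  have hoi : IntegrableOn (fun ξ => (Ef N ξ * ((Real.exp (-ξ) : ℂ) * Qf p ξ)).im) (Iic ξ₀) :=
    (int1 hp N ξ₀).im
  have hI2 : |∫ ξ in Iic ξ₀, (Ef N ξ * ((Real.exp (-ξ) : ℂ) * Qf p ξ)).im| ≤
      C₂ / N * mm p ξ₀ := by
    have h1 : ∫ ξ in Iic ξ₀, (Ef N ξ * ((Real.exp (-ξ) : ℂ) * Qf p ξ)).im =
        (∫ ξ in Iic ξ₀, Ef N ξ * ((Real.exp (-ξ) : ℂ) * Qf p ξ)).im := integral_im (int1 hp N ξ₀)
    rw [h1]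
    exact (Complex.abs_im_le_norm _).trans (osc hp hN ξ₀)
  have h1 : ∫ ξ in Iic ξ₀, (KS B N (ξ + (Real.pi / 2 : ℝ) * Complex.I)).im *
      Real.exp (4 * p * ξ) = -(∫ ξ in Iic ξ₀,
        Real.exp (-ξ) / (1 + Real.exp (-ξ) ^ 2) * Real.exp (4 * p * ξ)) -
      B * ∫ ξ in Iic ξ₀, (Ef N ξ * ((Real.exp (-ξ) : ℂ) * Qf p ξ)).im := by
    simp only [ks_top_mul]
    have hfn : IntegrableOn (fun ξ : ℝ => -(Real.exp (-ξ) / (1 + Real.exp (-ξ) ^ 2) *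
      Real.exp (4 * p * ξ))) (Iic ξ₀) := hfi.neg
    rw [integral_sub hfn (hoi.const_mul B), integral_neg, integral_const_mul]
  rw [h1]
  have hm := mm_pos p ξ₀
  have h2 : -(B * ∫ ξ in Iic ξ₀, (Ef N ξ * ((Real.exp (-ξ) : ℂ) * Qf p ξ)).im) ≤
      1 / (4 * (4 * p + 1)) * mm p ξ₀ := by
    calc -(B * ∫ ξ in Iic ξ₀, (Ef N ξ * ((Real.exp (-ξ) : ℂ) * Qf p ξ)).im) ≤
          |B * ∫ ξ in Iic ξ₀, (Ef N ξ * ((Real.exp (-ξ) : ℂ) * Qf p ξ)).im| := neg_le_abs _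
      _ = |B| * |∫ ξ in Iic ξ₀, (Ef N ξ * ((Real.exp (-ξ) : ℂ) * Qf p ξ)).im| := abs_mul _ _
      _ ≤ (1 / (4 * (4 * p + 1) * C₂) * N) * (C₂ / N * mm p ξ₀) := by
          apply mul_le_mul hB hI2 (abs_nonneg _) (by positivity)
      _ = 1 / (4 * (4 * p + 1)) * mm p ξ₀ := by
          field_simp
  have h3 : 1 / 2 * (1 / (4 * p + 1) * mm p ξ₀) =
      2 * (1 / (4 * (4 * p + 1)) * mm p ξ₀) := by
    field_simp
    norm_num
  linarith

theorem mm_int {p : ℝ} (hp : 1 / 4 < p) : ∃ C c : ℝ, 0 < C ∧ 0 < c ∧ ∀ ξ₀ : ℝ,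
    IntegrableOn (mm p) (Iic ξ₀) ∧ ∫ ξ in Iic ξ₀, mm p ξ ≤ C * mm p ξ₀ ∧
      c * mm p ξ₀ ≤ ∫ ξ in Iic ξ₀, mm p ξ := by
  have h1 : 0 < 4 * p - 1 := by linarith
  have h2 : 0 < 4 * p + 1 := by linarith
  exact ⟨1 / (4 * p - 1), 1 / (4 * p + 1), by positivity, by positivity, fun ξ₀ =>
    ⟨mm_intg hp ξ₀, mm_int_le hp ξ₀, le_mm_int hp ξ₀⟩⟩

end FoB

end MQK
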