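import Pool.Agent.MQK.Kdf
import Pool.Agent.MQK.KfoB

set_option autoImplicit false

/-!
# MQK KFO : bounds for the perturbation on the closed strip, and the first order area condition

`u = e^{-ζ}` has `Re u ≥ 0` for `|Im ζ| ≤ π/2`, so `‖1+u‖² ≥ 1 + ‖u‖²`; `KS` is analytic for `|Im ζ| < π`
(`e^{-ζ} = -1` forces `Im ζ ∈ π + 2πℤ`).
* `kk_bound`: `‖ka u‖ ≤ 1/‖1+u‖`, `‖kb N u‖ ≤ ‖u‖²/‖1+u‖⁴ ≤ 1/‖1+u‖²` for `N ≥ 0`; `1+‖u‖ ≤ 2‖1+u‖`.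
* `ks_bound`: `‖KS‖ ≤ 1 + |B|`; `KS' ζ = - u kk'(u)`, `kk' = 1/(1+u)² + B (-N kb + e^{-Nu} (2u/(1+u)^4 - 4u²/(1+u)^5))`,
  so `‖KS'‖ ≤ 1 + |B| (N + 6)`.
* `ks_im`: on `ζ = ξ + iπ/2`: `u = -iη`, `η = e^{-ξ}`, `Im ka = -η/(1+η²)`, `‖kb‖ ≤ η²/(1+η²)²`, both `≤ min η (1/η)`.
* `mm_int`: `∫_{-∞}^{ξ₀} mm ≤ C mm ξ₀` and `∫_{-∞}^{ξ₀} min(e^ξ,e^{-ξ}) e^{4pξ} = ∫ mm` (the two are the same function).
* `first_order`: `b = Im KS(ξ+iπ/2) = -η/(1+η²) + B b₂`.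
  Part 1: `η/(1+η²) ≥ ½ min η (1/η)`, so `∫_{-∞}^{ξ₀} η/(1+η²) e^{4pξ} ≥ ½ ∫_{-∞}^{ξ₀} mm ≥ c₁ mm ξ₀`.
  Part 2: `b₂ e^{4pξ} = -Im (e^{iNη} e^{(4p-2)ξ}/(1-iη)^4)`.  Put `Q ξ = e^{(4p-1)ξ}/(1-i e^{-ξ})^4`:
  `‖Q‖ ≤ mm ξ` (`‖1-iη‖⁴ ≥ max(1, η²)`), `Q' = (4p-1) Q - 4 i e^{-ξ} Q/(1-i e^{-ξ})` hence `‖Q'‖ ≤ (4p+3) ‖Q‖`, and
  `e^{iN e^{-ξ}} e^{-ξ} Q = d/dξ [ (i/N) e^{iN e^{-ξ}} Q ] - (i/N) e^{iN e^{-ξ}} Q'`.  So
  `|∫_{-∞}^{ξ₀} b₂ e^{4pξ}| ≤ (1/N) (‖Q ξ₀‖ + (4p+3) ∫_{-∞}^{ξ₀} mm) ≤ (C₂/N) mm ξ₀`.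
  Total `≤ (-c₁ + |B| C₂/N) mm ξ₀`; `c₀ = c₁/(2 C₂)`, `c = c₁/2`.
-/

open MeasureTheory Metric Set

namespace MQK

private theorem s_facts {u : ℂ} (hu : 0 ≤ u.re) :
    1 ≤ ‖1 + u‖ ∧ ‖u‖ ≤ ‖1 + u‖ ∧ 1 + ‖u‖ ^ 2 ≤ ‖1 + u‖ ^ 2 := by
  have h1 : ‖1 + u‖ ^ 2 = 1 + 2 * u.re + ‖u‖ ^ 2 := by
    rw [Complex.sq_norm, Complex.sq_norm, Complex.normSq_apply, Complex.normSq_apply]
    simp
    ring
  have h0 := norm_nonneg u
  have h2 := norm_nonneg (1 + u)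
  refine ⟨?_, ?_, by nlinarith⟩
  · by_contra h
    push Not at h
    nlinarith
  · by_contra h
    push Not at h
    nlinarith

private theorem norm_ka (u : ℂ) : ‖ka u‖ = 1 / ‖1 + u‖ := by
  unfold ka
  rw [norm_div, norm_neg, norm_one]

private theorem exp_le {N : ℝ} (hN : 0 ≤ N) {u : ℂ} (hu : 0 ≤ u.re) :
    ‖Complex.exp (-(N * u))‖ ≤ 1 := by
  rw [Complex.norm_exp]
  have : (-(N * u) : ℂ).re = -(N * u.re) := by simp
  rw [this]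
  exact Real.exp_le_one_iff.2 (by nlinarith [mul_nonneg hN hu])

private theorem norm_kb {N : ℝ} (hN : 0 ≤ N) {u : ℂ} (hu : 0 ≤ u.re) :
    ‖kb N u‖ ≤ ‖u‖ ^ 2 / ‖1 + u‖ ^ 4 := by
  unfold kb
  rw [norm_mul, norm_div, norm_pow, norm_pow]
  calc ‖Complex.exp (-(N * u))‖ * (‖u‖ ^ 2 / ‖1 + u‖ ^ 4) ≤ 1 * (‖u‖ ^ 2 / ‖1 + u‖ ^ 4) :=
      mul_le_mul_of_nonneg_right (exp_le hN hu) (by positivity)
    _ = _ := one_mul _

private theorem norm_kb' {N : ℝ} (hN : 0 ≤ N) {u : ℂ} (hu : 0 ≤ u.re) :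
    ‖kb N u‖ ≤ 1 / ‖1 + u‖ ^ 2 := by
  obtain ⟨h1, h2, h3⟩ := s_facts hu
  refine (norm_kb hN hu).trans ?_
  have h4 : 0 < ‖1 + u‖ := by linarith
  rw [div_le_div_iff₀ (by positivity) (by positivity), one_mul]
  have h5 : ‖u‖ ^ 2 ≤ ‖1 + u‖ ^ 2 := by nlinarith
  nlinarith [pow_pos h4 2]

theorem kk_bound {B N : ℝ} (hN : 0 ≤ N) {u : ℂ} (hu : 0 ≤ u.re) :
    ‖kk B N u‖ ≤ 2 * (1 + |B|) / (1 + ‖u‖) ∧ ‖ka u‖ ≤ 2 / (1 + ‖u‖) ∧
      ‖kb N u‖ ≤ 4 / (1 + ‖u‖) ^ 2 := by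
  obtain ⟨h1, h2, h3⟩ := s_facts hu
  have h0 := norm_nonneg u
  have h4 : 0 < ‖1 + u‖ := by linarith
  have ha : ‖ka u‖ ≤ 2 / (1 + ‖u‖) := by
    rw [norm_ka, div_le_div_iff₀ h4 (by positivity)]
    linarith
  have hb : ‖kb N u‖ ≤ 4 / (1 + ‖u‖) ^ 2 := by
    refine (norm_kb' hN hu).trans ?_
    rw [div_le_div_iff₀ (by positivity) (by positivity)]
    nlinarith
  have hb' : ‖kb N u‖ ≤ 2 / (1 + ‖u‖) := by
    refine (norm_kb' hN hu).trans ?_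
    rw [div_le_div_iff₀ (by positivity) (by positivity)]
    nlinarith
  refine ⟨?_, ha, hb⟩
  have h5 : ‖kk B N u‖ ≤ ‖ka u‖ + |B| * ‖kb N u‖ := by
    unfold kk
    refine (norm_add_le _ _).trans ?_
    rw [norm_mul, Complex.norm_real, Real.norm_eq_abs]
  calc ‖kk B N u‖ ≤ ‖ka u‖ + |B| * ‖kb N u‖ := h5
    _ ≤ 2 / (1 + ‖u‖) + |B| * (2 / (1 + ‖u‖)) :=
      add_le_add ha (mul_le_mul_of_nonneg_left hb' (abs_nonneg B))
    _ = 2 * (1 + |B|) / (1 + ‖u‖) := by ring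

private theorem one_add_exp_ne {ζ : ℂ} (h : |ζ.im| < Real.pi) : 1 + Complex.exp (-ζ) ≠ 0 := by
  intro h0
  have h1 := congrArg Complex.im h0
  have h2 := congrArg Complex.re h0
  rw [Complex.add_im, Complex.one_im, zero_add, Complex.exp_im, Complex.zero_im, Complex.neg_re,
    Complex.neg_im, Real.sin_neg] at h1
  rw [Complex.add_re, Complex.one_re, Complex.exp_re, Complex.zero_re, Complex.neg_re,
    Complex.neg_im, Real.cos_neg] at h2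
  have h3 : Real.sin ζ.im = 0 := by
    have := Real.exp_pos (-ζ.re)
    rcases mul_eq_zero.1 h1 with h4 | h4
    · exact absurd h4 this.ne'
    · linarith
  rw [abs_lt] at h
  have h4 := (Real.sin_eq_zero_iff_of_lt_of_lt h.1 h.2).1 h3
  rw [h4, Real.cos_zero, mul_one] at h2
  have := Real.exp_pos (-ζ.re)
  linarith

private theorem ks_hasDeriv (B N : ℝ) {ζ : ℂ} (h : |ζ.im| < Real.pi) :
    HasDerivAt (KS B N) (-Complex.exp (-ζ) / (1 + Complex.exp (-ζ)) ^ 2 +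
      B * (Complex.exp (-(N * Complex.exp (-ζ))) *
        (N * Complex.exp (-ζ) ^ 3 / (1 + Complex.exp (-ζ)) ^ 4 -
          2 * Complex.exp (-ζ) ^ 2 / (1 + Complex.exp (-ζ)) ^ 4 +
          4 * Complex.exp (-ζ) ^ 3 / (1 + Complex.exp (-ζ)) ^ 5))) ζ := by
  have hne := one_add_exp_ne h
  have hu : HasDerivAt (fun z : ℂ => Complex.exp (-z)) (-Complex.exp (-ζ)) ζ := by
    have := (hasDerivAt_neg ζ).cexp
    simpa using this
  have h1 : HasDerivAt (fun z : ℂ => 1 + Complex.exp (-z)) (-Complex.exp (-ζ)) ζ :=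
    hu.const_add 1
  have h2 : HasDerivAt (fun z : ℂ => -1 / (1 + Complex.exp (-z)))
      (-Complex.exp (-ζ) / (1 + Complex.exp (-ζ)) ^ 2) ζ := by
    refine ((hasDerivAt_const ζ (-1 : ℂ)).fun_div h1 hne).congr_deriv ?_
    ring
  have h3 : HasDerivAt (fun z : ℂ => Complex.exp (-(N * Complex.exp (-z))))
      (Complex.exp (-(N * Complex.exp (-ζ))) * (N * Complex.exp (-ζ))) ζ := by
    refine ((hu.const_mul (N : ℂ)).neg).cexp.congr_deriv ?_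
    change Complex.exp (-(N * Complex.exp (-ζ))) * _ = _
    ring
  have h4a : HasDerivAt (fun z : ℂ => Complex.exp (-z) ^ 2)
      (-2 * Complex.exp (-ζ) ^ 2) ζ := by
    refine (hu.fun_pow 2).congr_deriv ?_
    push_cast
    ring
  have h4b : HasDerivAt (fun z : ℂ => (1 + Complex.exp (-z)) ^ 4)
      (-4 * (1 + Complex.exp (-ζ)) ^ 3 * Complex.exp (-ζ)) ζ := by
    refine (h1.fun_pow 4).congr_deriv ?_
    push_cast
    ring
  have h4 : HasDerivAt (fun z : ℂ => Complex.exp (-z) ^ 2 / (1 + Complex.exp (-z)) ^ 4)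
      (-(2 * Complex.exp (-ζ) ^ 2 / (1 + Complex.exp (-ζ)) ^ 4) +
          4 * Complex.exp (-ζ) ^ 3 / (1 + Complex.exp (-ζ)) ^ 5) ζ := by
    refine (h4a.fun_div h4b (pow_ne_zero 4 hne)).congr_deriv ?_
    field_simp
    ring
  have h5 : HasDerivAt (fun z : ℂ => -1 / (1 + Complex.exp (-z)) +
      B * (Complex.exp (-(N * Complex.exp (-z))) *
        (Complex.exp (-z) ^ 2 / (1 + Complex.exp (-z)) ^ 4))) _ ζ :=
    h2.fun_add ((h3.fun_mul h4).const_mul (B : ℂ))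
  refine h5.congr_deriv ?_
  generalize Complex.exp (-(N * Complex.exp (-ζ))) = E
  generalize Complex.exp (-ζ) = U at *
  congr 1
  field_simp
  ring

theorem ks_diff (B N : ℝ) : DifferentiableOn ℂ (KS B N) {ζ | |ζ.im| < Real.pi} :=
  fun _ hζ => (ks_hasDeriv B N hζ).differentiableAt.differentiableWithinAt

theorem ks_conj (B N : ℝ) (ζ : ℂ) : KS B N ((starRingEnd ℂ) ζ) = (starRingEnd ℂ) (KS B N ζ) := by
  unfold KS kk ka kb
  rw [← map_neg, Complex.exp_conj]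
  generalize Complex.exp (-ζ) = u
  have h : -(N * (starRingEnd ℂ) u) = (starRingEnd ℂ) (-(N * u)) := by
    simp
  rw [h, Complex.exp_conj]
  simp

private theorem exp_re_nonneg {ζ : ℂ} (h : |ζ.im| ≤ Real.pi / 2) : 0 ≤ (Complex.exp (-ζ)).re := by
  rw [Complex.exp_re, Complex.neg_im, Real.cos_neg]
  rw [abs_le] at h
  exact mul_nonneg (Real.exp_pos _).le (Real.cos_nonneg_of_neg_pi_div_two_le_of_le
    (by linarith [h.1]) h.2)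

theorem ks_bound {B N : ℝ} (hN : 0 ≤ N) {ζ : ℂ} (h : |ζ.im| ≤ Real.pi / 2) :
    ‖KS B N ζ‖ ≤ 1 + |B| ∧ ‖deriv (KS B N) ζ‖ ≤ 1 + |B| * (N + 6) := by
  have hu := exp_re_nonneg h
  have hpi := Real.pi_pos
  have hlt : |ζ.im| < Real.pi := by linarith
  obtain ⟨h1, h2, h3⟩ := s_facts hu
  constructor
  · have h5 : ‖KS B N ζ‖ ≤ ‖ka (Complex.exp (-ζ))‖ + |B| * ‖kb N (Complex.exp (-ζ))‖ := by
      unfold KS kk
      refine (norm_add_le _ _).trans ?_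
      rw [norm_mul, Complex.norm_real, Real.norm_eq_abs]
    have h6 : ‖ka (Complex.exp (-ζ))‖ ≤ 1 := by
      rw [norm_ka]
      exact (div_le_one (by linarith)).2 h1
    have h7 : ‖kb N (Complex.exp (-ζ))‖ ≤ 1 := by
      refine (norm_kb' hN hu).trans ((div_le_one (by positivity)).2 ?_)
      nlinarith
    nlinarith [abs_nonneg B]
  · rw [(ks_hasDeriv B N hlt).deriv]
    have hE := exp_le hN hu
    generalize Complex.exp (-(N * Complex.exp (-ζ))) = E at *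
    generalize Complex.exp (-ζ) = U at *
    have h4 : 0 < ‖1 + U‖ := by linarith
    have ha0 := norm_nonneg U
    have hq : ‖U‖ / ‖1 + U‖ ≤ 1 := (div_le_one h4).2 h2
    have hq0 : 0 ≤ ‖U‖ / ‖1 + U‖ := by positivity
    have hi : 1 / ‖1 + U‖ ≤ 1 := (div_le_one h4).2 h1
    have hi0 : 0 ≤ 1 / ‖1 + U‖ := by positivity
    have e1 : ‖-U / (1 + U) ^ 2‖ ≤ 1 := by
      rw [norm_div, norm_neg, norm_pow]
      have : ‖U‖ / ‖1 + U‖ ^ 2 = (‖U‖ / ‖1 + U‖) * (1 / ‖1 + U‖) := by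
        field_simp
      rw [this]
      exact mul_le_one₀ hq hi0 hi
    have e2 : ‖U ^ 3 / (1 + U) ^ 4‖ ≤ 1 := by
      rw [norm_div, norm_pow, norm_pow]
      have : ‖U‖ ^ 3 / ‖1 + U‖ ^ 4 = (‖U‖ / ‖1 + U‖) ^ 3 * (1 / ‖1 + U‖) := by
        field_simp
      rw [this]
      exact mul_le_one₀ (pow_le_one₀ hq0 hq) hi0 hi
    have e3 : ‖U ^ 2 / (1 + U) ^ 4‖ ≤ 1 := by
      rw [norm_div, norm_pow, norm_pow]
      have : ‖U‖ ^ 2 / ‖1 + U‖ ^ 4 = (‖U‖ / ‖1 + U‖) ^ 2 * (1 / ‖1 + U‖) ^ 2 := by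
        field_simp
      rw [this]
      exact mul_le_one₀ (pow_le_one₀ hq0 hq) (by positivity) (pow_le_one₀ hi0 hi)
    have e4 : ‖U ^ 3 / (1 + U) ^ 5‖ ≤ 1 := by
      rw [norm_div, norm_pow, norm_pow]
      have : ‖U‖ ^ 3 / ‖1 + U‖ ^ 5 = (‖U‖ / ‖1 + U‖) ^ 3 * (1 / ‖1 + U‖) ^ 2 := by
        field_simp
      rw [this]
      exact mul_le_one₀ (pow_le_one₀ hq0 hq) (by positivity) (pow_le_one₀ hi0 hi)
    have e5 : ‖N * U ^ 3 / (1 + U) ^ 4 - 2 * U ^ 2 / (1 + U) ^ 4 + 4 * U ^ 3 / (1 + U) ^ 5‖ ≤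
        N + 6 := by
      have t1 : ‖N * U ^ 3 / (1 + U) ^ 4‖ ≤ N := by
        rw [mul_div_assoc, norm_mul, Complex.norm_real, Real.norm_eq_abs, abs_of_nonneg hN]
        exact mul_le_of_le_one_right hN e2
      have t2 : ‖2 * U ^ 2 / (1 + U) ^ 4‖ ≤ 2 := by
        rw [mul_div_assoc, norm_mul]
        have : ‖(2 : ℂ)‖ = 2 := by simp
        rw [this]
        linarith
      have t3 : ‖4 * U ^ 3 / (1 + U) ^ 5‖ ≤ 4 := by
        rw [mul_div_assoc, norm_mul]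
        have : ‖(4 : ℂ)‖ = 4 := by simp
        rw [this]
        linarith
      refine (norm_add_le _ _).trans ?_
      have := norm_sub_le (N * U ^ 3 / (1 + U) ^ 4) (2 * U ^ 2 / (1 + U) ^ 4)
      linarith
    refine (norm_add_le _ _).trans (add_le_add e1 ?_)
    rw [norm_mul, Complex.norm_real, Real.norm_eq_abs, norm_mul]
    refine mul_le_mul_of_nonneg_left ?_ (abs_nonneg B)
    calc ‖E‖ * _ ≤ 1 * (N + 6) := mul_le_mul hE e5 (norm_nonneg _) zero_le_one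
      _ = N + 6 := one_mul _

theorem ks_im {B N : ℝ} (hN : 0 ≤ N) (ξ : ℝ) :
    |(KS B N (ξ + (Real.pi / 2 : ℝ) * Complex.I)).im| ≤
      (1 + |B|) * min (Real.exp ξ) (Real.exp (-ξ)) := by
  have hu : Complex.exp (-((ξ : ℂ) + (Real.pi / 2 : ℝ) * Complex.I)) =
      -((Real.exp (-ξ) : ℝ) : ℂ) * Complex.I := by
    rw [neg_add, Complex.exp_add, ← Complex.ofReal_neg, ← Complex.ofReal_exp]
    have : Complex.exp (-((Real.pi / 2 : ℝ) * Complex.I)) = -Complex.I := by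
      rw [Complex.exp_neg, Complex.exp_mul_I, ← Complex.ofReal_cos, ← Complex.ofReal_sin,
        Real.cos_pi_div_two, Real.sin_pi_div_two]
      simp
    rw [this]
    ring
  have hη := Real.exp_pos (-ξ)
  have hηξ : Real.exp ξ = 1 / Real.exp (-ξ) := by
    rw [Real.exp_neg]
    simp
  unfold KS
  rw [hu, hηξ]
  generalize Real.exp (-ξ) = η at *
  have hre : 0 ≤ (-(η : ℂ) * Complex.I).re := by simp
  have hn1 : ‖-(η : ℂ) * Complex.I‖ = η := by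
    rw [norm_mul, norm_neg, Complex.norm_I, mul_one, Complex.norm_real, Real.norm_eq_abs,
      abs_of_pos hη]
  have hn2 : ‖1 + -(η : ℂ) * Complex.I‖ ^ 2 = 1 + η ^ 2 := by
    rw [Complex.sq_norm, Complex.normSq_apply]
    simp
    ring
  have hb : ‖kb N (-(η : ℂ) * Complex.I)‖ ≤ η / (1 + η ^ 2) := by
    refine (norm_kb hN hre).trans ?_
    have : ‖1 + -(η : ℂ) * Complex.I‖ ^ 4 = (1 + η ^ 2) ^ 2 := by
      rw [← hn2]
      ring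
    rw [this, hn1, div_le_div_iff₀ (by positivity) (by positivity)]
    nlinarith [sq_nonneg (η - 1), sq_nonneg η, mul_pos hη (by positivity : 0 < 1 + η ^ 2)]
  have ha : |(ka (-(η : ℂ) * Complex.I)).im| ≤ η / (1 + η ^ 2) := by
    have : (ka (-(η : ℂ) * Complex.I)).im = -(η / (1 + η ^ 2)) := by
      unfold ka
      rw [Complex.div_im, ← Complex.sq_norm, hn2]
      simp
    rw [this, abs_neg, abs_of_pos (by positivity)]
  have hm : η / (1 + η ^ 2) ≤ min (1 / η) η := by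
    refine le_min ?_ ?_
    · rw [div_le_div_iff₀ (by positivity) hη]
      nlinarith
    · rw [div_le_iff₀ (by positivity)]
      nlinarith [pow_pos hη 3]
  have hk : |(kk B N (-(η : ℂ) * Complex.I)).im| ≤
      |(ka (-(η : ℂ) * Complex.I)).im| + |B| * ‖kb N (-(η : ℂ) * Complex.I)‖ := by
    unfold kk
    rw [Complex.add_im, Complex.im_ofReal_mul]
    refine (abs_add_le _ _).trans (add_le_add le_rfl ?_)
    rw [abs_mul]
    exact mul_le_mul_of_nonneg_left (Complex.abs_im_le_norm _) (abs_nonneg B)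
  have hB := abs_nonneg B
  calc |(kk B N (-(η : ℂ) * Complex.I)).im| ≤ η / (1 + η ^ 2) + |B| * (η / (1 + η ^ 2)) :=
      hk.trans (add_le_add ha (mul_le_mul_of_nonneg_left hb hB))
    _ = (1 + |B|) * (η / (1 + η ^ 2)) := by ring
    _ ≤ (1 + |B|) * min (1 / η) η := mul_le_mul_of_nonneg_left hm (by positivity)

theorem mm_int {p : ℝ} (hp : 1 / 4 < p) : ∃ C c : ℝ, 0 < C ∧ 0 < c ∧ ∀ ξ₀ : ℝ,
    IntegrableOn (mm p) (Iic ξ₀) ∧ ∫ ξ in Iic ξ₀, mm p ξ ≤ C * mm p ξ₀ ∧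
      c * mm p ξ₀ ≤ ∫ ξ in Iic ξ₀, mm p ξ := FoB.mm_int hp

theorem mm_eq (p ξ : ℝ) : min (Real.exp ξ) (Real.exp (-ξ)) * Real.exp (4 * p * ξ) = mm p ξ :=
  FoB.mm_eq p ξ

theorem first_order {p : ℝ} (hp : 1 / 4 < p) : ∃ c₀ c : ℝ, 0 < c₀ ∧ 0 < c ∧
    ∀ B N : ℝ, 0 < N → |B| ≤ c₀ * N → ∀ ξ₀ : ℝ,
      ∫ ξ in Iic ξ₀, (KS B N (ξ + (Real.pi / 2 : ℝ) * Complex.I)).im * Real.exp (4 * p * ξ) ≤
        -(c * mm p ξ₀) := FoB.first_order hp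

end MQK
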