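import Pool.Agent.MQK.Kli
import Pool.Agent.MQK.Kfo

set_option autoImplicit false

/-!
# MQK KT2 : the terms linear in `ε`, and the remainder

`m = 2n/Y`.  On the line `Re w = x`, `|Im w| ≤ πn`, `x ≤ 2n`: `W = Wd (e^{-w/n})`, `2n ‖W‖ ≥ (2/5) ‖w‖`,
so `‖bs‖ = ‖W‖^(-2p) ≤ (2n)^(2p) ((2/5)‖w‖)^(-2p)` and `1 + ‖mW‖ ≥ max(1, (2/5)‖w‖/Y)`.
* `cost_le` (`x = 1`, `q = 2p`): `‖ka (mW)‖ ≤ 2/(1+‖mW‖) ≤ 2 (Y/((2/5)‖w‖))^(1-p)` (`max(1,t) ≥ t^(1-p)`), so
  `D y = C Y^(1-p) ‖1+iy‖^(-(1+p))`, integrable.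
* `osc_lim` (`x = Y`, `q = 2p`): `‖kb N (mW)‖ ≤ 4/(1+‖mW‖)² ≤ 4 (Y/((2/5)‖w‖))²`, `D y = C ‖Y+iy‖^(-2p-2)`; limit
  `Φ y = 4^p exp (-2p log w) kb N (w/Y)`, `w = Y + iy` (`wd_tendsto`, `bs_tendsto`, continuity of `kb`).
  Substituting `y = Y η` and using `log (Y (1+iη)) = log Y + log (1+iη)`:
  `∫ Φ y e^{w} dy = 4^p Y^(1-2p) ∫ (1+iη)^(-2p) e^{-N(1+iη)} (1+iη)²/(2+iη)⁴ e^{(N+t)(1+iη)} dη`
  `= 4^p Y^(1-2p) 2π gn p t`.
* `rem_le` (`x = 1`, `q = 2p`): `‖e^s - 1 - s‖ ≤ ‖s‖² e^{‖s‖}` (`Complex.norm_exp_sub_sum_le_norm_mul_exp`), with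
  `s = ε kk`, `‖kk‖ ≤ 2(1+|B|)/(1+‖mW‖)`; `D y = ε² C ‖1+iy‖^(-2p-2)`-type bound using
  `1/(1+‖mW‖)² ≤ (Y/((2/5)‖w‖))²` and `≤ 1`.
-/

open MeasureTheory Metric Set Filter Topology

namespace MQK

/-! ### bounds on the line `Re w = 1` -/

private theorem kt_norm (y : ℝ) : ‖((1 : ℝ) : ℂ) + y * Complex.I‖ = Real.sqrt (1 + ‖y‖ ^ 2) := by
  rw [Complex.norm_eq_sqrt_sq_add_sq]
  congr 1
  simp

private theorem kt_norm_rpow (y r : ℝ) :
    ‖((1 : ℝ) : ℂ) + y * Complex.I‖ ^ (-r) = ((1 : ℝ) + ‖y‖ ^ 2) ^ (-r / 2) := by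
  rw [kt_norm, Real.sqrt_eq_rpow, ← Real.rpow_mul (by positivity)]
  congr 1
  ring

private theorem kt_ball {n : ℕ} (hn : 1 ≤ n) (y : ℝ) :
    Complex.exp (-(((1 : ℝ) : ℂ) + y * Complex.I) / n) ∈ ball (0 : ℂ) 1 := by
  rw [mem_ball_zero_iff, Complex.norm_exp]
  have h1 : (-(((1 : ℝ) : ℂ) + y * Complex.I) / n).re = -1 / n := by
    have h2 : (-(((1 : ℝ) : ℂ) + y * Complex.I) / n) =
        ((-1 / n : ℝ) : ℂ) + ((-y / n : ℝ) : ℂ) * Complex.I := by
      push_cast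
      ring
    rw [h2, Complex.add_re, Complex.ofReal_re, Complex.re_ofReal_mul, Complex.I_re, mul_zero,
      add_zero]
  rw [h1, Real.exp_lt_one_iff]
  have hn' : (0 : ℝ) < n := by exact_mod_cast hn
  exact div_neg_of_neg_of_pos (by norm_num) hn'

private theorem kt_line {p : ℝ} (hp : 0 < p) {Y : ℝ} (hY : 0 < Y) {n : ℕ} (hn : 1 ≤ n) {y : ℝ}
    (hy : |y| ≤ Real.pi * n) :
    ‖bs p (Complex.exp (-(((1 : ℝ) : ℂ) + y * Complex.I) / n))‖ ≤
        (n : ℝ) ^ (2 * p) * (5 ^ (2 * p) * ‖((1 : ℝ) : ℂ) + y * Complex.I‖ ^ (-(2 * p))) ∧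
      2 / 5 * ‖((1 : ℝ) : ℂ) + y * Complex.I‖ / Y ≤
        ‖((2 * n / Y : ℝ) : ℂ) * Wd (Complex.exp (-(((1 : ℝ) : ℂ) + y * Complex.I) / n))‖ ∧
      0 ≤ (((2 * n / Y : ℝ) : ℂ) *
        Wd (Complex.exp (-(((1 : ℝ) : ℂ) + y * Complex.I) / n))).re := by
  have hn' : (0 : ℝ) < n := by exact_mod_cast hn
  have hn1 : (1 : ℝ) ≤ n := by exact_mod_cast hn
  set w : ℂ := ((1 : ℝ) : ℂ) + y * Complex.I with hw
  have hb := kt_ball hn y
  rw [← hw] at hb
  have hre : w.re = 1 := by simp [hw]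
  have him : w.im = y := by simp [hw]
  have h1 := wd_line hn (w := w) (by rw [hre]; exact one_pos) (by rw [hre]; linarith)
    (by rw [him]; exact hy)
  have hw0 : 0 < ‖w‖ := by
    rw [norm_pos_iff]
    intro h
    rw [h] at hre
    simp at hre
  have hW := wd_re hb
  refine ⟨?_, ?_, ?_⟩
  · rw [bs_norm p hb]
    have h2 : ‖w‖ / (5 * n) ≤ ‖Wd (Complex.exp (-w / n))‖ := by
      rw [div_le_iff₀ (by positivity)]
      linarith
    have h3 : 0 < ‖w‖ / (5 * n) := by positivity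
    refine (Real.rpow_le_rpow_of_nonpos h3 h2 (by linarith)).trans (le_of_eq ?_)
    rw [Real.div_rpow hw0.le (by positivity), Real.rpow_neg (x := 5 * (n : ℝ)) (by positivity),
      Real.mul_rpow (by norm_num) hn'.le, div_inv_eq_mul]
    ring
  · rw [norm_mul, Complex.norm_real, Real.norm_of_nonneg (by positivity), div_le_iff₀ hY]
    have h2 : 2 * (n : ℝ) / Y * ‖Wd (Complex.exp (-w / n))‖ * Y =
        2 * n * ‖Wd (Complex.exp (-w / n))‖ := by
      field_simp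
    rw [h2]
    exact h1
  · rw [Complex.re_ofReal_mul]
    positivity

private theorem kt_one_add {n : ℕ} {Y : ℝ} (hY : 0 < Y) {z : ℂ} (hz : z ∈ ball (0 : ℂ) 1) :
    (1 : ℂ) + ((2 * n / Y : ℝ) : ℂ) * Wd z ≠ 0 := by
  intro h
  have h1 := congrArg Complex.re h
  rw [Complex.add_re, Complex.re_ofReal_mul, Complex.one_re, Complex.zero_re] at h1
  have h2 := wd_re hz
  have h3 : 0 ≤ 2 * (n : ℝ) / Y * (Wd z).re := by positivity
  linarith

private theorem kt_udiff (n : ℕ) (Y : ℝ) :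
    DifferentiableOn ℂ (fun z => ((2 * n / Y : ℝ) : ℂ) * Wd z) (ball 0 1) :=
  wd_diff.const_mul _

private theorem kt_kadiff (n : ℕ) {Y : ℝ} (hY : 0 < Y) :
    DifferentiableOn ℂ (fun z => ka (((2 * n / Y : ℝ) : ℂ) * Wd z)) (ball 0 1) := by
  unfold ka
  exact (differentiableOn_const _).div ((kt_udiff n Y).const_add 1) fun z hz => kt_one_add hY hz

private theorem kt_kbdiff (N : ℝ) (n : ℕ) {Y : ℝ} (hY : 0 < Y) :
    DifferentiableOn ℂ (fun z => kb N (((2 * n / Y : ℝ) : ℂ) * Wd z)) (ball 0 1) := by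
  unfold kb
  refine DifferentiableOn.mul ?_ ?_
  · exact (((kt_udiff n Y).const_mul _).neg).cexp
  · exact ((kt_udiff n Y).pow 2).div (((kt_udiff n Y).const_add 1).pow 4)
      fun z hz => pow_ne_zero 4 (kt_one_add hY hz)

private theorem kt_kkdiff (B N : ℝ) (n : ℕ) {Y : ℝ} (hY : 0 < Y) :
    DifferentiableOn ℂ (fun z => kk B N (((2 * n / Y : ℝ) : ℂ) * Wd z)) (ball 0 1) := by
  unfold kk
  exact (kt_kadiff n hY).add ((kt_kbdiff N n hY).const_mul _)

private theorem kt_rpow_le {t r : ℝ} (ht : 0 < t) (hr : 0 ≤ r) (hr1 : r ≤ 1) : t ^ r ≤ 1 + t := by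
  rcases le_total t 1 with h | h
  · have := Real.rpow_le_one ht.le h hr
    linarith
  · have := Real.rpow_le_rpow_of_exponent_le h hr1
    rw [Real.rpow_one] at this
    linarith

theorem cost_le {p : ℝ} (hp : 0 < p) (hp1 : p < 1) : ∃ C : ℝ, 0 < C ∧ ∀ Y : ℝ, 1 ≤ Y →
    ∀ n : ℕ, 1 ≤ n →
      ‖MPV.coef (fun z => bs p z * ka ((2 * n / Y : ℝ) * Wd z)) n‖ ≤
        C * Y ^ (1 - p) * (n : ℝ) ^ (2 * p - 1) := by
  obtain ⟨C1, hC1⟩ : ∃ C1 : ℝ, C1 = 5 ^ (2 * p) * (2 * (5 / 2) ^ (1 - p)) := ⟨_, rfl⟩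
  have hC1p : 0 < C1 := by rw [hC1]; positivity
  obtain ⟨J, hJ⟩ : ∃ J : ℝ, J = ∫ y : ℝ, ((1 : ℝ) + ‖y‖ ^ 2) ^ (-(1 + p) / 2) := ⟨_, rfl⟩
  have hJ0 : 0 ≤ J := by
    rw [hJ]
    exact integral_nonneg fun y => by positivity
  have hint : Integrable fun y : ℝ => ((1 : ℝ) + ‖y‖ ^ 2) ^ (-(1 + p) / 2) :=
    integrable_rpow_neg_one_add_norm_sq (by simp; exact hp)
  refine ⟨Real.exp 1 / (2 * Real.pi) * (C1 * J) + 1, by positivity, fun Y hY n hn => ?_⟩
  have hY0 : 0 < Y := by linarith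
  have hn' : (0 : ℝ) < n := by exact_mod_cast hn
  have h := coef_le (f := fun z => bs p z * ka ((2 * n / Y : ℝ) * Wd z)) (q := 2 * p)
    ((bs_diff p).mul (kt_kadiff n hY0)) hn (x := 1) one_pos
    (D := fun y => C1 * Y ^ (1 - p) * ((1 : ℝ) + ‖y‖ ^ 2) ^ (-(1 + p) / 2))
    (hint.const_mul _) (fun y => by positivity) (by
      intro y hy
      obtain ⟨h1, h2, h3⟩ := kt_line hp hY0 hn hy
      have hkb := (kk_bound (B := 0) (le_refl (0 : ℝ)) h3).2.1
      change ‖bs p (Complex.exp (-(((1 : ℝ) : ℂ) + y * Complex.I) / n)) *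
        ka (((2 * n / Y : ℝ) : ℂ) * Wd (Complex.exp (-(((1 : ℝ) : ℂ) + y * Complex.I) / n)))‖ ≤ _
      set w : ℂ := ((1 : ℝ) : ℂ) + y * Complex.I with hw
      have hw0 : 0 < ‖w‖ := by
        rw [hw, kt_norm]
        positivity
      set u := ((2 * n / Y : ℝ) : ℂ) * Wd (Complex.exp (-w / n)) with hu
      have ht : 0 < 2 / 5 * ‖w‖ / Y := by positivity
      have h4 : ‖ka u‖ ≤ 2 * (5 / 2) ^ (1 - p) * Y ^ (1 - p) * ‖w‖ ^ (-(1 - p)) := by
        refine hkb.trans ?_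
        have h5 : (2 / 5 * ‖w‖ / Y) ^ (1 - p) ≤ 1 + ‖u‖ :=
          (kt_rpow_le ht (by linarith) (by linarith)).trans (by linarith)
        have h6 : 0 < (2 / 5 * ‖w‖ / Y) ^ (1 - p) := by positivity
        refine (div_le_div_of_nonneg_left (by norm_num) h6 h5).trans (le_of_eq ?_)
        have h7 : 2 / 5 * ‖w‖ / Y = (5 / 2)⁻¹ * ‖w‖ / Y := by norm_num
        rw [h7, Real.div_rpow (by positivity) hY0.le, Real.mul_rpow (by norm_num) hw0.le,
          Real.inv_rpow (by norm_num), Real.rpow_neg hw0.le]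
        have h8 : (0 : ℝ) < (5 / 2) ^ (1 - p) := by positivity
        have h9 : 0 < ‖w‖ ^ (1 - p) := by positivity
        have h10 : 0 < Y ^ (1 - p) := by positivity
        field_simp
      rw [norm_mul]
      calc ‖bs p (Complex.exp (-w / n))‖ * ‖ka u‖ ≤
          ((n : ℝ) ^ (2 * p) * (5 ^ (2 * p) * ‖w‖ ^ (-(2 * p)))) *
            (2 * (5 / 2) ^ (1 - p) * Y ^ (1 - p) * ‖w‖ ^ (-(1 - p))) := by
              gcongr
        _ = (n : ℝ) ^ (2 * p) * (C1 * Y ^ (1 - p) * (‖w‖ ^ (-(2 * p)) * ‖w‖ ^ (-(1 - p)))) := by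
              rw [hC1]
              ring
        _ = _ := by
              rw [← Real.rpow_add hw0, show -(2 * p) + -(1 - p) = -(1 + p) by ring, hw,
                kt_norm_rpow])
  refine h.trans ?_
  rw [integral_const_mul, ← hJ]
  have hYp : 1 ≤ Y ^ (1 - p) := Real.one_le_rpow hY (by linarith)
  have hnp : 0 < (n : ℝ) ^ (2 * p - 1) := by positivity
  have h1 : Real.exp 1 / (2 * Real.pi) * (C1 * Y ^ (1 - p) * J) ≤
      (Real.exp 1 / (2 * Real.pi) * (C1 * J) + 1) * Y ^ (1 - p) := by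
    have h2 : Real.exp 1 / (2 * Real.pi) * (C1 * Y ^ (1 - p) * J) =
      Real.exp 1 / (2 * Real.pi) * (C1 * J) * Y ^ (1 - p) := by ring
    rw [h2, add_mul]
    linarith
  exact mul_le_mul_of_nonneg_right h1 hnp.le

private theorem kt2_mem {n : ℕ} (hn : 1 ≤ n) {w : ℂ} (hw : 0 < w.re) :
    Complex.exp (-w / n) ∈ ball (0 : ℂ) 1 := by
  rw [mem_ball_zero_iff, Complex.norm_exp]
  have hn0 : (0 : ℝ) < n := by exact_mod_cast hn
  have h1 : (-w / (n : ℂ)).re = -(w.re / n) := by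
    rw [Complex.div_natCast_re, Complex.neg_re, neg_div]
  rw [h1, Real.exp_lt_one_iff]
  have : 0 < w.re / n := div_pos hw hn0
  linarith

private theorem kt2_ne {u : ℂ} (hu : 0 ≤ u.re) : 1 + u ≠ 0 := by
  intro h
  have := congrArg Complex.re h
  simp only [Complex.add_re, Complex.one_re, Complex.zero_re] at this
  linarith

private theorem kt2_diff (p N m : ℝ) (hm : 0 ≤ m) :
    DifferentiableOn ℂ (fun z => bs p z * kb N ((m : ℝ) * Wd z)) (ball 0 1) := by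
  refine (bs_diff p).mul ?_
  have h1 : DifferentiableOn ℂ (fun z => (m : ℂ) * Wd z) (ball 0 1) := wd_diff.const_mul _
  have h2 : ∀ z ∈ ball (0 : ℂ) 1, (1 + (m : ℂ) * Wd z) ^ 4 ≠ 0 := by
    intro z hz
    apply pow_ne_zero
    apply kt2_ne
    rw [Complex.re_ofReal_mul]
    exact mul_nonneg hm (wd_re hz).le
  unfold kb
  exact ((h1.const_mul (N : ℂ)).neg.cexp).mul ((h1.pow 2).div (((differentiableOn_const 1).add h1).pow 4) h2)

private theorem kt2_cont (N : ℝ) {u : ℂ} (hu : 0 < u.re) : ContinuousAt (kb N) u := by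
  unfold kb
  have h2 : (1 + u) ^ 4 ≠ 0 := pow_ne_zero _ (kt2_ne hu.le)
  exact (by fun_prop : ContinuousAt (fun u : ℂ => Complex.exp (-(N * u))) u).mul
    (((continuousAt_id).pow 2).div ((continuousAt_const.add continuousAt_id).pow 4) h2)

private theorem kt2_int {Y : ℝ} (hY : 0 < Y) (g : ℝ → ℂ) :
    ∫ y, g y = (Y : ℂ) * ∫ η, g (Y * η) := by
  rw [Measure.integral_comp_mul_left g Y, abs_of_pos (inv_pos.2 hY), Complex.real_smul,
    ← mul_assoc, ← Complex.ofReal_mul, mul_inv_cancel₀ hY.ne', Complex.ofReal_one, one_mul]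

theorem osc_lim {p N t : ℝ} (hp : 0 < p) (hp1 : p < 1) (hN : 0 ≤ N) (hY : 0 < N + t) :
    Tendsto (fun n : ℕ => (((n : ℝ) ^ (1 - 2 * p) : ℝ) : ℂ) *
      MPV.coef (fun z => bs p z * kb N ((2 * n / (N + t) : ℝ) * Wd z)) n) atTop
      (𝓝 (((4 : ℝ) ^ p * (N + t) ^ (1 - 2 * p) : ℝ) * gn p t)) := by
  set Y : ℝ := N + t with hYd
  -- the dominating function
  have hre : ∀ y : ℝ, ((Y : ℂ) + y * Complex.I).re = Y := by
    intro y
    simp
  have him : ∀ y : ℝ, ((Y : ℂ) + y * Complex.I).im = y := by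
    intro y
    simp
  have hnorm : ∀ y : ℝ, ‖(Y : ℂ) + y * Complex.I‖ ^ 2 = Y ^ 2 + y ^ 2 := by
    intro y
    rw [← Complex.normSq_eq_norm_sq, Complex.normSq_apply, hre, him]
    ring
  have hYn : ∀ y : ℝ, Y ≤ ‖(Y : ℂ) + y * Complex.I‖ := by
    intro y
    have := Complex.re_le_norm ((Y : ℂ) + y * Complex.I)
    rwa [hre] at this
  set D : ℝ → ℝ := fun y => 25 * (Y / 5) ^ (-(2 * p)) * (1 + (y / Y) ^ 2)⁻¹ with hD
  have hDi : Integrable D := by
    refine Integrable.const_mul ?_ _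
    exact integrable_inv_one_add_sq.comp_div hY.ne'
  have hD0 : ∀ y, 0 ≤ D y := fun y => by
    simp only [hD]
    positivity
  have hdiff : ∀ n : ℕ, DifferentiableOn ℂ
      (fun z => bs p z * kb N ((2 * n / Y : ℝ) * Wd z)) (ball 0 1) := fun n =>
    kt2_diff p N _ (by positivity)
  have hb : ∀ᶠ n : ℕ in atTop, ∀ y : ℝ, |y| ≤ Real.pi * n →
      ‖MQV.gs (fun z => bs p z * kb N ((2 * n / Y : ℝ) * Wd z)) n (Y + y * Complex.I)‖ ≤
        (n : ℝ) ^ (2 * p) * D y := by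
    obtain ⟨n₀, hn₀⟩ := exists_nat_ge Y
    filter_upwards [eventually_ge_atTop (max n₀ 1)] with n hn y hy
    have hn1 : 1 ≤ n := le_trans (le_max_right _ _) hn
    have hnY : Y ≤ 2 * n := by
      have h1 : (n₀ : ℝ) ≤ n := by exact_mod_cast le_trans (le_max_left _ _) hn
      have h2 : (0 : ℝ) ≤ n := by positivity
      linarith
    have hn0 : (0 : ℝ) < n := by exact_mod_cast hn1
    set w : ℂ := (Y : ℂ) + y * Complex.I with hw
    have hwre : 0 < w.re := by rw [hre]; exact hY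
    have hl := wd_line hn1 hwre (by rw [hre]; exact hnY) (by rw [him]; exact hy)
    have hz := kt2_mem hn1 hwre
    set W : ℂ := Wd (Complex.exp (-w / n)) with hW
    have hWre : 0 < W.re := wd_re hz
    have hw0 : 0 < ‖w‖ := lt_of_lt_of_le hY (hYn y)
    have hW0 : 0 < ‖W‖ := by
      rw [norm_pos_iff]
      intro h
      rw [h] at hWre
      simp at hWre
    have hgs : MQV.gs (fun z => bs p z * kb N ((2 * n / Y : ℝ) * Wd z)) n w =
        bs p (Complex.exp (-w / n)) * kb N ((2 * n / Y : ℝ) * W) := rfl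
    rw [hgs, norm_mul, bs_norm p hz, ← hW]
    have hmW : 0 ≤ (((2 * n / Y : ℝ) : ℂ) * W).re := by
      rw [Complex.re_ofReal_mul]
      exact mul_nonneg (by positivity) hWre.le
    have hk := (kk_bound (B := 0) hN hmW).2.2
    have hWl : ‖w‖ / (5 * n) ≤ ‖W‖ := by
      rw [div_le_iff₀ (by positivity)]
      linarith
    have h1 : ‖W‖ ^ (-(2 * p)) ≤ (n : ℝ) ^ (2 * p) * (Y / 5) ^ (-(2 * p)) := by
      have h2 : ‖W‖ ^ (-(2 * p)) ≤ (‖w‖ / (5 * n)) ^ (-(2 * p)) :=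
        Real.rpow_le_rpow_of_nonpos (by positivity) hWl (by linarith)
      have h3 : (‖w‖ / (5 * n)) ^ (-(2 * p)) ≤ (Y / 5 / n) ^ (-(2 * p)) := by
        refine Real.rpow_le_rpow_of_nonpos (by positivity) ?_ (by linarith)
        rw [div_div]
        exact div_le_div_of_nonneg_right (hYn y) (by positivity)
      refine h2.trans (h3.trans (le_of_eq ?_))
      rw [Real.div_rpow (by positivity) hn0.le, Real.rpow_neg hn0.le, div_inv_eq_mul, mul_comm]
    have h4 : ‖kb N ((2 * n / Y : ℝ) * W)‖ ≤ 25 * (1 + (y / Y) ^ 2)⁻¹ := by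
      have h5 : ‖((2 * n / Y : ℝ) : ℂ) * W‖ = 2 * n / Y * ‖W‖ := by
        rw [norm_mul, Complex.norm_real, Real.norm_of_nonneg (by positivity)]
      rw [h5] at hk
      have h6 : 2 / 5 * ‖w‖ / Y ≤ 2 * n / Y * ‖W‖ := by
        rw [show 2 * (n : ℝ) / Y * ‖W‖ = 2 * n * ‖W‖ / Y by ring]
        exact div_le_div_of_nonneg_right hl hY.le
      have h7 : (0 : ℝ) < 2 / 5 * ‖w‖ / Y := by positivity
      refine hk.trans ?_
      have h8 : 4 / (1 + 2 * n / Y * ‖W‖) ^ 2 ≤ 4 / (2 / 5 * ‖w‖ / Y) ^ 2 := by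
        refine div_le_div_of_nonneg_left (by norm_num) (by positivity) ?_
        exact pow_le_pow_left₀ h7.le (by linarith) 2
      refine h8.trans (le_of_eq ?_)
      have h9 : (2 / 5 * ‖w‖ / Y) ^ 2 = 4 / 25 * (1 + (y / Y) ^ 2) := by
        have : (2 / 5 * ‖w‖ / Y) ^ 2 = 4 / 25 * (‖w‖ ^ 2 / Y ^ 2) := by
          field_simp
          ring
        rw [this, hw, hnorm y]
        field_simp
      rw [h9]
      field_simp
    calc ‖W‖ ^ (-(2 * p)) * ‖kb N ((2 * n / Y : ℝ) * W)‖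
        ≤ ((n : ℝ) ^ (2 * p) * (Y / 5) ^ (-(2 * p))) * (25 * (1 + (y / Y) ^ 2)⁻¹) :=
          mul_le_mul h1 h4 (norm_nonneg _) (by positivity)
      _ = (n : ℝ) ^ (2 * p) * D y := by
          simp only [hD]
          ring
  set Φ : ℝ → ℂ := fun y => ((4 : ℝ) ^ p : ℝ) * Complex.exp (-(2 * p) *
    Complex.log (Y + y * Complex.I)) * kb N ((Y + y * Complex.I) / Y) with hΦ
  have hlim : ∀ y : ℝ, Tendsto (fun n : ℕ => (((n : ℝ) ^ (-(2 * p)) : ℝ) : ℂ) *
      MQV.gs (fun z => bs p z * kb N ((2 * n / Y : ℝ) * Wd z)) n (Y + y * Complex.I)) atTop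
        (𝓝 (Φ y)) := by
    intro y
    set w : ℂ := (Y : ℂ) + y * Complex.I with hw
    have hwre : 0 < w.re := by rw [hre]; exact hY
    have h1 := bs_tendsto p hwre
    have h2 := wd_tendsto hwre
    have h3 : Tendsto (fun n : ℕ => ((2 * n / Y : ℝ) : ℂ) * Wd (Complex.exp (-w / n))) atTop
        (𝓝 (w / Y)) := by
      have h4 := h2.div_const (Y : ℂ)
      refine h4.congr (fun n => ?_)
      push_cast
      ring
    have hwY : 0 < (w / Y).re := by
      rw [Complex.div_ofReal_re]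
      exact div_pos hwre hY
    have h5 := (kt2_cont N hwY).tendsto.comp h3
    have h6 := h1.mul h5
    refine h6.congr (fun n => ?_)
    simp only [MQV.gs, Function.comp]
    ring
  have h := coef_lim (f := fun (n : ℕ) z => bs p z * kb N ((2 * n / Y : ℝ) * Wd z)) (x := Y)
    (q := 2 * p) hdiff hY hDi hD0 hb (Φ := Φ) hlim
  have hpt : ∀ η : ℝ, Φ (Y * η) * Complex.exp (Y + ((Y * η : ℝ) : ℂ) * Complex.I) =
      (((4 : ℝ) ^ p * Y ^ (-(2 * p)) : ℝ) : ℂ) *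
        (ph p η * Complex.exp (t * (1 + η * Complex.I))) := by
    intro η
    have hYC : (Y : ℂ) ≠ 0 := by exact_mod_cast hY.ne'
    have h1 : (Y : ℂ) + ((Y * η : ℝ) : ℂ) * Complex.I = Y * (1 + η * Complex.I) := by
      push_cast
      ring
    have h2 : (1 + η * Complex.I : ℂ) ≠ 0 := by
      apply kt2_ne
      simp
    have h3 : (Y : ℂ) * (1 + η * Complex.I) / Y = 1 + η * Complex.I := by
      field_simp
    simp only [hΦ]
    rw [h1, h3, Complex.log_ofReal_mul hY h2]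
    have h4 : Complex.exp (-(2 * p) * (((Real.log Y : ℝ) : ℂ) + Complex.log (1 + η * Complex.I))) =
        ((Y ^ (-(2 * p)) : ℝ) : ℂ) * Complex.exp (-(2 * p) * Complex.log (1 + η * Complex.I)) := by
      rw [mul_add, Complex.exp_add]
      congr 1
      rw [Real.rpow_def_of_pos hY]
      push_cast
      congr 1
      ring
    rw [h4]
    unfold kb ph
    have h5 : Complex.exp ((2 - 2 * p) * Complex.log (1 + η * Complex.I)) =
        (1 + η * Complex.I) ^ 2 * Complex.exp (-(2 * p) * Complex.log (1 + η * Complex.I)) := by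
      have h6 : (1 + η * Complex.I : ℂ) ^ 2 = Complex.exp (2 * Complex.log (1 + η * Complex.I)) := by
        rw [two_mul, Complex.exp_add, Complex.exp_log h2]
        ring
      rw [h6, ← Complex.exp_add]
      congr 1
      ring
    have h7 : Complex.exp ((Y : ℂ) * (1 + η * Complex.I)) =
        Complex.exp (N * (1 + η * Complex.I)) * Complex.exp (t * (1 + η * Complex.I)) := by
      rw [← Complex.exp_add]
      congr 1
      rw [hYd]
      push_cast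
      ring
    have h8 : Complex.exp (-((N : ℂ) * (1 + η * Complex.I))) *
        Complex.exp (N * (1 + η * Complex.I)) = 1 := by
      rw [← Complex.exp_add, neg_add_cancel, Complex.exp_zero]
    have h9 : (1 + (1 + η * Complex.I) : ℂ) = 2 + η * Complex.I := by ring
    rw [h5, h7, h9, Complex.ofReal_mul ((4 : ℝ) ^ p)]
    calc _ = (Complex.exp (-((N : ℂ) * (1 + η * Complex.I))) *
        Complex.exp (N * (1 + η * Complex.I))) * ((((4 : ℝ) ^ p : ℝ) : ℂ) *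
          ((Y ^ (-(2 * p)) : ℝ) : ℂ) *
          ((1 + η * Complex.I) ^ 2 * Complex.exp (-(2 * p) * Complex.log (1 + η * Complex.I)) /
            (2 + η * Complex.I) ^ 4 * Complex.exp (t * (1 + η * Complex.I)))) := by
          ring
      _ = _ := by
          rw [h8, one_mul]
  have heq : 1 / (2 * Real.pi) * ∫ y : ℝ, Φ y * Complex.exp (Y + y * Complex.I) =
      (((4 : ℝ) ^ p * Y ^ (1 - 2 * p) : ℝ) : ℂ) * gn p t := by
    rw [kt2_int hY]
    have h1 : ∀ η : ℝ, Φ (Y * η) * Complex.exp (Y + ((Y * η : ℝ) : ℂ) * Complex.I) =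
      (((4 : ℝ) ^ p * Y ^ (-(2 * p)) : ℝ) : ℂ) *
        (ph p η * Complex.exp (t * (1 + η * Complex.I))) := hpt
    simp only [h1]
    rw [integral_const_mul]
    unfold gn
    have h2 : (4 : ℝ) ^ p * Y ^ (1 - 2 * p) = Y * ((4 : ℝ) ^ p * Y ^ (-(2 * p))) := by
      rw [show (1 : ℝ) - 2 * p = 1 + (-(2 * p)) by ring, Real.rpow_add hY, Real.rpow_one]
      ring
    rw [h2, Complex.ofReal_mul Y]
    ring
  rw [heq] at h
  exact h

theorem rem_le {p B N Y : ℝ} (hp : 0 < p) (hN : 0 ≤ N) (hY : 0 < Y) : ∃ C : ℝ, 0 < C ∧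
    ∀ ε : ℝ, 0 ≤ ε → ε ≤ 1 → ∀ n : ℕ, 1 ≤ n →
      ‖MPV.coef (fun z => bs p z * (Complex.exp (ε * kk B N ((2 * n / Y : ℝ) * Wd z)) - 1 -
        ε * kk B N ((2 * n / Y : ℝ) * Wd z))) n‖ ≤ C * ε ^ 2 * (n : ℝ) ^ (2 * p - 1) := by
  obtain ⟨C2, hC2⟩ : ∃ C2 : ℝ, C2 = 2 * (1 + |B|) := ⟨_, rfl⟩
  have hC2p : 0 < C2 := by rw [hC2]; positivity
  obtain ⟨C1, hC1⟩ : ∃ C1 : ℝ, C1 = 5 ^ (2 * p) * (C2 ^ 2 * Real.exp C2 * (5 / 2 * Y) ^ 2) :=
    ⟨_, rfl⟩
  have hC1p : 0 < C1 := by rw [hC1]; positivity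
  obtain ⟨J, hJ⟩ : ∃ J : ℝ, J = ∫ y : ℝ, ((1 : ℝ) + ‖y‖ ^ 2) ^ (-(2 * p + 2) / 2) := ⟨_, rfl⟩
  have hJ0 : 0 ≤ J := by
    rw [hJ]
    exact integral_nonneg fun y => by positivity
  have hint : Integrable fun y : ℝ => ((1 : ℝ) + ‖y‖ ^ 2) ^ (-(2 * p + 2) / 2) :=
    integrable_rpow_neg_one_add_norm_sq (by simp; linarith)
  refine ⟨Real.exp 1 / (2 * Real.pi) * (C1 * J) + 1, by positivity, fun ε hε hε1 n hn => ?_⟩
  have hn' : (0 : ℝ) < n := by exact_mod_cast hn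
  have hd := kt_kkdiff B N n hY
  have hd2 : DifferentiableOn ℂ (fun z => (ε : ℂ) * kk B N ((2 * n / Y : ℝ) * Wd z))
      (ball 0 1) := hd.const_mul _
  have h := coef_le (f := fun z => bs p z *
      (Complex.exp (ε * kk B N ((2 * n / Y : ℝ) * Wd z)) - 1 -
        ε * kk B N ((2 * n / Y : ℝ) * Wd z))) (q := 2 * p)
    ((bs_diff p).mul ((hd2.cexp.sub_const 1).sub hd2)) hn (x := 1) one_pos
    (D := fun y => C1 * ε ^ 2 * ((1 : ℝ) + ‖y‖ ^ 2) ^ (-(2 * p + 2) / 2))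
    (hint.const_mul _) (fun y => by positivity) (by
      intro y hy
      obtain ⟨h1, h2, h3⟩ := kt_line hp hY hn hy
      have hkb := (kk_bound (B := B) hN h3).1
      change ‖bs p (Complex.exp (-(((1 : ℝ) : ℂ) + y * Complex.I) / n)) *
        (Complex.exp (ε * kk B N (((2 * n / Y : ℝ) : ℂ) *
          Wd (Complex.exp (-(((1 : ℝ) : ℂ) + y * Complex.I) / n)))) - 1 -
          ε * kk B N (((2 * n / Y : ℝ) : ℂ) *
          Wd (Complex.exp (-(((1 : ℝ) : ℂ) + y * Complex.I) / n))))‖ ≤ _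
      set w : ℂ := ((1 : ℝ) : ℂ) + y * Complex.I with hw
      have hw0 : 0 < ‖w‖ := by
        rw [hw, kt_norm]
        positivity
      set u := ((2 * n / Y : ℝ) : ℂ) * Wd (Complex.exp (-w / n)) with hu
      rw [← hC2] at hkb
      have ht : 0 < 2 / 5 * ‖w‖ / Y := by positivity
      have hu0 : 0 ≤ ‖u‖ := norm_nonneg u
      have h4 : ‖kk B N u‖ ≤ C2 * (5 / 2 * Y * ‖w‖⁻¹) := by
        refine hkb.trans ?_
        refine (div_le_div_of_nonneg_left hC2p.le ht (h2.trans (by linarith))).trans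
          (le_of_eq ?_)
        field_simp
      have h5 : ‖kk B N u‖ ≤ C2 := by
        refine hkb.trans ?_
        rw [div_le_iff₀ (by linarith)]
        nlinarith
      set s : ℂ := ε * kk B N u with hs
      have hs1 : ‖s‖ = ε * ‖kk B N u‖ := by
        rw [hs, norm_mul, Complex.norm_real, Real.norm_of_nonneg hε]
      have hs2 : ‖s‖ ≤ C2 := by
        rw [hs1]
        calc ε * ‖kk B N u‖ ≤ 1 * C2 := by gcongr
          _ = C2 := one_mul _
      have hs3 : ‖s‖ ≤ ε * (C2 * (5 / 2 * Y * ‖w‖⁻¹)) := by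
        rw [hs1]
        gcongr
      have h6 : ‖Complex.exp s - 1 - s‖ ≤ ‖s‖ ^ 2 * Real.exp ‖s‖ := by
        have := Complex.norm_exp_sub_sum_le_norm_mul_exp s 2
        simp only [Finset.sum_range_succ, Finset.sum_range_zero, pow_zero, Nat.factorial_zero,
          Nat.cast_one, div_one, zero_add, pow_one, Nat.factorial_one] at this
        rwa [← sub_sub] at this
      have h7 : ‖Complex.exp s - 1 - s‖ ≤ (ε * (C2 * (5 / 2 * Y * ‖w‖⁻¹))) ^ 2 * Real.exp C2 := by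
        refine h6.trans ?_
        gcongr
      rw [norm_mul]
      calc ‖bs p (Complex.exp (-w / n))‖ * ‖Complex.exp s - 1 - s‖ ≤
          ((n : ℝ) ^ (2 * p) * (5 ^ (2 * p) * ‖w‖ ^ (-(2 * p)))) *
            ((ε * (C2 * (5 / 2 * Y * ‖w‖⁻¹))) ^ 2 * Real.exp C2) := by
              gcongr
        _ = (n : ℝ) ^ (2 * p) * (C1 * ε ^ 2 * (‖w‖ ^ (-(2 * p)) * (‖w‖⁻¹) ^ 2)) := by
              rw [hC1]
              ring
        _ = _ := by
              have h8 : (‖w‖⁻¹) ^ 2 = ‖w‖ ^ (-(2 : ℝ)) := by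
                rw [Real.rpow_neg hw0.le, inv_pow]
                norm_num
              rw [h8, ← Real.rpow_add hw0, show -(2 * p) + -(2 : ℝ) = -(2 * p + 2) by ring, hw,
                kt_norm_rpow])
  refine h.trans ?_
  rw [integral_const_mul, ← hJ]
  have hnp : 0 < (n : ℝ) ^ (2 * p - 1) := by positivity
  have h1 : Real.exp 1 / (2 * Real.pi) * (C1 * ε ^ 2 * J) ≤
      (Real.exp 1 / (2 * Real.pi) * (C1 * J) + 1) * ε ^ 2 := by
    have h2 : Real.exp 1 / (2 * Real.pi) * (C1 * ε ^ 2 * J) =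
      Real.exp 1 / (2 * Real.pi) * (C1 * J) * ε ^ 2 := by ring
    rw [h2, add_mul]
    have := sq_nonneg ε
    linarith
  exact mul_le_mul_of_nonneg_right h1 hnp.le

end MQK
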