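import Pool.Agent.MQK.Kmv
import Pool.Agent.MQK.Kt1
import Pool.Agent.MQK.Kt2
import Pool.Agent.MQK.Kgn

set_option autoImplicit false

/-!
# MQK KFIN : `liminf A_n n^(1-2p) > 4^p/Γ(2p)` for `1/4 < p < 1`

`t`, `r ≠ 0` with `gn p t = r`; `c₀` of `mv_pert`; `C₁` of `cost_le`.  For `N` large, `Y = N + t ≥ max 1 (N/2)`,
`B = sign r · c₀ N`: `c₀ N 4^p Y^(1-2p) |r| - C₁ Y^(1-p) ≥ 2` (`N ≥ Y/2`, `2 - 2p > 1 - p`).  Then `ε₀` of
`mv_pert`, `C₂` of `rem_le`; `ε ≤ min ε₀ 1 (1/(2C₂))`.  `f_n = bs p z * exp (ε kk B N ((2n/Y) Wd z))`,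
`coef f_n n = coef bs n + ε coef(bs ka) n + ε B coef (bs kb) n + coef (remainder) n`, so
`liminf Re (n^(1-2p) coef f_n n) ≥ 4^p/Γ(2p) + ε (c₀ N 4^p Y^(1-2p)|r| - C₁ Y^(1-p)) - C₂ ε² ≥ 4^p/Γ(2p) + ε`.
`mu p f_n = ‖f_n 0‖ = ‖exp (ε kk (2n/Y))‖ → 1`, `smul_mem_S`.
-/

open MeasureTheory Metric Set Filter Topology

namespace MQK

private theorem coef_add {f g : ℂ → ℂ} (hf : DifferentiableOn ℂ f (ball 0 1))
    (hg : DifferentiableOn ℂ g (ball 0 1)) (n : ℕ) :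
    MPV.coef (fun z => f z + g z) n = MPV.coef f n + MPV.coef g n := by
  have hfa : AnalyticAt ℂ f 0 := hf.analyticAt (isOpen_ball.mem_nhds (mem_ball_self one_pos))
  have hga : AnalyticAt ℂ g 0 := hg.analyticAt (isOpen_ball.mem_nhds (mem_ball_self one_pos))
  unfold MPV.coef
  have h := iteratedDeriv_add (n := n) hfa.contDiffAt hga.contDiffAt
  have h2 : (f + g) = fun z => f z + g z := rfl
  rw [h2] at h
  rw [h, add_div]

private theorem coef_mul {f : ℂ → ℂ} (hf : DifferentiableOn ℂ f (ball 0 1)) (c : ℂ) (n : ℕ) :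
    MPV.coef (fun z => c * f z) n = c * MPV.coef f n := by
  have hfa : AnalyticAt ℂ f 0 := hf.analyticAt (isOpen_ball.mem_nhds (mem_ball_self one_pos))
  unfold MPV.coef
  rw [iteratedDeriv_const_mul c (hfa.contDiffAt)]
  ring

private theorem kk_diff_comp (B N m : ℝ) (hm : 0 ≤ m) :
    DifferentiableOn ℂ (fun z => ka (m * Wd z)) (ball 0 1) ∧
      DifferentiableOn ℂ (fun z => kb N (m * Wd z)) (ball 0 1) ∧
        DifferentiableOn ℂ (fun z => kk B N (m * Wd z)) (ball 0 1) := by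
  have hne : ∀ z ∈ ball (0 : ℂ) 1, 1 + (m : ℂ) * Wd z ≠ 0 := by
    intro z hz h0
    have h1 := congrArg Complex.re h0
    rw [Complex.add_re, Complex.one_re, Complex.re_ofReal_mul, Complex.zero_re] at h1
    have h2 := mul_nonneg hm (wd_re hz).le
    linarith
  have hW : DifferentiableOn ℂ (fun z => (m : ℂ) * Wd z) (ball 0 1) := wd_diff.const_mul _
  have h1 : DifferentiableOn ℂ (fun z => ka (m * Wd z)) (ball 0 1) := by
    unfold ka
    exact (differentiableOn_const _).div ((differentiableOn_const _).add hW) hne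
  have h2 : DifferentiableOn ℂ (fun z => kb N (m * Wd z)) (ball 0 1) := by
    unfold kb
    refine ((hW.const_mul (N : ℂ)).neg.cexp).mul ((hW.pow 2).div
      (((differentiableOn_const _).add hW).pow 4) ?_)
    intro z hz
    exact pow_ne_zero _ (hne z hz)
  refine ⟨h1, h2, ?_⟩
  unfold kk
  exact h1.add (h2.const_mul _)

private theorem mu_lt_one {p : ℝ} (hp : 0 < p) (hp1 : p < 1) (f : ℂ → ℂ) :
    MPV.mu p f = ‖f 0‖ := by
  have hfl : ⌊p⌋₊ = 0 := by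
    rw [Nat.floor_eq_zero]
    exact hp1
  unfold MPV.mu
  rw [hfl]
  have h1 : (⨆ ν : Fin (0 + 1), ‖MPV.coef f ν‖) = ‖MPV.coef f 0‖ := ciSup_unique (ι := Fin 1)
  rw [h1]
  simp [MPV.coef]

private theorem re_dec (a X1 X2 X3 X4 : ℂ) (ε B : ℝ) :
    (a * (X1 + ε * X2 + ε * B * X3 + X4)).re =
      (a * X1).re + ε * (a * X2).re + ε * (B * (a * X3)).re + (a * X4).re := by
  have : a * (X1 + ε * X2 + ε * B * X3 + X4) =
      a * X1 + (ε : ℂ) * (a * X2) + (ε : ℂ) * (B * (a * X3)) + a * X4 := by ring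
  rw [this, Complex.add_re, Complex.add_re, Complex.add_re, Complex.re_ofReal_mul,
    Complex.re_ofReal_mul]

/-- choice of the scale -/
private theorem scale {p α C t : ℝ} (hp1 : p < 1) (hα : 0 < α) :
    ∃ Y : ℝ, 1 ≤ Y ∧ 2 * |t| + 2 ≤ Y ∧ 2 + C * Y ^ (1 - p) ≤ α * Y ^ (2 - 2 * p) := by
  have h1 : Tendsto (fun Y : ℝ => Y ^ (1 - p)) atTop atTop := tendsto_rpow_atTop (by linarith)
  have h2 : ∀ᶠ x : ℝ in atTop, 2 + C * x ≤ α * x ^ 2 := by
    have : Tendsto (fun x : ℝ => x * (α * x - C)) atTop atTop := by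
      refine tendsto_id.atTop_mul_atTop₀ ?_
      exact (tendsto_atTop_add_const_right atTop (-C) (tendsto_id.const_mul_atTop hα))
    filter_upwards [this.eventually_ge_atTop 2] with x hx
    nlinarith
  have h3 := h1.eventually h2
  obtain ⟨Y, hY1, hY2, hY3⟩ := (h3.and ((eventually_ge_atTop (1 : ℝ)).and
    (eventually_ge_atTop (2 * |t| + 2)))).exists
  refine ⟨Y, hY2, hY3, ?_⟩
  have h4 : (Y ^ (1 - p)) ^ 2 = Y ^ (2 - 2 * p) := by
    rw [← Real.rpow_natCast, ← Real.rpow_mul (by linarith)]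
    congr 1
    push_cast
    ring
  rw [h4] at hY1
  exact hY1

theorem gap {p : ℝ} (hp : 1 / 4 < p) (hp1 : p < 1) :
    ∃ c : ℝ, (4 : ℝ) ^ p / Real.Gamma (2 * p) < c ∧ ∀ᶠ n : ℕ in atTop,
      ENNReal.ofReal (c * (n : ℝ) ^ (2 * p - 1)) ≤ MPV.A p n := by
  have hp0 : 0 < p := by linarith
  have hG : 0 < Real.Gamma (2 * p) := Real.Gamma_pos_of_pos (by linarith)
  obtain ⟨t, ht⟩ := gn_ne hp0
  obtain ⟨r, hr⟩ := gn_real p t
  have hr0 : r ≠ 0 := by
    intro h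
    rw [h] at hr
    exact ht (by rw [hr]; simp)
  have hra : 0 < |r| := abs_pos.2 hr0
  obtain ⟨c₀, hc₀, hmvp⟩ := mv_pert hp
  obtain ⟨C₁, hC₁, hcost⟩ := cost_le hp0 hp1
  set L : ℝ := (4 : ℝ) ^ p / Real.Gamma (2 * p) with hL
  have hL0 : 0 < L := by rw [hL]; positivity
  obtain ⟨Y, hY1, hYt, hYs⟩ := scale (p := p) (α := c₀ * 4 ^ p * |r| / 2) (C := C₁) (t := t) hp1
    (by positivity)
  obtain ⟨N, hN⟩ : ∃ N : ℝ, N = Y - t := ⟨_, rfl⟩
  have hNY : N + t = Y := by rw [hN]; ring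
  have htt := le_abs_self t
  have hN2 : Y / 2 ≤ N := by rw [hN]; linarith
  have hN0 : 0 < N := by linarith
  have hY0 : 0 < Y := by linarith
  obtain ⟨B, hB⟩ : ∃ B : ℝ, B = c₀ * N * (r / |r|) := ⟨_, rfl⟩
  have hBr : B * r = c₀ * N * |r| := by
    rw [hB]
    have : r * r = |r| * |r| := (abs_mul_abs_self r).symm
    field_simp
    nlinarith
  have hBa : |B| ≤ c₀ * N := by
    rw [hB, abs_mul, abs_div, abs_abs, div_self hra.ne', mul_one, abs_of_pos (by positivity)]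
  obtain ⟨ε₀, hε₀, hmv⟩ := hmvp B N hN0 hBa
  obtain ⟨C₂, hC₂, hrem⟩ := rem_le (B := B) hp0 hN0.le hY0
  obtain ⟨ε, hεd⟩ : ∃ ε : ℝ, ε = min ε₀ (min 1 (1 / (2 * C₂))) := ⟨_, rfl⟩
  have hε : 0 < ε := by rw [hεd]; positivity
  have hε1 : ε ≤ ε₀ := by rw [hεd]; exact min_le_left _ _
  have hε2 : ε ≤ 1 := by rw [hεd]; exact (min_le_right _ _).trans (min_le_left _ _)
  have hε3 : C₂ * ε ^ 2 ≤ ε / 2 := by
    have : ε ≤ 1 / (2 * C₂) := by rw [hεd]; exact (min_le_right _ _).trans (min_le_right _ _)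
    rw [le_div_iff₀ (by positivity)] at this
    nlinarith
  -- the functions
  set f : ℕ → ℂ → ℂ := fun n z => bs p z * Complex.exp (ε * kk B N ((2 * n / Y : ℝ) * Wd z)) with hf
  have hmvf : ∀ n : ℕ, 1 ≤ n → MQV.MV (ball 0 1) p (f n) := by
    intro n hn
    have hn0 : (0 : ℝ) < n := by exact_mod_cast hn
    exact fn_mv hp0.le (hmv ε hε hε1) (m := 2 * n / Y) (by positivity)
  -- decomposition of the coefficient
  have hdec : ∀ n : ℕ, 1 ≤ n → MPV.coef (f n) n = MPV.coef (bs p) n +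
      ε * MPV.coef (fun z => bs p z * ka ((2 * n / Y : ℝ) * Wd z)) n +
      ε * B * MPV.coef (fun z => bs p z * kb N ((2 * n / Y : ℝ) * Wd z)) n +
      MPV.coef (fun z => bs p z * (Complex.exp (ε * kk B N ((2 * n / Y : ℝ) * Wd z)) - 1 -
        ε * kk B N ((2 * n / Y : ℝ) * Wd z))) n := by
    intro n hn
    obtain ⟨d1, d2, d3⟩ := kk_diff_comp B N (2 * n / Y) (by positivity)
    have hb := bs_diff p
    have g1 : DifferentiableOn ℂ (fun z => bs p z * ka ((2 * n / Y : ℝ) * Wd z)) (ball 0 1) :=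
      hb.mul d1
    have g2 : DifferentiableOn ℂ (fun z => bs p z * kb N ((2 * n / Y : ℝ) * Wd z)) (ball 0 1) :=
      hb.mul d2
    have g1' : DifferentiableOn ℂ (fun z => ε * (bs p z * ka ((2 * n / Y : ℝ) * Wd z)))
      (ball 0 1) := g1.const_mul _
    have g2' : DifferentiableOn ℂ (fun z => ε * B * (bs p z * kb N ((2 * n / Y : ℝ) * Wd z)))
      (ball 0 1) := g2.const_mul _
    have g3 : DifferentiableOn ℂ (fun z => bs p z *
        (Complex.exp (ε * kk B N ((2 * n / Y : ℝ) * Wd z)) - 1 -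
        ε * kk B N ((2 * n / Y : ℝ) * Wd z))) (ball 0 1) :=
      hb.mul ((((d3.const_mul (ε : ℂ)).cexp).sub (differentiableOn_const _)).sub
        (d3.const_mul (ε : ℂ)))
    have e1 : f n = fun z => (bs p z + (ε * (bs p z * ka ((2 * n / Y : ℝ) * Wd z)) +
        (ε * B * (bs p z * kb N ((2 * n / Y : ℝ) * Wd z)) +
        bs p z * (Complex.exp (ε * kk B N ((2 * n / Y : ℝ) * Wd z)) - 1 -
        ε * kk B N ((2 * n / Y : ℝ) * Wd z))))) := by
      funext z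
      simp only [hf, kk]
      ring
    have g23 : DifferentiableOn ℂ (fun z => ε * B * (bs p z * kb N ((2 * n / Y : ℝ) * Wd z)) +
        bs p z * (Complex.exp (ε * kk B N ((2 * n / Y : ℝ) * Wd z)) - 1 -
        ε * kk B N ((2 * n / Y : ℝ) * Wd z))) (ball 0 1) := g2'.add g3
    have g123 : DifferentiableOn ℂ (fun z => ε * (bs p z * ka ((2 * n / Y : ℝ) * Wd z)) +
        (ε * B * (bs p z * kb N ((2 * n / Y : ℝ) * Wd z)) +
        bs p z * (Complex.exp (ε * kk B N ((2 * n / Y : ℝ) * Wd z)) - 1 -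
        ε * kk B N ((2 * n / Y : ℝ) * Wd z)))) (ball 0 1) := g1'.add g23
    rw [e1, coef_add hb g123, coef_add g1' g23, coef_add g2' g3, coef_mul g1, coef_mul g2]
    ring
  have hb := bs_coef hp0 hp1
  have ho := osc_lim (p := p) (N := N) (t := t) hp0 hp1 hN0.le (by rw [hNY]; exact hY0)
  rw [hNY, hr] at ho
  have hbre := (Complex.continuous_re.tendsto _).comp hb
  have hore := (Complex.continuous_re.tendsto _).comp (ho.const_mul (B : ℂ))
  rw [Complex.ofReal_re] at hbre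
  have hlimo : (((B : ℂ) * ((((4 : ℝ) ^ p * Y ^ (1 - 2 * p) : ℝ) : ℂ) * (r : ℂ)))).re =
      c₀ * N * |r| * (4 ^ p * Y ^ (1 - 2 * p)) := by
    rw [← Complex.ofReal_mul, ← Complex.ofReal_mul, Complex.ofReal_re, ← hBr]
    ring
  rw [hlimo] at hore
  have hbig : 2 + C₁ * Y ^ (1 - p) ≤ c₀ * N * |r| * (4 ^ p * Y ^ (1 - 2 * p)) := by
    refine hYs.trans ?_
    have h1 : Y ^ (2 - 2 * p) = Y * Y ^ (1 - 2 * p) := by
      rw [show 2 - 2 * p = 1 + (1 - 2 * p) by ring, Real.rpow_add hY0, Real.rpow_one]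
    rw [h1]
    have h2 : 0 < c₀ * 4 ^ p * |r| * Y ^ (1 - 2 * p) := by positivity
    nlinarith
  -- the value at the origin
  have hzero : Tendsto (fun n : ℕ => Real.exp (ε * (2 * (1 + |B|) / (1 + 2 * n / Y)))) atTop (𝓝 1) := by
    have h1 : Tendsto (fun n : ℕ => 1 + 2 * (n : ℝ) / Y) atTop atTop := by
      refine tendsto_atTop_add_const_left _ _ ?_
      refine Tendsto.atTop_div_const hY0 ?_
      exact tendsto_natCast_atTop_atTop.const_mul_atTop (by norm_num)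
    have h2 : Tendsto (fun n : ℕ => ε * (2 * (1 + |B|) / (1 + 2 * n / Y))) atTop (𝓝 (ε * 0)) :=
      (tendsto_const_nhds.div_atTop h1).const_mul ε
    rw [mul_zero] at h2
    have h3 := (Real.continuous_exp.tendsto 0).comp h2
    rw [Real.exp_zero] at h3
    exact h3
  have hratio : 1 < (L + ε) / (L + ε / 2) := by
    rw [lt_div_iff₀ (by positivity)]
    linarith
  refine ⟨L + ε / 2, by linarith, ?_⟩
  filter_upwards [eventually_ge_atTop 1, hbre.eventually (lt_mem_nhds (show L - ε / 4 < L by linarith)),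
    hore.eventually (lt_mem_nhds (show c₀ * N * |r| * (4 ^ p * Y ^ (1 - 2 * p)) - 1 / 4 <
      c₀ * N * |r| * (4 ^ p * Y ^ (1 - 2 * p)) by linarith)),
    hzero.eventually (gt_mem_nhds hratio)] with n hn h1 h2 h3
  have hn0 : (0 : ℝ) < n := by exact_mod_cast hn
  have hnp : 0 < (n : ℝ) ^ (1 - 2 * p) := Real.rpow_pos_of_pos hn0 _
  have hnn : (n : ℝ) ^ (1 - 2 * p) * (n : ℝ) ^ (2 * p - 1) = 1 := by
    rw [← Real.rpow_add hn0]
    simp
  -- real part
  have hre : L + ε ≤ (((((n : ℝ) ^ (1 - 2 * p) : ℝ) : ℂ)) * MPV.coef (f n) n).re := by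
    have e1 := hcost Y hY1 n hn
    have e2 := hrem ε hε.le hε2 n hn
    have e3 : ∀ z : ℂ, ∀ K : ℝ, ‖z‖ ≤ K * (n : ℝ) ^ (2 * p - 1) →
        -K ≤ ((((n : ℝ) ^ (1 - 2 * p) : ℝ) : ℂ) * z).re := by
      intro z K hz
      have h4 := Complex.abs_re_le_norm ((((n : ℝ) ^ (1 - 2 * p) : ℝ) : ℂ) * z)
      rw [norm_mul, Complex.norm_real, Real.norm_of_nonneg hnp.le] at h4
      have h5 := mul_le_mul_of_nonneg_left hz hnp.le
      have h6 : (n : ℝ) ^ (1 - 2 * p) * (K * (n : ℝ) ^ (2 * p - 1)) = K := by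
        rw [mul_left_comm, hnn, mul_one]
      rw [h6] at h5
      linarith [neg_abs_le ((((n : ℝ) ^ (1 - 2 * p) : ℝ) : ℂ) * z).re]
    have f1 := e3 _ _ e1
    have f2 := e3 _ _ e2
    rw [hdec n hn]
    have h1' : L - ε / 4 < ((((n : ℝ) ^ (1 - 2 * p) : ℝ) : ℂ) * MPV.coef (bs p) n).re := h1
    have h2' : c₀ * N * |r| * (4 ^ p * Y ^ (1 - 2 * p)) - 1 / 4 <
        ((B : ℂ) * ((((n : ℝ) ^ (1 - 2 * p) : ℝ) : ℂ) *
          MPV.coef (fun z => bs p z * kb N ((2 * n / Y : ℝ) * Wd z)) n)).re := h2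
    set X1 := MPV.coef (bs p) n
    set X2 := MPV.coef (fun z => bs p z * ka ((2 * n / Y : ℝ) * Wd z)) n
    set X3 := MPV.coef (fun z => bs p z * kb N ((2 * n / Y : ℝ) * Wd z)) n
    set X4 := MPV.coef (fun z => bs p z * (Complex.exp (ε * kk B N ((2 * n / Y : ℝ) * Wd z)) - 1 -
        ε * kk B N ((2 * n / Y : ℝ) * Wd z))) n
    set a : ℂ := (((n : ℝ) ^ (1 - 2 * p) : ℝ) : ℂ)
    rw [re_dec a X1 X2 X3 X4 ε B]
    have g2 : ε * (-(C₁ * Y ^ (1 - p))) ≤ ε * (a * X2).re := mul_le_mul_of_nonneg_left f1 hε.le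
    have g3 : ε * (c₀ * N * |r| * (4 ^ p * Y ^ (1 - 2 * p)) - 1 / 4) ≤ ε * (B * (a * X3)).re :=
      mul_le_mul_of_nonneg_left h2'.le hε.le
    have g4 : ε * (2 + C₁ * Y ^ (1 - p)) ≤ ε * (c₀ * N * |r| * (4 ^ p * Y ^ (1 - 2 * p))) :=
      mul_le_mul_of_nonneg_left hbig hε.le
    nlinarith
  have hcoef : (L + ε) * (n : ℝ) ^ (2 * p - 1) ≤ ‖MPV.coef (f n) n‖ := by
    have h4 := (Complex.re_le_norm _).trans' hre
    rw [norm_mul, Complex.norm_real, Real.norm_of_nonneg hnp.le] at h4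
    have hq : 0 < (n : ℝ) ^ (2 * p - 1) := Real.rpow_pos_of_pos hn0 _
    have h5 := mul_le_mul_of_nonneg_right h4 hq.le
    have h6 : (n : ℝ) ^ (1 - 2 * p) * ‖MPV.coef (f n) n‖ * (n : ℝ) ^ (2 * p - 1) =
        ‖MPV.coef (f n) n‖ := by
      rw [mul_right_comm, hnn, one_mul]
    rw [h6] at h5
    exact h5
  -- normalisation
  have hf0 : f n 0 = Complex.exp (ε * kk B N ((2 * n / Y : ℝ))) := by
    have h4 : Wd 0 = 1 := by simp [Wd]
    have h5 : bs p 0 = 1 := by simp [bs, MQV.lg]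
    simp only [hf, h4, h5, one_mul, mul_one]
  have hmu := mu_lt_one hp0 hp1 (f n)
  have hmu0 : 0 < MPV.mu p (f n) := by
    rw [hmu, hf0]
    exact norm_pos_iff.2 (Complex.exp_ne_zero _)
  have hmule : MPV.mu p (f n) ≤ (L + ε) / (L + ε / 2) := by
    rw [hmu, hf0]
    refine le_trans ?_ h3.le
    rw [Complex.norm_exp]
    refine Real.exp_le_exp.2 ?_
    refine (Complex.re_le_norm _).trans ?_
    rw [norm_mul, Complex.norm_real, Real.norm_of_nonneg hε.le]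
    refine mul_le_mul_of_nonneg_left ?_ hε.le
    have h4 := (kk_bound (B := B) hN0.le (u := ((2 * n / Y : ℝ) : ℂ)) (by
      rw [Complex.ofReal_re]; positivity)).1
    rw [Complex.norm_real, Real.norm_of_nonneg (by positivity)] at h4
    exact h4
  have hS := MQV.smul_mem_S hp0.le (hmvf n hn) hmu0
  have h7 : ENNReal.ofReal ‖MPV.coef (fun z => ((MPV.mu p (f n))⁻¹ : ℝ) * f n z) n‖ ≤ MPV.A p n := by
    unfold MPV.A
    exact le_iSup₂ (f := fun g (_ : g ∈ MPV.S p) => ENNReal.ofReal ‖MPV.coef g n‖) _ hS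
  refine le_trans (ENNReal.ofReal_le_ofReal ?_) h7
  rw [coef_mul (hmvf n hn).diff, norm_mul, Complex.norm_real, Real.norm_of_nonneg (by positivity),
    ← div_eq_inv_mul, le_div_iff₀ hmu0]
  have hq : 0 < (n : ℝ) ^ (2 * p - 1) := Real.rpow_pos_of_pos hn0 _
  calc (L + ε / 2) * (n : ℝ) ^ (2 * p - 1) * MPV.mu p (f n)
      ≤ (L + ε / 2) * (n : ℝ) ^ (2 * p - 1) * ((L + ε) / (L + ε / 2)) :=
        mul_le_mul_of_nonneg_left hmule (by positivity)
    _ = (L + ε) * (n : ℝ) ^ (2 * p - 1) := by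
        field_simp
    _ ≤ _ := hcoef

end MQK
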