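import Pool.Agent.MQK.Kdf

set_option autoImplicit false

/-!
# MQK KAR : the area criterion

`g` is analytic near the closed strip `|Im ζ| ≤ π/2`, symmetric, `‖g' - 2p‖ ≤ q < 2p` there.
Write `β ξ = g (ξ + iπ/2)`, `x ξ = Re (β ξ)`, `V ξ = Im (β ξ)`; `x' ξ = Re (g' (ξ+iπ/2)) ≥ 2p - q > 0`
(derivative along the horizontal line), so `x` is a strictly increasing homeomorphism of `ℝ`.

* `slope`: for `ζ, ζ'` in the closed strip, `g ζ' - g ζ = (ζ'-ζ) c`, `‖c - 2p‖ ≤ q` (convexity: apply the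
  mean value inequality to `g ζ - 2p ζ`, whose derivative has norm `≤ q`).  Hence `g` is injective on
  the closed strip.
* `under`: `ζ ∈ Str`, `ζ* = ξ* + iπ/2` with `Re g ζ* = Re g ζ`: `(ζ*-ζ) c = i τ`, `τ` real, so
  `Im (ζ*-ζ) = τ Re c/‖c‖²`; as `Im (ζ*-ζ) > 0` and `Re c > 0`, `τ > 0`, i.e. `Im g ζ < V ξ*`.  By symmetry
  `|Im g ζ| < V ξ*`.
* `area_crit`: `F = exp ∘ g`, `U = log R`.  `‖F‖ < R ↔ Re g < U`, `‖F'‖² = e^{2 Re g} ‖g'‖²`; change of
  variables (`lintegral_image_eq_lintegral_abs_det_fderiv_mul`, as in `MPV.exa_cls`):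
  `ar Str F 0 R = ∫⁻ u in g '' {ζ ∈ Str, Re g ζ < U}, e^{2 Re u} ≤ ∫⁻ u in E, e^{2 Re u}`,
  `E = {u | Re u < U, |Im u| < V (X (Re u))}`, `X` the inverse of `x` (continuous).  Fubini
  (`Complex.volume_preserving_equiv_real_prod`) and the substitution `x = x ξ`
  (`lintegral_image_eq_lintegral_abs_deriv_mul` or the monotone version):
  `= ∫⁻_{x<U} 2 V(X x) e^{2x} dx = ∫⁻_{ξ<X U} 2 V ξ e^{2 x ξ} x' ξ dξ`
  `= 2πp ∫_{ξ<X U} e^{2x} x' + 2 ∫_{ξ<X U} (V - πp) e^{2x} x' ≤ πp e^{2U} = πp R²` by `hcond`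
  (everything is integrable: `V` is bounded and `x ξ ≤ x 0 + (2p-q) ξ` for `ξ ≤ 0`; note `V ξ > 0` by
  `under` applied with `ζ` real, or where `V ≤ 0` the section is empty and `ofReal` is `0`).
-/

open MeasureTheory Metric Set

namespace MQK

private theorem Kar_q {p q : ℝ} {g : ℂ → ℂ}
    (hg' : ∀ ζ : ℂ, |ζ.im| ≤ Real.pi / 2 → ‖deriv g ζ - 2 * p‖ ≤ q) : 0 ≤ q :=
  (norm_nonneg _).trans (hg' 0 (by
    rw [Complex.zero_im, abs_zero]
    exact (half_pos Real.pi_pos).le))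

private theorem Kar_re {p q : ℝ} {c : ℂ} (hc : ‖c - 2 * p‖ ≤ q) : 2 * p - q ≤ c.re := by
  have h1 := (Complex.abs_re_le_norm (c - 2 * p)).trans hc
  have h2 : (c - 2 * (p : ℂ)).re = c.re - 2 * p := by simp
  rw [h2, abs_le] at h1
  linarith [h1.1]

private theorem Kar_re_le {p q : ℝ} {c : ℂ} (hc : ‖c - 2 * p‖ ≤ q) : c.re ≤ 2 * p + q := by
  have h1 := (Complex.abs_re_le_norm (c - 2 * p)).trans hc
  have h2 : (c - 2 * (p : ℂ)).re = c.re - 2 * p := by simp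
  rw [h2, abs_le] at h1
  linarith [h1.2]

private theorem Kar_open : IsOpen {ζ : ℂ | |ζ.im| < Real.pi} :=
  isOpen_lt Complex.continuous_im.abs continuous_const

private theorem Kar_diff {g : ℂ → ℂ} (hg : DifferentiableOn ℂ g {ζ | |ζ.im| < Real.pi}) {ζ : ℂ}
    (h : |ζ.im| ≤ Real.pi / 2) : HasDerivAt g (deriv g ζ) ζ :=
  (hg.differentiableAt (Kar_open.mem_nhds
    (lt_of_le_of_lt h (by linarith [Real.pi_pos])))).hasDerivAt

theorem slope {p q : ℝ} {g : ℂ → ℂ} (hg : DifferentiableOn ℂ g {ζ | |ζ.im| < Real.pi})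
    (hg' : ∀ ζ : ℂ, |ζ.im| ≤ Real.pi / 2 → ‖deriv g ζ - 2 * p‖ ≤ q) {ζ ζ' : ℂ}
    (h : |ζ.im| ≤ Real.pi / 2) (h' : |ζ'.im| ≤ Real.pi / 2) :
    ∃ c : ℂ, ‖c - 2 * p‖ ≤ q ∧ g ζ' - g ζ = (ζ' - ζ) * c := by
  have hq := Kar_q hg'
  have hconv : Convex ℝ {ζ : ℂ | |ζ.im| ≤ Real.pi / 2} := by
    have : {ζ : ℂ | |ζ.im| ≤ Real.pi / 2} =
        Complex.imLm ⁻¹' (Icc (-(Real.pi / 2)) (Real.pi / 2)) := by
      ext z
      simp [abs_le]
    rw [this]
    exact (convex_Icc _ _).linear_preimage _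
  have hd : ∀ z ∈ {ζ : ℂ | |ζ.im| ≤ Real.pi / 2},
      HasDerivWithinAt (fun z => g z - 2 * p * z) (deriv g z - 2 * p)
        {ζ : ℂ | |ζ.im| ≤ Real.pi / 2} z := by
    intro z hz
    have h1 := (Kar_diff hg hz).sub ((hasDerivAt_id z).const_mul (2 * (p : ℂ)))
    rw [mul_one] at h1
    exact h1.hasDerivWithinAt
  have hb := hconv.norm_image_sub_le_of_norm_hasDerivWithin_le hd (fun z hz => hg' z hz) h h'
  by_cases e : ζ' = ζ
  · exact ⟨2 * p, by simpa using hq, by rw [e]; ring⟩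
  · have e' : ζ' - ζ ≠ 0 := sub_ne_zero.2 e
    refine ⟨(g ζ' - g ζ) / (ζ' - ζ), ?_, ?_⟩
    · have h1 : (g ζ' - g ζ) / (ζ' - ζ) - 2 * p =
          ((g ζ' - 2 * p * ζ') - (g ζ - 2 * p * ζ)) / (ζ' - ζ) := by
        field_simp
        ring
      rw [h1, norm_div, div_le_iff₀ (norm_pos_iff.2 e')]
      exact hb
    · field_simp

theorem under {p q : ℝ} (hp : 0 < p) (hq : q < 2 * p) {g : ℂ → ℂ}
    (hg : DifferentiableOn ℂ g {ζ | |ζ.im| < Real.pi})
    (hg' : ∀ ζ : ℂ, |ζ.im| ≤ Real.pi / 2 → ‖deriv g ζ - 2 * p‖ ≤ q)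
    (hsym : ∀ ζ : ℂ, |ζ.im| ≤ Real.pi / 2 → g ((starRingEnd ℂ) ζ) = (starRingEnd ℂ) (g ζ))
    {ζ : ℂ} (hζ : ζ ∈ MQV.Str) {ξ : ℝ}
    (hξ : (g (ξ + (Real.pi / 2 : ℝ) * Complex.I)).re = (g ζ).re) :
    |(g ζ).im| < (g (ξ + (Real.pi / 2 : ℝ) * Complex.I)).im := by
  have key : ∀ ζ : ℂ, ζ ∈ MQV.Str → (g (ξ + (Real.pi / 2 : ℝ) * Complex.I)).re = (g ζ).re →
      (g ζ).im < (g (ξ + (Real.pi / 2 : ℝ) * Complex.I)).im := by
    intro ζ hζ hξ
    have hζ' : |ζ.im| < Real.pi / 2 := hζ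
    have i1 : ((ξ : ℂ) + (Real.pi / 2 : ℝ) * Complex.I).im = Real.pi / 2 := by simp
    obtain ⟨c, hc, h⟩ := slope hg hg' hζ'.le
      (ζ' := (ξ : ℂ) + (Real.pi / 2 : ℝ) * Complex.I) (by
        rw [i1, abs_of_pos (by positivity)])
    have hcr := Kar_re hc
    have hcpos : 0 < c.re := by linarith
    have h1 := congrArg Complex.re h
    have h2 := congrArg Complex.im h
    rw [Complex.sub_re, Complex.mul_re, hξ, sub_self] at h1
    rw [Complex.sub_im, Complex.mul_im] at h2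
    have h3 : 0 < ((ξ : ℂ) + (Real.pi / 2 : ℝ) * Complex.I - ζ).im := by
      rw [Complex.sub_im, i1]
      linarith [(abs_lt.1 hζ').2]
    set a := (ξ : ℂ) + (Real.pi / 2 : ℝ) * Complex.I - ζ
    have h4 : a.im * (c.re ^ 2 + c.im ^ 2) =
        c.re * ((g (ξ + (Real.pi / 2 : ℝ) * Complex.I)).im - (g ζ).im) := by
      rw [h2]
      have h5 : a.re * c.re = a.im * c.im := by linarith
      linear_combination (-c.im) * h5
    have h5 : 0 < a.im * (c.re ^ 2 + c.im ^ 2) := by positivity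
    rw [h4] at h5
    have := (mul_pos_iff_of_pos_left hcpos).1 h5
    linarith
  have hζ' : |ζ.im| < Real.pi / 2 := hζ
  have hs := hsym ζ hζ'.le
  have h1 := key ζ hζ hξ
  have h2 := key ((starRingEnd ℂ) ζ) (by
    show |((starRingEnd ℂ) ζ).im| < Real.pi / 2
    rw [Complex.conj_im, abs_neg]
    exact hζ') (by rw [hs, Complex.conj_re]; exact hξ)
  rw [hs, Complex.conj_im] at h2
  exact abs_lt.2 ⟨by linarith, h1⟩

private theorem Kar_im (ξ b : ℝ) : ((ξ : ℂ) + (b : ℝ) * Complex.I).im = b := by simp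

private theorem Kar_line {g : ℂ → ℂ} (hg : DifferentiableOn ℂ g {ζ | |ζ.im| < Real.pi}) {b : ℝ}
    (hb : |b| ≤ Real.pi / 2) (ξ : ℝ) :
    HasDerivAt (fun ξ : ℝ => (g (ξ + (b : ℝ) * Complex.I)).re)
      (deriv g (ξ + (b : ℝ) * Complex.I)).re ξ := by
  have h1 : HasDerivAt g (deriv g (ξ + (b : ℝ) * Complex.I)) ((ξ : ℂ) + (b : ℝ) * Complex.I) :=
    Kar_diff hg (by rw [Kar_im]; exact hb)
  exact (h1.comp_add_const (ξ : ℂ) ((b : ℝ) * Complex.I)).real_of_complex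

private theorem Kar_cont {g : ℂ → ℂ} (hg : DifferentiableOn ℂ g {ζ | |ζ.im| < Real.pi}) {b : ℝ}
    (hb : |b| ≤ Real.pi / 2) : Continuous (fun ξ : ℝ => g (ξ + (b : ℝ) * Complex.I)) := by
  refine continuous_iff_continuousAt.2 fun ξ => ?_
  have h1 : HasDerivAt g (deriv g (ξ + (b : ℝ) * Complex.I)) ((ξ : ℂ) + (b : ℝ) * Complex.I) :=
    Kar_diff hg (by rw [Kar_im]; exact hb)
  exact ContinuousAt.comp (f := fun ξ : ℝ => (ξ : ℂ) + (b : ℝ) * Complex.I) h1.continuousAt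
    (by fun_prop)

private theorem Kar_grow {p q : ℝ} {g : ℂ → ℂ} (hg : DifferentiableOn ℂ g {ζ | |ζ.im| < Real.pi})
    (hg' : ∀ ζ : ℂ, |ζ.im| ≤ Real.pi / 2 → ‖deriv g ζ - 2 * p‖ ≤ q) {b : ℝ}
    (hb : |b| ≤ Real.pi / 2) {s t : ℝ} (hst : s ≤ t) :
    (g (s + (b : ℝ) * Complex.I)).re + (2 * p - q) * (t - s) ≤
      (g (t + (b : ℝ) * Complex.I)).re := by
  obtain ⟨c, hc, h⟩ := slope hg hg' (ζ := s + (b : ℝ) * Complex.I) (ζ' := t + (b : ℝ) * Complex.I)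
    (by rw [Kar_im]; exact hb) (by rw [Kar_im]; exact hb)
  have h1 : ((t : ℂ) + (b : ℝ) * Complex.I) - (s + (b : ℝ) * Complex.I) = ((t - s : ℝ) : ℂ) := by
    push_cast; ring
  rw [h1] at h
  have h2 := congrArg Complex.re h
  rw [Complex.sub_re, Complex.re_ofReal_mul] at h2
  have h3 := mul_le_mul_of_nonneg_left (Kar_re hc) (sub_nonneg.2 hst)
  linarith

private theorem Kar_surj {p q : ℝ} (hq : q < 2 * p) {g : ℂ → ℂ}
    (hg : DifferentiableOn ℂ g {ζ | |ζ.im| < Real.pi})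
    (hg' : ∀ ζ : ℂ, |ζ.im| ≤ Real.pi / 2 → ‖deriv g ζ - 2 * p‖ ≤ q) {b : ℝ}
    (hb : |b| ≤ Real.pi / 2) (y : ℝ) : ∃ ξ : ℝ, (g (ξ + (b : ℝ) * Complex.I)).re = y := by
  have hc : Continuous (fun ξ : ℝ => (g (ξ + (b : ℝ) * Complex.I)).re) :=
    Complex.continuous_re.comp (Kar_cont hg hb)
  have hpos : 0 < 2 * p - q := by linarith
  refine hc.surjective ?_ ?_ y
  · refine Filter.tendsto_atTop_mono' _ (Filter.eventually_atTop.2 ⟨0, fun ξ h =>
      Kar_grow hg hg' hb (s := 0) (t := ξ) h⟩) ?_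
    refine Filter.tendsto_atTop_add_const_left _ _ ?_
    exact (Filter.tendsto_id.atTop_add tendsto_const_nhds).const_mul_atTop hpos
  · have h1 : ∀ ξ : ℝ, ξ ≤ 0 → (g (ξ + (b : ℝ) * Complex.I)).re ≤
        (g ((0 : ℝ) + (b : ℝ) * Complex.I)).re + (2 * p - q) * ξ := by
      intro ξ h
      have := Kar_grow hg hg' hb (s := ξ) (t := 0) h
      linarith
    refine Filter.tendsto_atBot_mono' _ (Filter.eventually_atBot.2 ⟨0, h1⟩) ?_
    refine Filter.tendsto_atBot_add_const_left _ _ ?_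
    exact Filter.tendsto_id.const_mul_atBot hpos

private theorem Kar_det (w : ℂ) :
    ((ContinuousLinearMap.smulRight (1 : ℂ →L[ℂ] ℂ) w).restrictScalars ℝ).det = ‖w‖ ^ 2 := by
  have h1 : (((ContinuousLinearMap.smulRight (1 : ℂ →L[ℂ] ℂ) w).restrictScalars ℝ : ℂ →L[ℝ] ℂ)
      : ℂ →ₗ[ℝ] ℂ) = Algebra.lmul ℝ ℂ w := by
    ext z
    simp [mul_comm]
  rw [ContinuousLinearMap.det, h1]
  have := Algebra.norm_complex_apply w
  rw [Algebra.norm_apply] at this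
  rw [this, Complex.normSq_eq_norm_sq]

private theorem Kar_det2 (d : ℝ) :
    ((ContinuousLinearMap.smulRight (1 : ℝ →L[ℝ] ℝ) d).prodMap
      (ContinuousLinearMap.id ℝ ℝ)).det = d := by
  rw [ContinuousLinearMap.det, ContinuousLinearMap.coe_prodMap, LinearMap.det_prodMap]
  simp

/-- the integral over the region under the graph -/
private theorem Kar_region {x V dx : ℝ → ℝ} (hx : ∀ ξ, HasDerivAt x (dx ξ) ξ)
    (hdx : ∀ ξ, 0 < dx ξ) (hdc : Continuous dx) (hV : Continuous V) (ξ₀ : ℝ) :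
    ∫⁻ u in (fun q : ℝ × ℝ => (x q.1, q.2)) '' {q : ℝ × ℝ | q.1 < ξ₀ ∧ |q.2| < V q.1},
      ENNReal.ofReal (Real.exp (2 * u.1)) =
    ∫⁻ ξ in Iio ξ₀, ENNReal.ofReal (2 * V ξ) * ENNReal.ofReal (dx ξ * Real.exp (2 * x ξ)) := by
  have hxc : Continuous x := continuous_iff_continuousAt.2 fun ξ => (hx ξ).continuousAt
  have hmono : StrictMono x := strictMono_of_hasDerivAt_pos hx hdx
  have hDm : MeasurableSet {q : ℝ × ℝ | q.1 < ξ₀ ∧ |q.2| < V q.1} :=
    ((isOpen_lt continuous_fst continuous_const).inter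
      (isOpen_lt continuous_snd.abs (hV.comp continuous_fst))).measurableSet
  have hinj : Set.InjOn (fun q : ℝ × ℝ => (x q.1, q.2))
      {q : ℝ × ℝ | q.1 < ξ₀ ∧ |q.2| < V q.1} := by
    rintro ⟨a, b⟩ _ ⟨c, d⟩ _ h
    simp only [Prod.mk.injEq] at h
    rw [hmono.injective h.1, h.2]
  have hcv := lintegral_image_eq_lintegral_abs_det_fderiv_mul volume hDm
    (f := fun q : ℝ × ℝ => (x q.1, q.2))
    (f' := fun q => (ContinuousLinearMap.smulRight (1 : ℝ →L[ℝ] ℝ) (dx q.1)).prodMap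
      (ContinuousLinearMap.id ℝ ℝ))
    (fun q _ => (HasFDerivAt.prodMap q (hx q.1).hasFDerivAt
      (hasFDerivAt_id q.2)).hasFDerivWithinAt) hinj
    (fun u => ENNReal.ofReal (Real.exp (2 * u.1)))
  rw [hcv]
  simp only [Kar_det2]
  rw [← lintegral_indicator hDm, Measure.volume_eq_prod, lintegral_prod]
  · rw [← lintegral_indicator measurableSet_Iio]
    refine lintegral_congr fun ξ => ?_
    by_cases h : ξ < ξ₀
    · rw [Set.indicator_of_mem (show ξ ∈ Iio ξ₀ from h)]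
      have e : ∀ y : ℝ, ({q : ℝ × ℝ | q.1 < ξ₀ ∧ |q.2| < V q.1}.indicator (fun q : ℝ × ℝ =>
          ENNReal.ofReal |dx q.1| * ENNReal.ofReal (Real.exp (2 * x q.1))) (ξ, y)) =
          (Ioo (-(V ξ)) (V ξ)).indicator (fun _ =>
            ENNReal.ofReal (dx ξ * Real.exp (2 * x ξ))) y := by
        intro y
        by_cases hy : |y| < V ξ
        · rw [Set.indicator_of_mem (show (ξ, y) ∈ {q : ℝ × ℝ | q.1 < ξ₀ ∧ |q.2| < V q.1} from
            ⟨h, hy⟩), Set.indicator_of_mem (show y ∈ Ioo (-(V ξ)) (V ξ) from abs_lt.1 hy)]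
          rw [abs_of_pos (hdx ξ), ENNReal.ofReal_mul (hdx ξ).le]
        · rw [Set.indicator_of_notMem (fun h2 : (ξ, y) ∈ {q : ℝ × ℝ | q.1 < ξ₀ ∧ |q.2| < V q.1} =>
            hy h2.2), Set.indicator_of_notMem (fun h2 : y ∈ Ioo (-(V ξ)) (V ξ) =>
            hy (abs_lt.2 h2))]
      simp only [e]
      rw [lintegral_indicator measurableSet_Ioo, lintegral_const, Measure.restrict_apply_univ,
        Real.volume_Ioo, mul_comm]
      congr 2
      ring
    · rw [Set.indicator_of_notMem (show ξ ∉ Iio ξ₀ from h)]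
      have e : ∀ y : ℝ, ({q : ℝ × ℝ | q.1 < ξ₀ ∧ |q.2| < V q.1}.indicator (fun q : ℝ × ℝ =>
          ENNReal.ofReal |dx q.1| * ENNReal.ofReal (Real.exp (2 * x q.1))) (ξ, y)) = 0 := by
        intro y
        exact Set.indicator_of_notMem (fun h2 : (ξ, y) ∈ {q : ℝ × ℝ | q.1 < ξ₀ ∧ |q.2| < V q.1} =>
            h h2.1) _
      simp only [e]
      exact lintegral_zero
  · refine (Measurable.indicator ?_ hDm).aemeasurable
    exact ((hdc.comp continuous_fst).measurable.abs.ennreal_ofReal).mul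
      ((Real.continuous_exp.comp
        (continuous_const.mul (hxc.comp continuous_fst))).measurable.ennreal_ofReal)

private theorem Kar_int {x dx : ℝ → ℝ} {m : ℝ} (hm : 0 < m) (hx : ∀ ξ, HasDerivAt x (dx ξ) ξ)
    (hdx : ∀ ξ, 0 < dx ξ) (hdc : Continuous dx) {D : ℝ} (hD : ∀ ξ, dx ξ ≤ D)
    (hgr : ∀ s t : ℝ, s ≤ t → x s + m * (t - s) ≤ x t) (ξ₀ : ℝ) :
    IntegrableOn (fun ξ => dx ξ * Real.exp (2 * x ξ)) (Iic ξ₀) ∧
    ∫ ξ in Iic ξ₀, dx ξ * Real.exp (2 * x ξ) = Real.exp (2 * x ξ₀) / 2 := by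
  have hxc : Continuous x := continuous_iff_continuousAt.2 fun ξ => (hx ξ).continuousAt
  have hb : ∀ ξ ∈ Iic ξ₀, x ξ ≤ (x ξ₀ - m * ξ₀) + m * ξ := by
    intro ξ h
    have := hgr ξ ξ₀ h
    linarith
  have hint : IntegrableOn (fun ξ => dx ξ * Real.exp (2 * x ξ)) (Iic ξ₀) := by
    have h1 : IntegrableOn (fun ξ : ℝ => D * Real.exp (2 * (x ξ₀ - m * ξ₀)) *
        Real.exp (2 * m * ξ)) (Iic ξ₀) :=
      (integrableOn_exp_mul_Iic (by positivity : (0 : ℝ) < 2 * m) ξ₀).const_mul _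
    refine h1.mono' (hdc.mul (Real.continuous_exp.comp
      (continuous_const.mul hxc))).aestronglyMeasurable ?_
    refine (ae_restrict_iff' measurableSet_Iic).2 (Filter.Eventually.of_forall fun ξ hξ => ?_)
    rw [Real.norm_of_nonneg (mul_nonneg (hdx ξ).le (Real.exp_pos _).le), mul_assoc, ← Real.exp_add]
    refine mul_le_mul (hD ξ) (Real.exp_le_exp.2 ?_) (Real.exp_pos _).le ((hdx ξ).le.trans (hD ξ))
    linarith [hb ξ hξ]
  refine ⟨hint, ?_⟩
  have hlim : Filter.Tendsto (fun ξ => Real.exp (2 * x ξ) / 2) Filter.atBot (nhds 0) := by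
    have h1 : Filter.Tendsto x Filter.atBot Filter.atBot := by
      refine Filter.tendsto_atBot_mono' _ (Filter.eventually_atBot.2 ⟨ξ₀, hb⟩) ?_
      exact Filter.tendsto_atBot_add_const_left _ _ (Filter.tendsto_id.const_mul_atBot hm)
    have h2 := (Real.tendsto_exp_atBot.comp (h1.const_mul_atBot (two_pos))).div_const 2
    simpa using h2
  have h3 := integral_Iic_of_hasDerivAt_of_tendsto' (a := ξ₀)
    (f := fun ξ => Real.exp (2 * x ξ) / 2) (f' := fun ξ => dx ξ * Real.exp (2 * x ξ))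
    (fun ξ _ => by
      have := (((hx ξ).const_mul 2).exp).div_const 2
      refine this.congr_deriv ?_
      ring) hint hlim
  rw [h3, sub_zero]

theorem area_crit {p q M : ℝ} (hp : 0 < p) (hq : q < 2 * p) {g : ℂ → ℂ}
    (hg : DifferentiableOn ℂ g {ζ | |ζ.im| < Real.pi})
    (hg' : ∀ ζ : ℂ, |ζ.im| ≤ Real.pi / 2 → ‖deriv g ζ - 2 * p‖ ≤ q)
    (hsym : ∀ ζ : ℂ, |ζ.im| ≤ Real.pi / 2 → g ((starRingEnd ℂ) ζ) = (starRingEnd ℂ) (g ζ))
    (hM : ∀ ξ : ℝ, |(g (ξ + (Real.pi / 2 : ℝ) * Complex.I)).im| ≤ M)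
    (hcond : ∀ ξ₀ : ℝ, ∫ ξ in Iic ξ₀, ((g (ξ + (Real.pi / 2 : ℝ) * Complex.I)).im - Real.pi * p) *
      (Real.exp (2 * (g (ξ + (Real.pi / 2 : ℝ) * Complex.I)).re) *
        (deriv g (ξ + (Real.pi / 2 : ℝ) * Complex.I)).re) ≤ 0) :
    MQV.MV MQV.Str p (fun ζ => Complex.exp (g ζ)) := by
  have hpi := Real.pi_pos
  have hb2 : |Real.pi / 2| ≤ Real.pi / 2 := by rw [abs_of_pos (by positivity)]
  have hb0 : |(0 : ℝ)| ≤ Real.pi / 2 := by rw [abs_zero]; positivity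
  set x : ℝ → ℝ := fun ξ => (g (ξ + (Real.pi / 2 : ℝ) * Complex.I)).re with hxdef
  set V : ℝ → ℝ := fun ξ => (g (ξ + (Real.pi / 2 : ℝ) * Complex.I)).im with hVdef
  set dx : ℝ → ℝ := fun ξ => (deriv g (ξ + (Real.pi / 2 : ℝ) * Complex.I)).re with hdxdef
  have hx : ∀ ξ, HasDerivAt x (dx ξ) ξ := fun ξ => Kar_line hg hb2 ξ
  have hgb : ∀ ξ : ℝ, ‖deriv g ((ξ : ℂ) + (Real.pi / 2 : ℝ) * Complex.I) - 2 * p‖ ≤ q :=
    fun ξ => hg' _ (by rw [Kar_im]; exact hb2)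
  have hdx : ∀ ξ, 0 < dx ξ := fun ξ => by have := Kar_re (hgb ξ); simp only [hdxdef]; linarith
  have hdD : ∀ ξ, dx ξ ≤ 2 * p + q := fun ξ => Kar_re_le (hgb ξ)
  have hVc : Continuous V := Complex.continuous_im.comp (Kar_cont hg hb2)
  have hdc : Continuous dx := by
    refine Complex.continuous_re.comp (continuous_iff_continuousAt.2 fun ξ => ?_)
    have h1 : DifferentiableOn ℂ (deriv g) {ζ | |ζ.im| < Real.pi} := hg.deriv Kar_open
    have h2 : ContinuousAt (deriv g) ((ξ : ℂ) + (Real.pi / 2 : ℝ) * Complex.I) :=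
      (h1.differentiableAt (Kar_open.mem_nhds (by
        show |((ξ : ℂ) + (Real.pi / 2 : ℝ) * Complex.I).im| < Real.pi
        rw [Kar_im, abs_of_pos (by positivity)]
        linarith))).continuousAt
    exact ContinuousAt.comp (f := fun ξ : ℝ => (ξ : ℂ) + (Real.pi / 2 : ℝ) * Complex.I) h2
      (by fun_prop)
  have hVpos : ∀ ξ, 0 < V ξ := by
    intro ξ
    obtain ⟨t, ht⟩ := Kar_surj hq hg hg' hb0 (x ξ)
    have hstr : ((t : ℂ) + ((0 : ℝ) : ℂ) * Complex.I) ∈ MQV.Str := by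
      show |((t : ℂ) + ((0 : ℝ) : ℂ) * Complex.I).im| < Real.pi / 2
      rw [Kar_im, abs_zero]
      positivity
    exact (abs_nonneg _).trans_lt (under hp hq hg hg' hsym hstr ht.symm)
  have hgr : ∀ s t : ℝ, s ≤ t → x s + (2 * p - q) * (t - s) ≤ x t :=
    fun s t hst => Kar_grow hg hg' hb2 hst
  have hmono : StrictMono x := strictMono_of_hasDerivAt_pos hx hdx
  have hStr : ∀ ζ ∈ MQV.Str, |ζ.im| ≤ Real.pi / 2 := fun ζ h => le_of_lt h
  have hStrO : IsOpen MQV.Str := isOpen_lt Complex.continuous_im.abs continuous_const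
  have hgS : DifferentiableOn ℂ g MQV.Str := hg.mono fun ζ h =>
    lt_trans (show |ζ.im| < Real.pi / 2 from h) (by linarith)
  refine ⟨hgS.cexp, fun R hR => ?_⟩
  obtain ⟨ξ₀, hξ₀⟩ := Kar_surj hq hg hg' hb2 (Real.log R)
  have hxU : x ξ₀ = Real.log R := hξ₀
  set T : Set ℂ := {z | z ∈ MQV.Str ∧ (g z).re < Real.log R} with hT
  have hTm : MeasurableSet T := by
    have hcont : ContinuousOn (fun z => (g z).re) MQV.Str :=
      Complex.continuous_re.comp_continuousOn hgS.continuousOn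
    exact (hcont.isOpen_inter_preimage hStrO isOpen_Iio).measurableSet
  have hset : {z | z ∈ MQV.Str ∧ 0 ≤ ‖Complex.exp (g z)‖ ∧ ‖Complex.exp (g z)‖ < R} = T := by
    ext z
    simp only [hT, mem_setOf_eq, Complex.norm_exp, Real.lt_log_iff_exp_lt hR,
      (Real.exp_pos _).le, true_and]
  have hinj : Set.InjOn g T := by
    intro z hz w hw hzw
    obtain ⟨c, hc, h⟩ := slope hg hg' (hStr z hz.1) (hStr w hw.1)
    rw [hzw, sub_self] at h
    have hcr := Kar_re hc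
    have hc0 : c ≠ 0 := by
      intro h0
      rw [h0, Complex.zero_re] at hcr
      linarith
    rcases mul_eq_zero.1 h.symm with h1 | h1
    · exact (sub_eq_zero.1 h1).symm
    · exact absurd h1 hc0
  have hcv := lintegral_image_eq_lintegral_abs_det_fderiv_mul volume hTm
    (f := g) (f' := fun z => (ContinuousLinearMap.smulRight (1 : ℂ →L[ℂ] ℂ)
      (deriv g z)).restrictScalars ℝ)
    (fun z hz => ((Kar_diff hg (hStr z hz.1)).hasFDerivAt.restrictScalars ℝ).hasFDerivWithinAt)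
    hinj (fun w => ENNReal.ofReal (Real.exp (2 * w.re)))
  have h1 : MQV.ar MQV.Str (fun ζ => Complex.exp (g ζ)) 0 R =
      ∫⁻ w in g '' T, ENNReal.ofReal (Real.exp (2 * w.re)) := by
    unfold MQV.ar
    rw [hset, hcv]
    refine setLIntegral_congr_fun hTm fun z hz => ?_
    have h2 : deriv (fun ζ => Complex.exp (g ζ)) z = Complex.exp (g z) * deriv g z :=
      ((Kar_diff hg (hStr z hz.1)).cexp).deriv
    rw [Kar_det, abs_of_nonneg (by positivity), ← ENNReal.ofReal_mul (by positivity), h2, norm_mul,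
      Complex.norm_exp, mul_pow, ← Real.exp_nat_mul, mul_comm]
    push_cast
    rfl
  rw [h1]
  set Ψ : ℝ × ℝ → ℝ × ℝ := fun q => (x q.1, q.2) with hΨ
  set D : Set (ℝ × ℝ) := {q : ℝ × ℝ | q.1 < ξ₀ ∧ |q.2| < V q.1} with hD
  have hsub : g '' T ⊆ Complex.measurableEquivRealProd ⁻¹' (Ψ '' D) := by
    rintro w ⟨z, hz, rfl⟩
    obtain ⟨ξ, hξ⟩ := Kar_surj hq hg hg' hb2 (g z).re
    have h2 := under hp hq hg hg' hsym hz.1 hξ
    refine ⟨(ξ, (g z).im), ⟨?_, h2⟩, ?_⟩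
    · have h3 : x ξ < x ξ₀ := by
        rw [hxU]
        have : x ξ = (g z).re := hξ
        rw [this]
        exact hz.2
      exact hmono.lt_iff_lt.1 h3
    · show (x ξ, (g z).im) = ((g z).re, (g z).im)
      have : x ξ = (g z).re := hξ
      rw [this]
  refine (lintegral_mono_set hsub).trans ?_
  have h5 : ∫⁻ w in Complex.measurableEquivRealProd ⁻¹' (Ψ '' D),
      ENNReal.ofReal (Real.exp (2 * w.re)) = ∫⁻ q in Ψ '' D, ENNReal.ofReal (Real.exp (2 * q.1)) := by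
    have := Complex.volume_preserving_equiv_real_prod.setLIntegral_comp_preimage_emb
      Complex.measurableEquivRealProd.measurableEmbedding
      (fun q : ℝ × ℝ => ENNReal.ofReal (Real.exp (2 * q.1))) (Ψ '' D)
    rw [← this]
    rfl
  rw [h5, hΨ, hD, Kar_region hx hdx hdc hVc ξ₀]
  obtain ⟨hi, hI⟩ := Kar_int (by linarith : 0 < 2 * p - q) hx hdx hdc hdD hgr ξ₀
  have hi2 : IntegrableOn (fun ξ => (V ξ - Real.pi * p) * (dx ξ * Real.exp (2 * x ξ)))
      (Iic ξ₀) := by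
    refine Integrable.bdd_mul (c := M + Real.pi * p) hi
      (hVc.sub continuous_const).aestronglyMeasurable (Filter.Eventually.of_forall fun ξ => ?_)
    have h6 := hM ξ
    rw [Real.norm_eq_abs]
    refine (abs_sub _ _).trans ?_
    rw [abs_of_pos (show 0 < Real.pi * p by positivity)]
    exact add_le_add h6 le_rfl
  have hc0 := hcond ξ₀
  have hc1 : ∫ ξ in Iic ξ₀, (V ξ - Real.pi * p) * (dx ξ * Real.exp (2 * x ξ)) ≤ 0 := by
    refine le_trans (le_of_eq ?_) hc0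
    refine integral_congr_ae (Filter.Eventually.of_forall fun ξ => ?_)
    simp only [hxdef, hVdef, hdxdef]
    ring
  have h6 : ∫⁻ ξ in Iio ξ₀, ENNReal.ofReal (2 * V ξ) *
      ENNReal.ofReal (dx ξ * Real.exp (2 * x ξ)) =
      ENNReal.ofReal (∫ ξ in Iic ξ₀, 2 * V ξ * (dx ξ * Real.exp (2 * x ξ))) := by
    have h7 : IntegrableOn (fun ξ => 2 * V ξ * (dx ξ * Real.exp (2 * x ξ))) (Iic ξ₀) := by
      have h8 := (hi2.const_mul 2).add (hi.const_mul (2 * (Real.pi * p)))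
      refine h8.congr (Filter.Eventually.of_forall fun ξ => ?_)
      show 2 * ((V ξ - Real.pi * p) * (dx ξ * Real.exp (2 * x ξ))) +
        2 * (Real.pi * p) * (dx ξ * Real.exp (2 * x ξ)) = 2 * V ξ * (dx ξ * Real.exp (2 * x ξ))
      ring
    rw [setLIntegral_congr Iio_ae_eq_Iic, ofReal_integral_eq_lintegral_ofReal h7]
    · refine lintegral_congr fun ξ => ?_
      have := hVpos ξ
      rw [← ENNReal.ofReal_mul (by positivity)]
    · refine Filter.Eventually.of_forall fun ξ => ?_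
      have h9 := hVpos ξ
      have h10 := hdx ξ
      show 0 ≤ 2 * V ξ * (dx ξ * Real.exp (2 * x ξ))
      positivity
  rw [h6]
  refine ENNReal.ofReal_le_ofReal ?_
  have h7 : ∫ ξ in Iic ξ₀, 2 * V ξ * (dx ξ * Real.exp (2 * x ξ)) =
      2 * (∫ ξ in Iic ξ₀, (V ξ - Real.pi * p) * (dx ξ * Real.exp (2 * x ξ))) +
        2 * (Real.pi * p) * ∫ ξ in Iic ξ₀, dx ξ * Real.exp (2 * x ξ) := by
    rw [← integral_const_mul, ← integral_const_mul,
      ← integral_add (hi2.const_mul 2) (hi.const_mul (2 * (Real.pi * p)))]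
    refine integral_congr_ae (Filter.Eventually.of_forall fun ξ => ?_)
    show 2 * V ξ * (dx ξ * Real.exp (2 * x ξ)) =
      2 * ((V ξ - Real.pi * p) * (dx ξ * Real.exp (2 * x ξ))) +
        2 * (Real.pi * p) * (dx ξ * Real.exp (2 * x ξ))
    ring
  rw [h7, hI, hxU]
  have h8 : Real.exp (2 * Real.log R) = R ^ 2 := by
    rw [← Real.exp_log hR, Real.log_exp, ← Real.exp_nat_mul]
    push_cast
    rfl
  rw [h8]
  linarith

end MQK
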