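import Pool.Agent.MQV.Cof
import Pool.Agent.MQV.Cmp
import Pool.Agent.MQV.Exm

set_option autoImplicit false

/-!
# MQK : `K_p > 4^p / Γ(2p)` for `1/4 < p < 1` (problem MP_a1ed50_an)

`W = Wd z = (1-z)/(1+z)` maps the disc onto the right half plane, `bs p z = W^(-2p)` has
`a_n ~ 4^p/Γ(2p) n^(2p-1)`.  The functions
`f_n z = bs p z * exp (ε * kk B N ((2n/Y) W))`, `Y = N + t`, `B = σ c₀ N`, are mean `p`-valent for small
`ε > 0` (`kk = ka + B kb`; `ka` pays for the area at second order, `kb` oscillates and raises the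
`n`-th coefficient by `≈ ε c₀ N Y^(1-2p) |g| n^(2p-1)`, which beats the loss `≤ ε C Y^(1-p) n^(2p-1)` due to
`ka` because `p < 1`).
-/

open MeasureTheory Metric Set

namespace MQK

/-- disc to right half plane -/
noncomputable def Wd (z : ℂ) : ℂ := (1 - z) / (1 + z)

/-- `((1+z)/(1-z))^(2p)` -/
noncomputable def bs (p : ℝ) (z : ℂ) : ℂ := Complex.exp (2 * p * MQV.lg z)

/-- the damping part -/
noncomputable def ka (u : ℂ) : ℂ := -1 / (1 + u)

/-- the oscillating part -/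
noncomputable def kb (N : ℝ) (u : ℂ) : ℂ := Complex.exp (-(N * u)) * (u ^ 2 / (1 + u) ^ 4)

/-- the perturbation, on the right half plane -/
noncomputable def kk (B N : ℝ) (u : ℂ) : ℂ := ka u + B * kb N u

/-- the perturbation, on the strip (`u = e^{-ζ}`) -/
noncomputable def KS (B N : ℝ) (ζ : ℂ) : ℂ := kk B N (Complex.exp (-ζ))

/-- the weight `min (e^{(4p+1)ξ}) (e^{(4p-1)ξ})` -/
noncomputable def mm (p ξ : ℝ) : ℝ := min (Real.exp ((4 * p + 1) * ξ)) (Real.exp ((4 * p - 1) * ξ))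

/-- `(1+iη)^(2-2p)/(2+iη)^4` -/
noncomputable def ph (p η : ℝ) : ℂ :=
  Complex.exp ((2 - 2 * p) * Complex.log (1 + η * Complex.I)) / (2 + η * Complex.I) ^ 4

/-- the gain `(1/2π) ∫ ph p η e^{t(1+iη)} dη` -/
noncomputable def gn (p t : ℝ) : ℂ :=
  1 / (2 * Real.pi) * ∫ η : ℝ, ph p η * Complex.exp (t * (1 + η * Complex.I))

end MQK
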