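import Pool.Agent.MQK.Kdf
import Pool.Agent.MQV.Cvt

set_option autoImplicit false

/-!
# MQK KLI : the line `z = e^{-w/n}`, `Re w = x`, and coefficients

`v = w/(2n)`: `Wd (e^{-w/n}) = (1-e^{-2v})/(1+e^{-2v}) = sinh v/cosh v`.
* `wd_line`: `0 < Re v ≤ 1`, `|Im v| ≤ π/2`: `‖sinh v‖² = sinh² (Re v) + sin² (Im v) ≥ (2/π)² ‖v‖²`
  (`Real.mul_le_sin`), `‖cosh v‖² = sinh² (Re v) + cos² (Im v) ≤ cosh² 1 < 1.544²`, `(2/π)/1.544 ≥ 2/5`.
  `Re Wd z > 0` for `z` in the disc (`Re Wd z = (1-‖z‖²)/‖1+z‖²`).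
* `bs_norm`: `bs p z = exp (2p lg z)`, `Re lg z = log ‖(1+z)/(1-z)‖ = - log ‖Wd z‖`.
* `wd_tendsto`: `2n Wd (e^{-w/n}) = w (sinh v/v)/cosh v → w`.
* `bs_tendsto`: `MQV.lg_exp` (`K = |Im w| + 1`-like; scale to arbitrary `Re w`: or directly
  `lg (e^{-w/n}) - log n = log ((2n... )/...)`: `exp (lg z) = 1/Wd z`, so
  `lg z = - log (Wd z)` and `n^{-2p} bs p z = exp (-2p log (n Wd z))` (`log (n W) = log n + log W` for real
  `n > 0`), which tends to `exp (-2p log (w/2)) = 4^p exp (-2p log w)` by continuity of `log` at `w/2`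
  (`Re w > 0`).
* `coef_le`: `MQV.cof_line`, `‖e^{x+iy}‖ = e^x`.
* `coef_lim`: `n^{1-q} a_n = (1/2π) ∫ 1_{|y| ≤ πn} n^{-q} gs e^{x+iy} dy`, dominated convergence.
-/

open MeasureTheory Metric Set Filter Topology

namespace MQK

private theorem ball_ne {z : ℂ} (hz : z ∈ ball (0 : ℂ) 1) : 1 + z ≠ 0 ∧ 1 - z ≠ 0 := by
  rw [mem_ball_zero_iff] at hz
  constructor
  · intro h
    have h1 : z = -1 := by linear_combination h
    rw [h1, norm_neg, norm_one] at hz
    exact lt_irrefl _ hz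
  · intro h
    have h1 : z = 1 := by linear_combination -h
    rw [h1, norm_one] at hz
    exact lt_irrefl _ hz

theorem wd_re {z : ℂ} (hz : z ∈ ball (0 : ℂ) 1) : 0 < (Wd z).re := by
  have h1 := (ball_ne hz).1
  have h2 : 0 < Complex.normSq (1 + z) := Complex.normSq_pos.2 h1
  have h3 : z.re * z.re + z.im * z.im < 1 := by
    rw [mem_ball_zero_iff] at hz
    have h4 : ‖z‖ ^ 2 < 1 := by
      have := norm_nonneg z
      nlinarith
    rw [Complex.sq_norm, Complex.normSq_apply] at h4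
    exact h4
  unfold Wd
  rw [Complex.div_re, ← add_div]
  refine div_pos ?_ h2
  simp only [Complex.sub_re, Complex.sub_im, Complex.add_re, Complex.add_im, Complex.one_re,
    Complex.one_im]
  nlinarith

theorem wd_diff : DifferentiableOn ℂ Wd (ball 0 1) := by
  unfold Wd
  exact ((differentiable_const _).sub differentiable_id).differentiableOn.div
    ((differentiable_const _).add differentiable_id).differentiableOn fun z hz => (ball_ne hz).1

theorem bs_diff (p : ℝ) : DifferentiableOn ℂ (bs p) (ball 0 1) := by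
  unfold bs
  exact (MQV.lg_diff.const_mul _).cexp

private theorem sinh_sq_le {a : ℝ} (h0 : 0 < a) (h1 : a ≤ 1) : Real.sinh a ^ 2 ≤ 3 / 2 := by
  have h2 : Real.sinh a ≤ Real.sinh 1 := Real.sinh_le_sinh.2 h1
  have h3 : 0 ≤ Real.sinh a := (Real.sinh_nonneg_iff).2 h0.le
  have h4 : Real.sinh 1 ≤ 6 / 5 := by
    rw [Real.sinh_eq]
    have := Real.exp_one_lt_d9
    have := Real.exp_neg_one_gt_d9
    linarith
  nlinarith

private theorem sin_sq_ge {b : ℝ} (h : |b| ≤ Real.pi / 2) : 2 / 5 * b ^ 2 ≤ Real.sin b ^ 2 := by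
  have h1 := Real.mul_abs_le_abs_sin h
  have h2 : 0 ≤ 2 / Real.pi * |b| := by positivity
  have h3 : (2 / Real.pi * |b|) ^ 2 ≤ |Real.sin b| ^ 2 := pow_le_pow_left₀ h2 h1 2
  rw [sq_abs, mul_pow, sq_abs, div_pow] at h3
  refine le_trans (mul_le_mul_of_nonneg_right ?_ (sq_nonneg b)) h3
  rw [div_le_div_iff₀ (by norm_num) (by positivity)]
  have h4 := Real.pi_lt_d2
  have h5 := Real.pi_pos
  nlinarith

theorem wd_line {n : ℕ} (hn : 1 ≤ n) {w : ℂ} (h0 : 0 < w.re) (h1 : w.re ≤ 2 * n)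
    (h2 : |w.im| ≤ Real.pi * n) :
    2 / 5 * ‖w‖ ≤ 2 * n * ‖Wd (Complex.exp (-w / n))‖ := by
  have hn0 : (0 : ℝ) < n := by exact_mod_cast hn
  have hnC : (n : ℂ) ≠ 0 := by exact_mod_cast hn0.ne'
  set a : ℝ := w.re / (2 * n) with ha
  set b : ℝ := w.im / (2 * n) with hb
  have ha0 : 0 < a := by positivity
  have ha1 : a ≤ 1 := by
    rw [ha, div_le_one (by positivity)]
    exact h1
  have hb1 : |b| ≤ Real.pi / 2 := by
    rw [hb, abs_div, abs_of_pos (by positivity : (0 : ℝ) < 2 * n), div_le_div_iff₀ (by positivity)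
      (by norm_num)]
    linarith
  set E : ℂ := Complex.exp (-w / n) with hE
  set ρ : ℝ := Real.exp (-(2 * a)) with hρ
  have hρ0 : 0 < ρ := Real.exp_pos _
  have e1 : (-w / (n : ℂ)).re = -(2 * a) := by
    have : -w / (n : ℂ) = ((1 / (n : ℝ) : ℝ) : ℂ) * (-w) := by push_cast; ring
    rw [this, Complex.re_ofReal_mul, Complex.neg_re, ha]
    field_simp
  have e2 : (-w / (n : ℂ)).im = -(2 * b) := by
    have : -w / (n : ℂ) = ((1 / (n : ℝ) : ℝ) : ℂ) * (-w) := by push_cast; ring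
    rw [this, Complex.im_ofReal_mul, Complex.neg_im, hb]
    field_simp
  have e3 : E.re = ρ * Real.cos (2 * b) := by
    rw [hE, Complex.exp_re, e1, e2, Real.cos_neg]
  have e4 : E.im = -(ρ * Real.sin (2 * b)) := by
    rw [hE, Complex.exp_im, e1, e2, Real.sin_neg]
    ring
  have e5 := Real.sin_sq_add_cos_sq (2 * b)
  have e6 : Real.cos (2 * b) = 1 - 2 * Real.sin b ^ 2 := by
    rw [Real.cos_two_mul, Real.cos_sq']
    ring
  have n1 : ‖1 - E‖ ^ 2 = (1 - ρ) ^ 2 + 4 * ρ * Real.sin b ^ 2 := by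
    rw [Complex.sq_norm, Complex.normSq_apply, Complex.sub_re, Complex.sub_im, Complex.one_re,
      Complex.one_im, e3, e4]
    have : (1 - ρ * Real.cos (2 * b)) * (1 - ρ * Real.cos (2 * b)) +
        (0 - -(ρ * Real.sin (2 * b))) * (0 - -(ρ * Real.sin (2 * b))) =
        1 - 2 * ρ * Real.cos (2 * b) + ρ ^ 2 * (Real.sin (2 * b) ^ 2 + Real.cos (2 * b) ^ 2) := by
      ring
    rw [this, e5, e6]
    ring
  have n2 : ‖1 + E‖ ^ 2 ≤ (1 + ρ) ^ 2 := by
    rw [Complex.sq_norm, Complex.normSq_apply, Complex.add_re, Complex.add_im, Complex.one_re,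
      Complex.one_im, e3, e4]
    have : (1 + ρ * Real.cos (2 * b)) * (1 + ρ * Real.cos (2 * b)) +
        (0 + -(ρ * Real.sin (2 * b))) * (0 + -(ρ * Real.sin (2 * b))) =
        1 + 2 * ρ * Real.cos (2 * b) + ρ ^ 2 * (Real.sin (2 * b) ^ 2 + Real.cos (2 * b) ^ 2) := by
      ring
    rw [this, e5]
    nlinarith [Real.cos_le_one (2 * b)]
  have r1 : (1 - ρ) ^ 2 = 4 * ρ * Real.sinh a ^ 2 := by
    have q1 : Real.exp a * Real.exp (-a) = 1 := by rw [← Real.exp_add]; simp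
    have q2 : ρ = Real.exp (-a) * Real.exp (-a) := by
      rw [hρ, ← Real.exp_add]
      ring_nf
    rw [Real.sinh_eq, q2]
    linear_combination (-(Real.exp a * Real.exp (-a)) - 1 + 2 * Real.exp (-a) ^ 2) * q1
  have r2 : (1 + ρ) ^ 2 = 4 * ρ + 4 * ρ * Real.sinh a ^ 2 := by
    rw [← r1]
    ring
  have hw : w = ((2 * n : ℝ) : ℂ) * ⟨a, b⟩ := by
    apply Complex.ext
    · rw [Complex.re_ofReal_mul, ha]
      field_simp
    · rw [Complex.im_ofReal_mul, hb]
      field_simp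
  have hwn : ‖w‖ = 2 * n * ‖(⟨a, b⟩ : ℂ)‖ := by
    rw [hw, norm_mul, Complex.norm_real, Real.norm_of_nonneg (by positivity)]
  have hv : ‖(⟨a, b⟩ : ℂ)‖ ^ 2 = a ^ 2 + b ^ 2 := by
    rw [Complex.sq_norm, Complex.normSq_apply]
    ring
  have hE1 : 1 + E ≠ 0 := (ball_ne (MQV.exp_mem hn h0)).1
  have key : 2 / 5 * ‖(⟨a, b⟩ : ℂ)‖ * ‖1 + E‖ ≤ ‖1 - E‖ := by
    refine le_of_sq_le_sq ?_ (norm_nonneg _)
    rw [mul_pow, mul_pow, hv, n1]
    have s1 := sinh_sq_le ha0 ha1
    have s2 := sin_sq_ge hb1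
    have s3 : a ≤ Real.sinh a := Real.self_le_sinh_iff.2 ha0.le
    have s4 : a ^ 2 ≤ Real.sinh a ^ 2 := pow_le_pow_left₀ ha0.le s3 2
    have s5 : (2 / 5) ^ 2 * (a ^ 2 + b ^ 2) * ‖1 + E‖ ^ 2 ≤
        (2 / 5) ^ 2 * (a ^ 2 + b ^ 2) * (10 * ρ) := by
      refine mul_le_mul_of_nonneg_left (n2.trans ?_) (by positivity)
      rw [r2]
      nlinarith
    refine s5.trans ?_
    rw [r1]
    nlinarith [mul_le_mul_of_nonneg_left s4 hρ0.le, mul_le_mul_of_nonneg_left s2 hρ0.le,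
      mul_nonneg hρ0.le (sq_nonneg a)]
  unfold Wd
  rw [norm_div, hwn]
  have key2 : 2 / 5 * ‖(⟨a, b⟩ : ℂ)‖ ≤ ‖1 - E‖ / ‖1 + E‖ := by
    rw [le_div_iff₀ (norm_pos_iff.2 hE1)]
    exact key
  nlinarith [mul_le_mul_of_nonneg_left key2 (by positivity : (0 : ℝ) ≤ 2 * n)]

private theorem lg_eq {z : ℂ} (hz : z ∈ ball (0 : ℂ) 1) : MQV.lg z = -Complex.log (Wd z) := by
  have h1 : (1 + z) / (1 - z) = (Wd z)⁻¹ := by
    unfold Wd
    rw [inv_div]
  unfold MQV.lg
  rw [h1, Complex.log_inv]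
  intro h
  have h2 := wd_re hz
  have h3 : |(Wd z).arg| < Real.pi / 2 := Complex.abs_arg_lt_pi_div_two_iff.2 (Or.inl h2)
  rw [h, abs_of_pos Real.pi_pos] at h3
  linarith [Real.pi_pos]

theorem bs_norm (p : ℝ) {z : ℂ} (hz : z ∈ ball (0 : ℂ) 1) :
    ‖bs p z‖ = ‖Wd z‖ ^ (-(2 * p)) := by
  have h0 : Wd z ≠ 0 := fun h => by
    have := wd_re hz
    rw [h, Complex.zero_re] at this
    exact lt_irrefl _ this
  unfold bs
  rw [Complex.norm_exp, lg_eq hz, Real.rpow_def_of_pos (norm_pos_iff.2 h0)]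
  congr 1
  have h1 : 2 * (p : ℂ) * -Complex.log (Wd z) = ((-(2 * p) : ℝ) : ℂ) * Complex.log (Wd z) := by
    push_cast
    ring
  rw [h1, Complex.re_ofReal_mul, Complex.log_re]
  ring

theorem wd_tendsto {w : ℂ} (hw : 0 < w.re) :
    Tendsto (fun n : ℕ => 2 * (n : ℂ) * Wd (Complex.exp (-w / n))) atTop (𝓝 w) := by
  have hd : HasDerivAt (fun s : ℂ => 2 * Wd (Complex.exp (-w * s))) w 0 := by
    have e1 : HasDerivAt (fun s : ℂ => Complex.exp (-w * s)) (-w) 0 := by
      have h := ((hasDerivAt_id (0 : ℂ)).const_mul (-w)).cexp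
      simpa using h
    have e2 := (e1.const_sub 1).div (e1.const_add 1) (by simp)
    have e3 := e2.const_mul 2
    unfold Wd
    have e4 : (2 : ℂ) * ((-(-w) * (1 + Complex.exp (-w * 0)) - (1 - Complex.exp (-w * 0)) * -w) /
        (1 + Complex.exp (-w * 0)) ^ 2) = w := by
      simp
      ring
    rw [e4] at e3
    exact e3
  have hs := hd.tendsto_slope_zero
  have ht : Tendsto (fun n : ℕ => ((n : ℂ))⁻¹) atTop (𝓝[≠] 0) := by
    refine tendsto_nhdsWithin_iff.2 ⟨tendsto_inv_atTop_nhds_zero_nat, ?_⟩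
    filter_upwards [eventually_ge_atTop 1] with n hn
    have : (n : ℂ) ≠ 0 := by
      have : (0 : ℝ) < n := by exact_mod_cast hn
      exact_mod_cast this.ne'
    exact inv_ne_zero this
  refine (hs.comp ht).congr fun n => ?_
  simp only [Function.comp_apply, inv_inv, zero_add, mul_zero, Complex.exp_zero, smul_eq_mul]
  have h1 : Wd 1 = 0 := by simp [Wd]
  rw [h1, ← div_eq_mul_inv]
  ring

theorem bs_tendsto (p : ℝ) {w : ℂ} (hw : 0 < w.re) :
    Tendsto (fun n : ℕ => (((n : ℝ) ^ (-(2 * p)) : ℝ) : ℂ) * bs p (Complex.exp (-w / n))) atTop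
      (𝓝 (((4 : ℝ) ^ p : ℝ) * Complex.exp (-(2 * p) * Complex.log w))) := by
  have h1 := (wd_tendsto hw).div_const 2
  have hs : w / 2 ∈ Complex.slitPlane := by
    refine Or.inl ?_
    have : w / 2 = ((1 / 2 : ℝ) : ℂ) * w := by push_cast; ring
    rw [this, Complex.re_ofReal_mul]
    linarith
  have h2 := ((h1.clog hs).const_mul (-(2 * p : ℂ))).cexp
  have h3 : Complex.exp (-(2 * p : ℂ) * Complex.log (w / 2)) =
      ((4 : ℝ) ^ p : ℝ) * Complex.exp (-(2 * p) * Complex.log w) := by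
    have h4 : Complex.log (w / 2) = Complex.log w - (Real.log 2 : ℝ) := by
      have h5 : w / 2 = ((1 / 2 : ℝ) : ℂ) * w := by push_cast; ring
      have hw0 : w ≠ 0 := fun h => by
        rw [h, Complex.zero_re] at hw
        exact lt_irrefl _ hw
      rw [h5, Complex.log_ofReal_mul (by norm_num) hw0]
      rw [show (1 / 2 : ℝ) = 2⁻¹ by norm_num, Real.log_inv]
      push_cast
      ring
    have h6 : ((4 : ℝ) ^ p : ℝ) = Real.exp (2 * p * Real.log 2) := by
      rw [Real.rpow_def_of_pos (by norm_num), show (4 : ℝ) = 2 ^ 2 by norm_num, Real.log_pow]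
      push_cast
      ring_nf
    rw [h4, h6, Complex.ofReal_exp, ← Complex.exp_add]
    congr 1
    push_cast
    ring
  rw [h3] at h2
  refine h2.congr' ?_
  filter_upwards [eventually_ge_atTop 1] with n hn
  have hn0 : (0 : ℝ) < n := by exact_mod_cast hn
  have hm := MQV.exp_mem hn hw
  have hW := wd_re hm
  have hW0 : Wd (Complex.exp (-w / n)) ≠ 0 := fun h => by
    rw [h, Complex.zero_re] at hW
    exact lt_irrefl _ hW
  have h7 : 2 * (n : ℂ) * Wd (Complex.exp (-w / n)) / 2 =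
      ((n : ℝ) : ℂ) * Wd (Complex.exp (-w / n)) := by
    push_cast
    ring
  rw [h7, Complex.log_ofReal_mul hn0 hW0]
  unfold bs
  rw [lg_eq hm, Real.rpow_def_of_pos hn0, Complex.ofReal_exp, ← Complex.exp_add]
  congr 1
  push_cast
  ring

private theorem kli_cont {f : ℂ → ℂ} (hf : DifferentiableOn ℂ f (ball 0 1)) {n : ℕ} (hn : 1 ≤ n)
    {x : ℝ} (hx : 0 < x) :
    Continuous fun y : ℝ => MQV.gs f n (x + y * Complex.I) * Complex.exp (x + y * Complex.I) := by
  have h1 : Continuous fun y : ℝ => (x : ℂ) + y * Complex.I :=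
    continuous_const.add (Complex.continuous_ofReal.mul continuous_const)
  have h2 : Continuous fun y : ℝ => MQV.gs f n (x + y * Complex.I) := by
    refine (MQV.gs_diff hf hn).continuousOn.comp_continuous h1 fun y => ?_
    simp only [mem_setOf_eq, Complex.add_re, Complex.ofReal_re, Complex.mul_re, Complex.ofReal_im,
      Complex.I_re, Complex.I_im]
    simpa using hx
  exact h2.mul (Complex.continuous_exp.comp h1)

private theorem kli_exp (x y : ℝ) : ‖Complex.exp (x + y * Complex.I)‖ = Real.exp x := by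
  rw [Complex.norm_exp]
  simp

/-- coefficient bound from a bound on a line -/
theorem coef_le {f : ℂ → ℂ} (hf : DifferentiableOn ℂ f (ball 0 1)) {n : ℕ} (hn : 1 ≤ n) {x q : ℝ}
    (hx : 0 < x) {D : ℝ → ℝ} (hD : Integrable D) (hD0 : ∀ y, 0 ≤ D y)
    (hb : ∀ y : ℝ, |y| ≤ Real.pi * n → ‖MQV.gs f n (x + y * Complex.I)‖ ≤ (n : ℝ) ^ q * D y) :
    ‖MPV.coef f n‖ ≤ (Real.exp x / (2 * Real.pi) * ∫ y, D y) * (n : ℝ) ^ (q - 1) := by
  have hn0 : (0 : ℝ) < n := by exact_mod_cast hn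
  have hpi := Real.pi_pos
  have hle : -(Real.pi * n) ≤ Real.pi * (n : ℝ) := by
    have : 0 ≤ Real.pi * (n : ℝ) := by positivity
    linarith
  have h1 := MQV.cof_line hf hn hx
  have h2 : ‖∫ y in (-(Real.pi * n))..(Real.pi * n),
      MQV.gs f n (x + y * Complex.I) * Complex.exp (x + y * Complex.I)‖ ≤
      ∫ y in (-(Real.pi * n))..(Real.pi * n), (n : ℝ) ^ q * Real.exp x * D y := by
    refine intervalIntegral.norm_integral_le_of_norm_le hle (ae_of_all _ fun y hy => ?_)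
      (hD.const_mul _).intervalIntegrable
    rw [norm_mul, kli_exp]
    have h3 := hb y (abs_le.2 ⟨hy.1.le, hy.2⟩)
    have h4 := mul_le_mul_of_nonneg_right h3 (Real.exp_pos x).le
    linarith
  rw [h1, intervalIntegral.integral_const_mul, intervalIntegral.integral_of_le hle] at h2
  have h3 : ∫ y in Ioc (-(Real.pi * n)) (Real.pi * (n : ℝ)), D y ≤ ∫ y, D y :=
    setIntegral_le_integral hD (ae_of_all _ hD0)
  have h4 : ‖2 * (Real.pi : ℂ) * n * MPV.coef f n‖ = 2 * Real.pi * n * ‖MPV.coef f n‖ := by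
    rw [norm_mul, norm_mul, norm_mul, Complex.norm_real, Complex.norm_natCast,
      Real.norm_of_nonneg Real.pi_pos.le]
    norm_num
  rw [h4] at h2
  have h5 := mul_le_mul_of_nonneg_left h3
    (by positivity : 0 ≤ (n : ℝ) ^ q * Real.exp x)
  have h6 := h2.trans h5
  have h7 : (Real.exp x / (2 * Real.pi) * ∫ y, D y) * (n : ℝ) ^ (q - 1) =
      ((n : ℝ) ^ q * Real.exp x * ∫ y, D y) / (2 * Real.pi * n) := by
    rw [Real.rpow_sub_one hn0.ne']
    field_simp
  rw [h7, le_div_iff₀ (by positivity)]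
  linarith

/-- coefficient asymptotics by dominated convergence on a line -/
theorem coef_lim {f : ℕ → ℂ → ℂ} (hf : ∀ n, DifferentiableOn ℂ (f n) (ball 0 1)) {x q : ℝ}
    (hx : 0 < x) {D : ℝ → ℝ} (hD : Integrable D) (hD0 : ∀ y, 0 ≤ D y)
    (hb : ∀ᶠ n : ℕ in atTop, ∀ y : ℝ, |y| ≤ Real.pi * n →
      ‖MQV.gs (f n) n (x + y * Complex.I)‖ ≤ (n : ℝ) ^ q * D y) {Φ : ℝ → ℂ}
    (hlim : ∀ y : ℝ, Tendsto (fun n : ℕ => (((n : ℝ) ^ (-q) : ℝ) : ℂ) *
      MQV.gs (f n) n (x + y * Complex.I)) atTop (𝓝 (Φ y))) :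
    Tendsto (fun n : ℕ => (((n : ℝ) ^ (1 - q) : ℝ) : ℂ) * MPV.coef (f n) n) atTop
      (𝓝 (1 / (2 * Real.pi) * ∫ y : ℝ, Φ y * Complex.exp (x + y * Complex.I))) := by
  have hpi := Real.pi_pos
  set F : ℕ → ℝ → ℂ := fun n => indicator (Ioc (-(Real.pi * n)) (Real.pi * (n : ℝ)))
    (fun y => (((n : ℝ) ^ (-q) : ℝ) : ℂ) *
      (MQV.gs (f n) n (x + y * Complex.I) * Complex.exp (x + y * Complex.I))) with hF
  have h1 : Tendsto (fun n : ℕ => ∫ y : ℝ, F n y) atTop
      (𝓝 (∫ y : ℝ, Φ y * Complex.exp (x + y * Complex.I))) := by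
    refine tendsto_integral_filter_of_dominated_convergence (fun y => Real.exp x * D y) ?_ ?_
      (hD.const_mul _) ?_
    · filter_upwards [eventually_ge_atTop 1] with n hn
      have hc := (kli_cont (hf n) hn hx).const_mul (((n : ℝ) ^ (-q) : ℝ) : ℂ)
      exact hc.aestronglyMeasurable.indicator measurableSet_Ioc
    · filter_upwards [eventually_ge_atTop 1, hb] with n hn hbn
      refine ae_of_all _ fun y => ?_
      have hn0 : (0 : ℝ) < n := by exact_mod_cast hn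
      by_cases hy : y ∈ Ioc (-(Real.pi * n)) (Real.pi * (n : ℝ))
      · simp only [hF, indicator_of_mem hy]
        rw [norm_mul, norm_mul, kli_exp, Complex.norm_real,
          Real.norm_of_nonneg (Real.rpow_nonneg hn0.le _)]
        have h3 := hbn y (abs_le.2 ⟨hy.1.le, hy.2⟩)
        have h4 := mul_le_mul_of_nonneg_left h3 (Real.rpow_nonneg hn0.le (-q))
        rw [← mul_assoc, ← Real.rpow_add hn0, neg_add_cancel, Real.rpow_zero, one_mul] at h4
        have h5 := mul_le_mul_of_nonneg_right h4 (Real.exp_pos x).le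
        linarith
      · simp only [hF, indicator_of_notMem hy, norm_zero]
        exact mul_nonneg (Real.exp_pos x).le (hD0 y)
    · refine ae_of_all _ fun y => ?_
      have h3 := (hlim y).mul_const (Complex.exp (x + y * Complex.I))
      refine h3.congr' ?_
      obtain ⟨m, hm⟩ := exists_nat_ge (|y| + 1)
      filter_upwards [eventually_ge_atTop m] with n hn
      have h4 : |y| + 1 ≤ (n : ℝ) := hm.trans (by exact_mod_cast hn)
      have h5 : |y| < Real.pi * (n : ℝ) := by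
        have h6 := Real.pi_gt_three
        have h7 : (0 : ℝ) ≤ n := Nat.cast_nonneg n
        nlinarith [abs_nonneg y]
      have h6 := abs_lt.1 h5
      have hy : y ∈ Ioc (-(Real.pi * n)) (Real.pi * (n : ℝ)) := ⟨h6.1, h6.2.le⟩
      simp only [hF, indicator_of_mem hy]
      ring
  have h2 := h1.const_mul (1 / (2 * Real.pi) : ℂ)
  refine h2.congr' ?_
  filter_upwards [eventually_ge_atTop 1] with n hn
  have hn0 : (0 : ℝ) < n := by exact_mod_cast hn
  have hle : -(Real.pi * n) ≤ Real.pi * (n : ℝ) := by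
    have : 0 ≤ Real.pi * (n : ℝ) := by positivity
    linarith
  have h3 : ∫ y : ℝ, F n y = (((n : ℝ) ^ (-q) : ℝ) : ℂ) * (2 * Real.pi * n * MPV.coef (f n) n) := by
    rw [← MQV.cof_line (hf n) hn hx, intervalIntegral.integral_of_le hle,
      ← integral_const_mul]
    exact integral_indicator measurableSet_Ioc
  rw [h3]
  have h4 : (((n : ℝ) ^ (1 - q) : ℝ) : ℂ) = (((n : ℝ) ^ (-q) : ℝ) : ℂ) * n := by
    have h5 : (n : ℝ) ^ (1 - q) = (n : ℝ) ^ (-q) * n := by
      rw [show 1 - q = -q + 1 by ring, Real.rpow_add_one hn0.ne']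
    rw [h5]
    push_cast
    ring
  rw [h4]
  have hpiC : (Real.pi : ℂ) ≠ 0 := by exact_mod_cast Real.pi_ne_zero
  field_simp

end MQK
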