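import Pool.Agent.MQK.Kar
import Pool.Agent.MQK.Kfo

set_option autoImplicit false

/-!
# MQK KMV : the perturbed functions are mean `p`-valent

`mv_pert`: `g ζ = 2pζ + ε KS B N ζ` in `area_crit`, `M₁ = 1 + |B| (N+6)` bounds `KS` and `KS'` on the
closed strip; `q = ε M₁ < 2p`.  Write `a = Re KS(ξ+iπ/2)`, `b = Im KS(ξ+iπ/2)`, `a' = Re KS'(ξ+iπ/2)`.
`Im g - πp = ε b`, `e^{2 Re g} Re g' = e^{4pξ} e^{2εa} (2p + ε a')`, and for `0 < ε ≤ 1`
`|e^{2εa}(2p+εa') - 2p| ≤ ε C₁`, `C₁ = 2 M₁ e^{2M₁} (2p+M₁) + M₁`.  So (`first_order`, `ks_im`, `mm_eq`, `mm_int`)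
`∫_{Iic ξ₀} ε b e^{4pξ} e^{2εa} (2p+εa') ≤ ε (-2pc + ε C₁ (1+|B|) C) mm ξ₀ ≤ 0` for small `ε`.

`fn_mv`: `fn z = (2n/Y)^(2p) F (lg z - log (2n/Y))` with `F ζ = exp (2pζ + ε KS ζ)`: `exp (-lg z) = Wd z`
(`MV.shift`, `MV.toBall`, `MV.const_mul`, `MV.congr`).
-/

open MeasureTheory Metric Set

namespace MQK

private theorem abs_exp_sub42 (x : ℝ) : |Real.exp x - 1| ≤ |x| * Real.exp |x| := by
  rcases le_total 0 x with h | h
  · rw [abs_of_nonneg h, abs_of_nonneg (by linarith [Real.add_one_le_exp x])]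
    have h1 := Real.add_one_le_exp (-x)
    have h2 : Real.exp x * Real.exp (-x) = 1 := by rw [← Real.exp_add]; simp
    have h3 := Real.exp_pos x
    nlinarith
  · have h0 : Real.exp x ≤ 1 := Real.exp_le_one_iff.2 h
    rw [abs_of_nonpos h, abs_of_nonpos (by linarith)]
    have h1 := Real.add_one_le_exp x
    have h2 : 1 ≤ Real.exp (-x) := Real.one_le_exp (by linarith)
    nlinarith

private theorem mem_pi42 (ξ : ℝ) :
    ((ξ : ℂ) + (Real.pi / 2 : ℝ) * Complex.I) ∈ {ζ : ℂ | |ζ.im| < Real.pi} := by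
  show |((ξ : ℂ) + (Real.pi / 2 : ℝ) * Complex.I).im| < Real.pi
  have h : ((ξ : ℂ) + (Real.pi / 2 : ℝ) * Complex.I).im = Real.pi / 2 := by simp
  rw [h, abs_of_pos (by positivity)]
  linarith [Real.pi_pos]

private theorem le_pi42 (ξ : ℝ) :
    |((ξ : ℂ) + (Real.pi / 2 : ℝ) * Complex.I).im| ≤ Real.pi / 2 := by
  have h : ((ξ : ℂ) + (Real.pi / 2 : ℝ) * Complex.I).im = Real.pi / 2 := by simp
  rw [h, abs_of_pos (by positivity)]

private theorem open_pi42 : IsOpen {ζ : ℂ | |ζ.im| < Real.pi} :=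
  isOpen_lt (continuous_abs.comp Complex.continuous_im) continuous_const

private theorem cont_line42 {f : ℂ → ℂ} (hf : ContinuousOn f {ζ : ℂ | |ζ.im| < Real.pi}) :
    Continuous fun ξ : ℝ => f ((ξ : ℂ) + (Real.pi / 2 : ℝ) * Complex.I) := by
  have h : Continuous fun ξ : ℝ => ((ξ : ℂ) + (Real.pi / 2 : ℝ) * Complex.I) := by fun_prop
  exact hf.comp_continuous h mem_pi42

private theorem mult42 {p ε M₁ a a' : ℝ} (hp : 0 < p) (hε : 0 ≤ ε) (hε1 : ε ≤ 1)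
    (hM : 0 ≤ M₁) (ha : |a| ≤ M₁) (ha' : |a'| ≤ M₁) :
    |Real.exp (2 * (ε * a)) * (2 * p + ε * a') - 2 * p| ≤
      ε * (2 * M₁ * Real.exp (2 * M₁) * (2 * p + M₁) + M₁) := by
  have h1 : Real.exp (2 * (ε * a)) * (2 * p + ε * a') - 2 * p =
      (Real.exp (2 * (ε * a)) - 1) * (2 * p + ε * a') + ε * a' := by ring
  have h2 := abs_exp_sub42 (2 * (ε * a))
  have h3 : |2 * (ε * a)| = 2 * (ε * |a|) := by
    rw [abs_mul, abs_mul, abs_of_nonneg hε, abs_of_nonneg (by norm_num : (0 : ℝ) ≤ 2)]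
  have h4 : ε * |a| ≤ ε * M₁ := mul_le_mul_of_nonneg_left ha hε
  have h5 : ε * |a| ≤ M₁ := h4.trans (by nlinarith)
  have h6 : |Real.exp (2 * (ε * a)) - 1| ≤ ε * (2 * M₁ * Real.exp (2 * M₁)) := by
    refine h2.trans ?_
    rw [h3]
    have h7 : Real.exp (2 * (ε * |a|)) ≤ Real.exp (2 * M₁) :=
      Real.exp_le_exp.2 (by linarith)
    calc 2 * (ε * |a|) * Real.exp (2 * (ε * |a|)) ≤ 2 * (ε * M₁) * Real.exp (2 * M₁) :=
          mul_le_mul (by linarith) h7 (Real.exp_pos _).le (by positivity)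
      _ = _ := by ring
  have h8 : |2 * p + ε * a'| ≤ 2 * p + M₁ := by
    refine (abs_add_le _ _).trans ?_
    rw [abs_of_nonneg (by linarith : (0 : ℝ) ≤ 2 * p), abs_mul, abs_of_nonneg hε]
    have : ε * |a'| ≤ 1 * M₁ := mul_le_mul hε1 ha' (abs_nonneg _) (by norm_num)
    linarith
  rw [h1]
  refine (abs_add_le _ _).trans ?_
  rw [abs_mul, abs_mul, abs_of_nonneg hε]
  have h9 : |Real.exp (2 * (ε * a)) - 1| * |2 * p + ε * a'| ≤
      ε * (2 * M₁ * Real.exp (2 * M₁)) * (2 * p + M₁) :=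
    mul_le_mul h6 h8 (abs_nonneg _) (by positivity)
  have h10 : ε * |a'| ≤ ε * M₁ := mul_le_mul_of_nonneg_left ha' hε
  nlinarith

theorem mv_pert {p : ℝ} (hp : 1 / 4 < p) : ∃ c₀ : ℝ, 0 < c₀ ∧ ∀ B N : ℝ, 0 < N → |B| ≤ c₀ * N →
    ∃ ε₀ : ℝ, 0 < ε₀ ∧ ∀ ε : ℝ, 0 < ε → ε ≤ ε₀ →
      MQV.MV MQV.Str p (fun ζ => Complex.exp (2 * p * ζ + ε * KS B N ζ)) := by
  obtain ⟨c₀, c, hc₀, hc, hfo⟩ := first_order hp
  obtain ⟨C, c', hC, hc', hmm⟩ := mm_int hp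
  have hp0 : 0 < p := by linarith
  refine ⟨c₀, hc₀, ?_⟩
  intro B N hN hB
  obtain ⟨M₁, hM₁⟩ : ∃ M₁ : ℝ, M₁ = 1 + |B| * (N + 6) := ⟨_, rfl⟩
  have hB0 : 0 ≤ |B| := abs_nonneg B
  have hM₁1 : 1 ≤ M₁ := by
    rw [hM₁]
    have : 0 ≤ |B| * (N + 6) := mul_nonneg hB0 (by linarith)
    linarith
  have hM₁0 : 0 < M₁ := by linarith
  obtain ⟨C₁, hC₁⟩ : ∃ C₁ : ℝ, C₁ = 2 * M₁ * Real.exp (2 * M₁) * (2 * p + M₁) + M₁ := ⟨_, rfl⟩
  have hC₁0 : 0 < C₁ := by rw [hC₁]; positivity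
  have hD : 0 < C₁ * (1 + |B|) * C := by positivity
  refine ⟨min 1 (min (p / M₁) (2 * p * c / (C₁ * (1 + |B|) * C))), by positivity, ?_⟩
  intro ε hε hεε
  have hε1 : ε ≤ 1 := hεε.trans (min_le_left _ _)
  have hε2 : ε * M₁ ≤ p :=
    (le_div_iff₀ hM₁0).1 (hεε.trans ((min_le_right _ _).trans (min_le_left _ _)))
  have hε3 : ε * (C₁ * (1 + |B|) * C) ≤ 2 * p * c :=
    (le_div_iff₀ hD).1 (hεε.trans ((min_le_right _ _).trans (min_le_right _ _)))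
  have hks := ks_diff B N
  have hK1 : ∀ ζ : ℂ, |ζ.im| ≤ Real.pi / 2 → ‖KS B N ζ‖ ≤ M₁ := by
    intro ζ hζ
    refine (ks_bound hN.le hζ).1.trans ?_
    rw [hM₁]
    nlinarith
  have hK2 : ∀ ζ : ℂ, |ζ.im| ≤ Real.pi / 2 → ‖deriv (KS B N) ζ‖ ≤ M₁ := by
    intro ζ hζ
    rw [hM₁]
    exact (ks_bound hN.le hζ).2
  have hmemπ : ∀ ζ : ℂ, |ζ.im| ≤ Real.pi / 2 → ζ ∈ {ζ : ℂ | |ζ.im| < Real.pi} := by
    intro ζ hζ
    show |ζ.im| < Real.pi
    linarith [Real.pi_pos]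
  have hg : DifferentiableOn ℂ (fun ζ : ℂ => 2 * p * ζ + ε * KS B N ζ)
      {ζ : ℂ | |ζ.im| < Real.pi} :=
    (differentiableOn_id.const_mul (2 * (p : ℂ))).add (hks.const_mul (ε : ℂ))
  have hdg : ∀ ζ : ℂ, |ζ.im| ≤ Real.pi / 2 →
      deriv (fun ζ : ℂ => 2 * p * ζ + ε * KS B N ζ) ζ = 2 * p + ε * deriv (KS B N) ζ := by
    intro ζ hζ
    have h1 : HasDerivAt (KS B N) (deriv (KS B N) ζ) ζ :=
      (hks.differentiableAt (open_pi42.mem_nhds (hmemπ ζ hζ))).hasDerivAt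
    have h2 := ((hasDerivAt_id ζ).const_mul (2 * (p : ℂ))).add (h1.const_mul (ε : ℂ))
    have h3 : HasDerivAt (fun ζ : ℂ => 2 * p * ζ + ε * KS B N ζ)
        (2 * p * 1 + ε * deriv (KS B N) ζ) ζ := h2
    rw [h3.deriv, mul_one]
  have hgre : ∀ ξ : ℝ, (2 * (p : ℂ) * ((ξ : ℂ) + (Real.pi / 2 : ℝ) * Complex.I) +
      ε * KS B N ((ξ : ℂ) + (Real.pi / 2 : ℝ) * Complex.I)).re =
        2 * p * ξ + ε * (KS B N ((ξ : ℂ) + (Real.pi / 2 : ℝ) * Complex.I)).re := by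
    intro ξ
    simp [Complex.add_re, Complex.mul_re]
  have hgim : ∀ ξ : ℝ, (2 * (p : ℂ) * ((ξ : ℂ) + (Real.pi / 2 : ℝ) * Complex.I) +
      ε * KS B N ((ξ : ℂ) + (Real.pi / 2 : ℝ) * Complex.I)).im =
        Real.pi * p + ε * (KS B N ((ξ : ℂ) + (Real.pi / 2 : ℝ) * Complex.I)).im := by
    intro ξ
    simp [Complex.add_im, Complex.mul_im]
    ring
  refine area_crit (q := ε * M₁) (M := Real.pi * p + M₁) hp0 (by linarith) hg ?_ ?_ ?_ ?_
  · intro ζ hζ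
    rw [hdg ζ hζ, add_sub_cancel_left, norm_mul, Complex.norm_real, Real.norm_of_nonneg hε.le]
    exact mul_le_mul_of_nonneg_left (hK2 ζ hζ) hε.le
  · intro ζ _
    show 2 * (p : ℂ) * (starRingEnd ℂ) ζ + ε * KS B N ((starRingEnd ℂ) ζ) =
      (starRingEnd ℂ) (2 * p * ζ + ε * KS B N ζ)
    rw [ks_conj, map_add, map_mul, map_mul, map_mul, Complex.conj_ofReal, Complex.conj_ofReal,
      map_ofNat]
  · intro ξ
    show |(2 * (p : ℂ) * ((ξ : ℂ) + (Real.pi / 2 : ℝ) * Complex.I) +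
      ε * KS B N ((ξ : ℂ) + (Real.pi / 2 : ℝ) * Complex.I)).im| ≤ _
    rw [hgim]
    refine (abs_add_le _ _).trans ?_
    rw [abs_of_pos (by positivity), abs_mul, abs_of_pos hε]
    have h1 := (Complex.abs_im_le_norm _).trans (hK1 _ (le_pi42 ξ))
    have h2 : ε * |(KS B N ((ξ : ℂ) + (Real.pi / 2 : ℝ) * Complex.I)).im| ≤ 1 * M₁ :=
      mul_le_mul hε1 h1 (abs_nonneg _) (by norm_num)
    linarith
  · intro ξ₀
    obtain ⟨b, hb⟩ : ∃ b : ℝ → ℝ, b = fun ξ : ℝ =>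
      (KS B N ((ξ : ℂ) + (Real.pi / 2 : ℝ) * Complex.I)).im := ⟨_, rfl⟩
    obtain ⟨a, ha⟩ : ∃ a : ℝ → ℝ, a = fun ξ : ℝ =>
      (KS B N ((ξ : ℂ) + (Real.pi / 2 : ℝ) * Complex.I)).re := ⟨_, rfl⟩
    obtain ⟨a', ha'⟩ : ∃ a' : ℝ → ℝ, a' = fun ξ : ℝ =>
      (deriv (KS B N) ((ξ : ℂ) + (Real.pi / 2 : ℝ) * Complex.I)).re := ⟨_, rfl⟩
    have hbc : Continuous b := by
      rw [hb]
      exact Complex.continuous_im.comp (cont_line42 hks.continuousOn)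
    have hac : Continuous a := by
      rw [ha]
      exact Complex.continuous_re.comp (cont_line42 hks.continuousOn)
    have hac' : Continuous a' := by
      rw [ha']
      exact Complex.continuous_re.comp (cont_line42 (hks.deriv open_pi42).continuousOn)
    have hbb : ∀ ξ : ℝ, |b ξ * Real.exp (4 * p * ξ)| ≤ (1 + |B|) * mm p ξ := by
      intro ξ
      rw [abs_mul, abs_of_pos (Real.exp_pos _), ← mm_eq]
      have h1 := ks_im (B := B) hN.le ξ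
      have h2 : |b ξ| ≤ (1 + |B|) * min (Real.exp ξ) (Real.exp (-ξ)) := by
        rw [hb]
        exact h1
      calc |b ξ| * Real.exp (4 * p * ξ) ≤
          ((1 + |B|) * min (Real.exp ξ) (Real.exp (-ξ))) * Real.exp (4 * p * ξ) :=
            mul_le_mul_of_nonneg_right h2 (Real.exp_pos _).le
        _ = _ := by ring
    have haa : ∀ ξ : ℝ, |a ξ| ≤ M₁ := by
      intro ξ
      rw [ha]
      exact (Complex.abs_re_le_norm _).trans (hK1 _ (le_pi42 ξ))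
    have haa' : ∀ ξ : ℝ, |a' ξ| ≤ M₁ := by
      intro ξ
      rw [ha']
      exact (Complex.abs_re_le_norm _).trans (hK2 _ (le_pi42 ξ))
    have hmu : ∀ ξ : ℝ, |Real.exp (2 * (ε * a ξ)) * (2 * p + ε * a' ξ) - 2 * p| ≤ ε * C₁ := by
      intro ξ
      rw [hC₁]
      exact mult42 hp0 hε.le hε1 hM₁0.le (haa ξ) (haa' ξ)
    obtain ⟨hmi, hmC, -⟩ := hmm ξ₀
    have hi0 : IntegrableOn (fun ξ => (1 + |B|) * mm p ξ) (Iic ξ₀) := hmi.const_mul _
    have hi1 : IntegrableOn (fun ξ => b ξ * Real.exp (4 * p * ξ)) (Iic ξ₀) := by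
      refine Integrable.mono' hi0 ?_ (Filter.Eventually.of_forall fun ξ => ?_)
      · exact (hbc.mul (by fun_prop)).aestronglyMeasurable
      · rw [Real.norm_eq_abs]
        exact hbb ξ
    have hbd2 : ∀ ξ : ℝ, |b ξ * Real.exp (4 * p * ξ) *
        (Real.exp (2 * (ε * a ξ)) * (2 * p + ε * a' ξ) - 2 * p)| ≤
          ε * C₁ * ((1 + |B|) * mm p ξ) := by
      intro ξ
      rw [abs_mul]
      calc _ ≤ ((1 + |B|) * mm p ξ) * (ε * C₁) :=
            mul_le_mul (hbb ξ) (hmu ξ) (abs_nonneg _) ((abs_nonneg _).trans (hbb ξ))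
        _ = _ := by ring
    have hi3 : IntegrableOn (fun ξ => ε * C₁ * ((1 + |B|) * mm p ξ)) (Iic ξ₀) :=
      hi0.const_mul _
    have hi2 : IntegrableOn (fun ξ => b ξ * Real.exp (4 * p * ξ) *
        (Real.exp (2 * (ε * a ξ)) * (2 * p + ε * a' ξ) - 2 * p)) (Iic ξ₀) := by
      refine Integrable.mono' hi3 ?_ (Filter.Eventually.of_forall fun ξ => ?_)
      · refine Continuous.aestronglyMeasurable ?_
        fun_prop
      · rw [Real.norm_eq_abs]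
        exact hbd2 ξ
    have hint2 : ∫ ξ in Iic ξ₀, b ξ * Real.exp (4 * p * ξ) *
        (Real.exp (2 * (ε * a ξ)) * (2 * p + ε * a' ξ) - 2 * p) ≤
          ε * (C₁ * (1 + |B|) * C) * mm p ξ₀ := by
      have h1 : ∫ ξ in Iic ξ₀, b ξ * Real.exp (4 * p * ξ) *
          (Real.exp (2 * (ε * a ξ)) * (2 * p + ε * a' ξ) - 2 * p) ≤
            ∫ ξ in Iic ξ₀, ε * C₁ * ((1 + |B|) * mm p ξ) :=
        integral_mono hi2 hi3 fun ξ => (le_abs_self _).trans (hbd2 ξ)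
      refine h1.trans ?_
      rw [integral_const_mul, integral_const_mul]
      have h2 : ε * C₁ * ((1 + |B|) * ∫ ξ in Iic ξ₀, mm p ξ) ≤
          ε * C₁ * ((1 + |B|) * (C * mm p ξ₀)) := by
        refine mul_le_mul_of_nonneg_left ?_ (by positivity)
        exact mul_le_mul_of_nonneg_left hmC (by positivity)
      refine h2.trans (le_of_eq ?_)
      ring
    have hint1 : ∫ ξ in Iic ξ₀, b ξ * Real.exp (4 * p * ξ) ≤ -(c * mm p ξ₀) := by
      rw [hb]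
      exact hfo B N hN hB ξ₀
    have hmpos : 0 < mm p ξ₀ := by
      unfold mm
      exact lt_min (Real.exp_pos _) (Real.exp_pos _)
    have hEq : ∀ ξ : ℝ, ((2 * (p : ℂ) * ((ξ : ℂ) + (Real.pi / 2 : ℝ) * Complex.I) +
        ε * KS B N ((ξ : ℂ) + (Real.pi / 2 : ℝ) * Complex.I)).im - Real.pi * p) *
        (Real.exp (2 * (2 * (p : ℂ) * ((ξ : ℂ) + (Real.pi / 2 : ℝ) * Complex.I) +
          ε * KS B N ((ξ : ℂ) + (Real.pi / 2 : ℝ) * Complex.I)).re) *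
          (deriv (fun ζ : ℂ => 2 * p * ζ + ε * KS B N ζ)
            ((ξ : ℂ) + (Real.pi / 2 : ℝ) * Complex.I)).re) =
        ε * (2 * p) * (b ξ * Real.exp (4 * p * ξ)) + ε * (b ξ * Real.exp (4 * p * ξ) *
        (Real.exp (2 * (ε * a ξ)) * (2 * p + ε * a' ξ) - 2 * p)) := by
      intro ξ
      rw [hgim, hgre, hdg _ (le_pi42 ξ)]
      have h1 : (2 * (p : ℂ) + ε * deriv (KS B N) ((ξ : ℂ) + (Real.pi / 2 : ℝ) * Complex.I)).re =
          2 * p + ε * a' ξ := by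
        rw [ha']
        simp [Complex.add_re, Complex.mul_re]
      have h2 : Real.exp (2 * (2 * p * ξ +
          ε * (KS B N ((ξ : ℂ) + (Real.pi / 2 : ℝ) * Complex.I)).re)) =
            Real.exp (4 * p * ξ) * Real.exp (2 * (ε * a ξ)) := by
        rw [← Real.exp_add, ha]
        congr 1
        ring
      have h3 : (KS B N ((ξ : ℂ) + (Real.pi / 2 : ℝ) * Complex.I)).im = b ξ := by rw [hb]
      rw [h1, h2, h3]
      ring
    show ∫ ξ in Iic ξ₀, ((2 * (p : ℂ) * ((ξ : ℂ) + (Real.pi / 2 : ℝ) * Complex.I) +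
        ε * KS B N ((ξ : ℂ) + (Real.pi / 2 : ℝ) * Complex.I)).im - Real.pi * p) *
        (Real.exp (2 * (2 * (p : ℂ) * ((ξ : ℂ) + (Real.pi / 2 : ℝ) * Complex.I) +
          ε * KS B N ((ξ : ℂ) + (Real.pi / 2 : ℝ) * Complex.I)).re) *
          (deriv (fun ζ : ℂ => 2 * p * ζ + ε * KS B N ζ)
            ((ξ : ℂ) + (Real.pi / 2 : ℝ) * Complex.I)).re) ≤ 0
    simp_rw [hEq]
    rw [integral_add (hi1.const_mul _) (hi2.const_mul _), integral_const_mul, integral_const_mul]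
    have h5 : ε * (2 * p) * ∫ ξ in Iic ξ₀, b ξ * Real.exp (4 * p * ξ) ≤
        ε * (2 * p) * (-(c * mm p ξ₀)) := mul_le_mul_of_nonneg_left hint1 (by positivity)
    have h6 := mul_le_mul_of_nonneg_left hint2 hε.le
    have h7 : ε * (ε * (C₁ * (1 + |B|) * C) * mm p ξ₀) ≤ ε * (2 * p * c * mm p ξ₀) :=
      mul_le_mul_of_nonneg_left (mul_le_mul_of_nonneg_right hε3 hmpos.le) hε.le
    linarith

theorem exp_neg_lg {z : ℂ} (hz : z ∈ ball (0 : ℂ) 1) : Complex.exp (-MQV.lg z) = Wd z := by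
  have hz' : ‖z‖ < 1 := mem_ball_zero_iff.1 hz
  have h1 : 1 + z ≠ 0 := by
    intro h
    have h2 : z = -1 := by linear_combination h
    rw [h2, norm_neg, norm_one] at hz'
    exact lt_irrefl _ hz'
  have h2 : 1 - z ≠ 0 := by
    intro h
    have h2 : z = 1 := by linear_combination -h
    rw [h2, norm_one] at hz'
    exact lt_irrefl _ hz'
  unfold MQV.lg Wd
  rw [Complex.exp_neg, Complex.exp_log (div_ne_zero h1 h2), inv_div]

theorem fn_mv {p ε B N : ℝ} (hp : 0 ≤ p)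
    (h : MQV.MV MQV.Str p (fun ζ => Complex.exp (2 * p * ζ + ε * KS B N ζ))) {m : ℝ} (hm : 0 < m) :
    MQV.MV (ball 0 1) p (fun z => bs p z * Complex.exp (ε * kk B N (m * Wd z))) := by
  have h1 := (h.shift (-Real.log m)).toBall
  have h2 := h1.const_mul isOpen_ball hp (Complex.exp (2 * p * (Real.log m : ℝ)))
  refine h2.congr isOpen_ball fun z hz => ?_
  show bs p z * Complex.exp (ε * kk B N (m * Wd z)) = Complex.exp (2 * p * (Real.log m : ℝ)) *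
    Complex.exp (2 * p * (MQV.lg z + ((-Real.log m : ℝ) : ℂ)) +
      ε * KS B N (MQV.lg z + ((-Real.log m : ℝ) : ℂ)))
  have h3 : KS B N (MQV.lg z + ((-Real.log m : ℝ) : ℂ)) = kk B N (m * Wd z) := by
    unfold KS
    congr 1
    rw [neg_add, Complex.exp_add, exp_neg_lg hz, Complex.ofReal_neg, neg_neg,
      ← Complex.ofReal_exp, Real.exp_log hm, mul_comm]
  rw [h3]
  unfold bs
  rw [← Complex.exp_add, ← Complex.exp_add, Complex.ofReal_neg]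
  congr 1
  ring

end MQK
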